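import Mathlib

/-!
# Sections which are dihedral or semidihedral of order 16

`IsD16 K`, `IsSD16 K`: `K` is dihedral, respectively semidihedral of order 16. `NoD16 G`, `NoSD16 G`: no
section of `G` is of this kind. These properties pass to subgroups and to homomorphic images.
-/

set_option autoImplicit false

open Subgroup

namespace Pool.Agent.Helper94.SV.Sec

universe u v

/-- dihedral of order 16 -/
def IsD16 (K : Type u) [Group K] : Prop :=
  Nat.card K = 16 ∧ ∃ r s : K, orderOf r = 8 ∧ s * s = 1 ∧ s * r * s = r ^ 7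

/-- semidihedral of order 16 -/
def IsSD16 (K : Type u) [Group K] : Prop :=
  Nat.card K = 16 ∧ ∃ r s : K, orderOf r = 8 ∧ s * s = 1 ∧ s * r * s = r ^ 3

/-- the common form: `k = 7` dihedral, `k = 3` semidihedral -/
def Is16 (k : ℕ) (K : Type u) [Group K] : Prop :=
  Nat.card K = 16 ∧ ∃ r s : K, orderOf r = 8 ∧ s * s = 1 ∧ s * r * s = r ^ k

/-- no section `H / N` of `G` is dihedral of order 16 -/
def NoD16 (G : Type u) [Group G] : Prop :=
  ∀ (H : Subgroup G) (N : Subgroup H) [N.Normal], ¬ IsD16 (H ⧸ N)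

/-- no section `H / N` of `G` is semidihedral of order 16 -/
def NoSD16 (G : Type u) [Group G] : Prop :=
  ∀ (H : Subgroup G) (N : Subgroup H) [N.Normal], ¬ IsSD16 (H ⧸ N)

/-- the common form -/
def No16 (k : ℕ) (G : Type u) [Group G] : Prop :=
  ∀ (H : Subgroup G) (N : Subgroup H) [N.Normal], ¬ Is16 k (H ⧸ N)

theorem noD16_iff (G : Type u) [Group G] : NoD16 G ↔ No16 7 G := Iff.rfl

theorem noSD16_iff (G : Type u) [Group G] : NoSD16 G ↔ No16 3 G := Iff.rfl

theorem Is16.of_equiv {k : ℕ} {K : Type u} [Group K] {L : Type v} [Group L] (e : K ≃* L)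
    (h : Is16 k K) : Is16 k L := by
  obtain ⟨h1, r, s, h2, h3, h4⟩ := h
  refine ⟨by rw [← h1]; exact Nat.card_congr e.symm.toEquiv, e r, e s, ?_, ?_, ?_⟩
  · rw [← h2]
    exact orderOf_injective e.toMonoidHom e.injective r
  · rw [← map_mul, h3, map_one]
  · rw [← map_mul, ← map_mul, h4, map_pow]

/-- a subgroup has no such quotient -/
theorem No16.surj {k : ℕ} {G : Type u} [Group G] (hG : No16 k G) (H : Subgroup G) {K : Type v}
    [Group K] (f : H →* K) (hf : Function.Surjective f) : ¬ Is16 k K := by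
  have e : H ⧸ f.ker ≃* K := QuotientGroup.quotientKerEquivOfSurjective f hf
  exact fun h => hG H f.ker (h.of_equiv e.symm)

theorem No16.image {k : ℕ} {G : Type u} [Group G] (hG : No16 k G) {Q : Type v} [Group Q]
    (f : G →* Q) (hf : Function.Surjective f) : No16 k Q := by
  intro H N _
  have hs : Function.Surjective ((QuotientGroup.mk' N).comp
      ((f.comp (H.comap f).subtype).codRestrict H (fun x => x.2))) := by
    intro y
    obtain ⟨h, rfl⟩ := QuotientGroup.mk'_surjective N y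
    obtain ⟨g, hg⟩ := hf h
    have hgH : g ∈ H.comap f := by
      rw [Subgroup.mem_comap, hg]
      exact h.2
    refine ⟨⟨g, hgH⟩, ?_⟩
    show QuotientGroup.mk' N _ = QuotientGroup.mk' N h
    congr 1
    exact Subtype.ext hg
  exact hG.surj (H.comap f) _ hs

theorem No16.of_injective {k : ℕ} {G : Type u} [Group G] (hG : No16 k G) {K : Type v} [Group K]
    (f : K →* G) (hf : Function.Injective f) : No16 k K := by
  intro H N _
  have e : H ≃* H.map f := H.equivMapOfInjective f hf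
  have hs : Function.Surjective ((QuotientGroup.mk' N).comp e.symm.toMonoidHom) := by
    intro y
    obtain ⟨h, rfl⟩ := QuotientGroup.mk'_surjective N y
    exact ⟨e h, by simp⟩
  exact hG.surj (H.map f) _ hs

theorem No16.subgroup {k : ℕ} {G : Type u} [Group G] (hG : No16 k G) (H : Subgroup G) : No16 k H :=
  hG.of_injective H.subtype H.subtype_injective

theorem No16.quotient {k : ℕ} {G : Type u} [Group G] (hG : No16 k G) (N : Subgroup G) [N.Normal] :
    No16 k (G ⧸ N) :=
  hG.image (QuotientGroup.mk' N) (QuotientGroup.mk'_surjective N)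

section elements

variable {G : Type u} [Group G]

theorem s_pow {k : ℕ} {r s : G} (hs : s * s = 1) (h : s * r * s = r ^ k) (n : ℕ) :
    s * r ^ n = r ^ (k * n) * s := by
  induction n with
  | zero => simp
  | succ n ih =>
    have h1 : s * r = r ^ k * s := by rw [← h, mul_assoc, hs, mul_one]
    rw [pow_succ, ← mul_assoc, ih, mul_assoc, h1, ← mul_assoc, ← pow_add]
    rfl

/-- the group generated by `r` and `s` -/
def grp {k : ℕ} {r s : G} (hs : s * s = 1) (h : s * r * s = r ^ k) (h8 : r ^ 8 = 1) : Subgroup G where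
  carrier := {x | ∃ i : ℕ, x = r ^ i ∨ x = r ^ i * s}
  one_mem' := ⟨0, Or.inl (pow_zero r).symm⟩
  mul_mem' := by
    rintro a b ⟨i, hi⟩ ⟨j, hj⟩
    rcases hi with rfl | rfl <;> rcases hj with rfl | rfl
    · exact ⟨i + j, Or.inl (pow_add r i j).symm⟩
    · exact ⟨i + j, Or.inr (by rw [pow_add, mul_assoc])⟩
    · refine ⟨i + k * j, Or.inr ?_⟩
      rw [mul_assoc, s_pow hs h, pow_add, mul_assoc]
    · refine ⟨i + k * j, Or.inl ?_⟩
      have e : r ^ i * s * (r ^ j * s) = r ^ i * (s * r ^ j) * s := by simp only [mul_assoc]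
      rw [e, s_pow hs h, pow_add, ← mul_assoc, mul_assoc, hs, mul_one]
  inv_mem' := by
    rintro a ⟨i, hi⟩
    have h1 : ∀ i : ℕ, r ^ (7 * i) = (r ^ i)⁻¹ := by
      intro i
      apply eq_inv_of_mul_eq_one_left
      rw [← pow_add]
      have e : 7 * i + i = 8 * i := by ring
      rw [e, pow_mul, h8, one_pow]
    rcases hi with rfl | rfl
    · exact ⟨7 * i, Or.inl (h1 i).symm⟩
    · refine ⟨k * (7 * i), Or.inr ?_⟩
      rw [mul_inv_rev, inv_eq_of_mul_eq_one_left hs, ← h1, s_pow hs h]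

theorem card_grp {k : ℕ} {r s : G} (hs : s * s = 1) (h : s * r * s = r ^ k) (h8 : r ^ 8 = 1)
    (hr : orderOf r = 8) (hk : ¬ (r ^ k = r)) : Nat.card (grp hs h h8) = 16 := by
  have hns : ∀ i : ℕ, s ≠ r ^ i := by
    intro i hi
    apply hk
    rw [← h]
    have e : s * r = r * s := by rw [hi, ← pow_succ, ← pow_succ']
    rw [e, mul_assoc, hs, mul_one]
  have hmod : ∀ i : ℕ, r ^ i = r ^ (i % 8) := fun i => by
    rw [← hr, pow_mod_orderOf]
  have hinj : ∀ i < 8, ∀ j < 8, r ^ i = r ^ j → i = j := by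
    intro i hi j hj hij
    exact pow_injOn_Iio_orderOf (by rw [hr]; exact hi) (by rw [hr]; exact hj) hij
  let f : Fin 8 ⊕ Fin 8 → grp hs h h8 := fun z => match z with
    | Sum.inl i => ⟨r ^ (i : ℕ), i, Or.inl rfl⟩
    | Sum.inr i => ⟨r ^ (i : ℕ) * s, i, Or.inr rfl⟩
  have hbij : Function.Bijective f := by
    constructor
    · rintro (i | i) (j | j) hij
      · have h1 : r ^ (i : ℕ) = r ^ (j : ℕ) := congrArg Subtype.val hij
        rw [Fin.ext (hinj i i.2 j j.2 h1)]
      · exfalso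
        have h1 : r ^ (i : ℕ) = r ^ (j : ℕ) * s := congrArg Subtype.val hij
        have h2 : s = (r ^ (j : ℕ))⁻¹ * r ^ (i : ℕ) := by rw [h1, inv_mul_cancel_left]
        have h3 : (r ^ (j : ℕ))⁻¹ = r ^ (7 * (j : ℕ)) := by
          symm
          apply eq_inv_of_mul_eq_one_left
          rw [← pow_add]
          have e : 7 * (j : ℕ) + j = 8 * j := by ring
          rw [e, pow_mul, h8, one_pow]
        rw [h3, ← pow_add] at h2
        exact hns _ h2
      · exfalso
        have h1 : r ^ (i : ℕ) * s = r ^ (j : ℕ) := congrArg Subtype.val hij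
        have h2 : s = (r ^ (i : ℕ))⁻¹ * r ^ (j : ℕ) := by rw [← h1, inv_mul_cancel_left]
        have h3 : (r ^ (i : ℕ))⁻¹ = r ^ (7 * (i : ℕ)) := by
          symm
          apply eq_inv_of_mul_eq_one_left
          rw [← pow_add]
          have e : 7 * (i : ℕ) + i = 8 * i := by ring
          rw [e, pow_mul, h8, one_pow]
        rw [h3, ← pow_add] at h2
        exact hns _ h2
      · have h1 : r ^ (i : ℕ) * s = r ^ (j : ℕ) * s := congrArg Subtype.val hij
        rw [Fin.ext (hinj i i.2 j j.2 (mul_right_cancel h1))]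
    · rintro ⟨x, i, hx⟩
      rcases hx with hx | hx
      · refine ⟨Sum.inl ⟨i % 8, Nat.mod_lt _ (by norm_num)⟩, Subtype.ext ?_⟩
        show r ^ (i % 8) = x
        rw [hx, ← hmod i]
      · refine ⟨Sum.inr ⟨i % 8, Nat.mod_lt _ (by norm_num)⟩, Subtype.ext ?_⟩
        show r ^ (i % 8) * s = x
        rw [hx, ← hmod i]
  rw [← Nat.card_congr (Equiv.ofBijective f hbij)]
  simp

theorem is16_grp {k : ℕ} {r s : G} (hs : s * s = 1) (h : s * r * s = r ^ k) (h8 : r ^ 8 = 1)
    (hr : orderOf r = 8) (hk : ¬ (r ^ k = r)) : Is16 k (grp hs h h8) := by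
  refine ⟨card_grp hs h h8 hr hk, ⟨r, 1, Or.inl (pow_one r).symm⟩, ⟨s, 0, Or.inr (by simp)⟩, ?_, ?_, ?_⟩
  · rw [← hr]
    exact (orderOf_injective (grp hs h h8).subtype (Subgroup.subtype_injective _) _).symm
  · exact Subtype.ext hs
  · exact Subtype.ext h

theorem orderOf_eight {r : G} (h8 : r ^ 8 = 1) (h4 : r ^ 4 ≠ 1) : orderOf r = 8 := by
  have e : (8 : ℕ) = 2 ^ (2 + 1) := by norm_num
  rw [e]
  exact orderOf_eq_prime_pow (by simpa using h4) (by simpa using h8)

/-- no dihedral group of order 16 -/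
theorem No16.dih (hG : No16 7 G) {r s : G} (hs : s * s = 1) (h : s * r * s = r⁻¹) (h8 : r ^ 8 = 1) :
    r ^ 4 = 1 := by
  by_contra h4
  have hr := orderOf_eight h8 h4
  have h7 : s * r * s = r ^ 7 := by
    rw [h]
    apply inv_eq_of_mul_eq_one_left
    rw [← pow_succ]
    exact h8
  refine hG.surj (grp hs h7 h8) (MonoidHom.id _) Function.surjective_id ?_
  refine is16_grp hs h7 h8 hr ?_
  intro hk
  have h6 : r ^ 6 = 1 := by
    have e : r ^ 7 = r ^ 6 * r := by rw [← pow_succ]
    rw [e] at hk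
    exact mul_eq_right.mp hk
  have h9 := orderOf_dvd_of_pow_eq_one h6
  rw [hr] at h9
  omega

/-- no semidihedral group of order 16 -/
theorem No16.semi (hG : No16 3 G) {r s : G} (hs : s * s = 1) (h : s * r * s = r ^ 3)
    (h8 : r ^ 8 = 1) : r ^ 4 = 1 := by
  by_contra h4
  have hr := orderOf_eight h8 h4
  refine hG.surj (grp hs h h8) (MonoidHom.id _) Function.surjective_id ?_
  refine is16_grp hs h h8 hr ?_
  intro hk
  have h6 : r ^ 2 = 1 := by
    have e : r ^ 3 = r ^ 2 * r := by rw [← pow_succ]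
    rw [e] at hk
    exact mul_eq_right.mp hk
  have h9 := orderOf_dvd_of_pow_eq_one h6
  rw [hr] at h9
  omega

/-- (D): if `s², t², (s t)⁸` lie in the normal subgroup `K` of `H`, so does `(s t)⁴` -/
theorem No16.sec_dih (hG : No16 7 G) (H : Subgroup G) (K : Subgroup H) [K.Normal] (s t : H)
    (hs : s * s ∈ K) (ht : t * t ∈ K) (h8 : (s * t) ^ 8 ∈ K) : (s * t) ^ 4 ∈ K := by
  have hQ := (hG.subgroup H).quotient K
  have hs' : (s : H ⧸ K) * s = 1 := (QuotientGroup.eq_one_iff (s * s)).mpr hs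
  have ht' : (t : H ⧸ K) * t = 1 := (QuotientGroup.eq_one_iff (t * t)).mpr ht
  have h8' : ((s : H ⧸ K) * t) ^ 8 = 1 := (QuotientGroup.eq_one_iff ((s * t) ^ 8)).mpr h8
  refine (QuotientGroup.eq_one_iff ((s * t) ^ 4)).mp ?_
  refine hQ.dih (s := (s : H ⧸ K)) hs' ?_ h8'
  rw [mul_inv_rev, inv_eq_of_mul_eq_one_left hs', inv_eq_of_mul_eq_one_left ht', ← mul_assoc, hs',
    one_mul]

/-- (SD): if `s²`, `r⁸` and `s r s r⁻³` lie in the normal subgroup `K` of `H`, so does `r⁴` -/
theorem No16.sec_semi (hG : No16 3 G) (H : Subgroup G) (K : Subgroup H) [K.Normal] (r s : H)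
    (hs : s * s ∈ K) (h : s * r * s * (r ^ 3)⁻¹ ∈ K) (h8 : r ^ 8 ∈ K) : r ^ 4 ∈ K := by
  have hQ := (hG.subgroup H).quotient K
  have hs' : (s : H ⧸ K) * s = 1 := (QuotientGroup.eq_one_iff (s * s)).mpr hs
  have h8' : (r : H ⧸ K) ^ 8 = 1 := (QuotientGroup.eq_one_iff (r ^ 8)).mpr h8
  have h' : (s : H ⧸ K) * r * s * ((r : H ⧸ K) ^ 3)⁻¹ = 1 :=
    (QuotientGroup.eq_one_iff (s * r * s * (r ^ 3)⁻¹)).mpr h
  exact (QuotientGroup.eq_one_iff (r ^ 4)).mp (hQ.semi hs' (mul_inv_eq_one.mp h') h8')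

/-- two involutions whose product has 2-power order -/
theorem No16.invol (hG : No16 7 G) {i j : G} (hi : i * i = 1) (hj : j * j = 1) (n : ℕ)
    (hn : (i * j) ^ (2 ^ n) = 1) : (i * j) ^ 4 = 1 := by
  induction n with
  | zero =>
    have h1 : i * j = 1 := by simpa using hn
    rw [h1, one_pow]
  | succ n ih =>
    rcases Nat.lt_or_ge n 2 with h2 | h2
    · interval_cases n
      · have h1 : (i * j) ^ 2 = 1 := by simpa using hn
        have e : (i * j) ^ 4 = ((i * j) ^ 2) ^ 2 := by rw [← pow_mul]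
        rw [e, h1, one_pow]
      · have e : (2 : ℕ) ^ (1 + 1) = 4 := by norm_num
        rw [e] at hn
        exact hn
    · apply ih
      obtain ⟨m, rfl⟩ : ∃ m, n = m + 2 := ⟨n - 2, by omega⟩
      have e1 : (2 : ℕ) ^ (m + 2 + 1) = 2 ^ m * 8 := by ring
      have e2 : (2 : ℕ) ^ (m + 2) = 2 ^ m * 4 := by ring
      rw [e1, pow_mul] at hn
      rw [e2, pow_mul]
      refine hG.dih (s := i) hi ?_ hn
      have hinv : i * (i * j) * i = (i * j)⁻¹ := by
        rw [mul_inv_rev, inv_eq_of_mul_eq_one_left hi, inv_eq_of_mul_eq_one_left hj, ← mul_assoc, hi,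
          one_mul]
      have hi' : i = i⁻¹ := (inv_eq_of_mul_eq_one_left hi).symm
      have h3 : ∀ k : ℕ, i * (i * j) ^ k * i = ((i * j) ^ k)⁻¹ := by
        intro k
        have e3 : i * (i * j) ^ k * i = (i * (i * j) * i) ^ k := by
          induction k with
          | zero => simp [hi]
          | succ k ihk =>
            rw [pow_succ (i * (i * j) * i), ← ihk, pow_succ]
            have e4 : i * (i * j) ^ k * i * (i * (i * j) * i) =
                i * (i * j) ^ k * (i * i) * (i * j) * i := by simp only [mul_assoc]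
            rw [e4, hi, mul_one]
            simp only [mul_assoc]
        rw [e3, hinv, inv_pow]
      exact h3 _

end elements

end Pool.Agent.Helper94.SV.Sec
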