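import Pool.Agent.Helper94.SV.Frame2
import Pool.Agent.Helper94.SV.Sec

/-!
# Maximal `DLaw` sets in groups without dihedral sections of order 16

They are closed under products of commuting elements and under commutators.
-/

set_option autoImplicit false

open Subgroup

namespace Pool.Agent.Helper94.SV.Comm

open Pool.Agent.Helper94.SV.Frame Pool.Agent.Helper94.SV.Sec

universe u

variable {G : Type u} [Group G]

theorem conj_commute {g x y : G} (h : Commute x y) : Commute (g * x * g⁻¹) (g * y * g⁻¹) := by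
  show g * x * g⁻¹ * (g * y * g⁻¹) = g * y * g⁻¹ * (g * x * g⁻¹)
  have h1 : x * y = y * x := h
  calc g * x * g⁻¹ * (g * y * g⁻¹) = g * (x * y) * g⁻¹ := by group
    _ = g * (y * x) * g⁻¹ := by rw [h1]
    _ = _ := by group

/-- `(s a d)⁸ = 1` if `a, d` are commuting involutions, `s² = 1`, `(s a)⁴ = (s d)⁴ = (a d^s)⁴ = 1` -/
theorem eight {s a d : G} (hs : s * s = 1) (ha : a * a = 1) (hd : d * d = 1) (had : Commute a d)
    (h1 : (s * a) ^ 4 = 1) (h2 : (s * d) ^ 4 = 1) (h3 : (a * (s * d * s)) ^ 4 = 1) :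
    (s * (a * d)) ^ 8 = 1 := by
  have had' : a * d = d * a := had
  have ia := inv_eq_of_mul_eq_one_left ha
  have id' := inv_eq_of_mul_eq_one_left hd
  obtain ⟨g, eg⟩ : ∃ g, g = a * d := ⟨_, rfl⟩
  have hg : g * g = 1 := by
    rw [eg]
    calc a * d * (a * d) = a * (d * a) * d := by simp only [mul_assoc]
      _ = a * (a * d) * d := by rw [had']
      _ = (a * a) * (d * d) := by simp only [mul_assoc]
      _ = 1 := by rw [ha, hd, mul_one]
  have ig := inv_eq_of_mul_eq_one_left hg
  obtain ⟨s1, e1⟩ : ∃ s1, s1 = a * s * a := ⟨_, rfl⟩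
  obtain ⟨s2, e2⟩ : ∃ s2, s2 = d * s * d := ⟨_, rfl⟩
  obtain ⟨s3, e3⟩ : ∃ s3, s3 = g * s * g := ⟨_, rfl⟩
  have e3a : s3 = a * s2 * a := by
    rw [e3, e2]
    calc g * s * g = a * d * s * (d * a) := by rw [eg, ← had']
      _ = a * (d * s * d) * a := by simp only [mul_assoc]
  have e3d : s3 = d * s1 * d := by
    rw [e3, e1]
    calc g * s * g = d * a * s * (a * d) := by rw [eg, ← had']
      _ = d * (a * s * a) * d := by simp only [mul_assoc]
  have c01 : Commute s s1 := by
    rw [e1]
    exact comm_of_four hs ha (four_of_pow h1)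
  have c02 : Commute s s2 := by
    rw [e2]
    exact comm_of_four hs hd (four_of_pow h2)
  have c13 : Commute s1 s3 := by
    have h := conj_commute (g := a) c02
    rw [ia, ← e1, ← e3a] at h
    exact h
  have c23 : Commute s2 s3 := by
    have h := conj_commute (g := d) c01
    rw [id', ← e2, ← e3d] at h
    exact h
  have hs1 : s1 * s1 = 1 := by
    rw [e1]
    exact conj_sq hs ha
  have hs2 : s2 * s2 = 1 := by
    rw [e2]
    exact conj_sq hs hd
  have hs3 : s3 * s3 = 1 := by
    rw [e3]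
    exact conj_sq hs hg
  -- `(a d^s)² = (s1 s2)(s3 s)`
  have hx : (a * (s * d * s)) ^ 2 = (s1 * s2) * (s3 * s) := by
    have k1 : a * (s * d * s) = g * (s2 * s) := by
      rw [eg, e2]
      calc a * (s * d * s) = a * (d * d) * (s * d * s) := by rw [hd, mul_one]
        _ = a * d * (d * s * d * s) := by simp only [mul_assoc]
    have k2 : g * s2 * g = s1 := by
      rw [eg, e2, e1]
      calc a * d * (d * s * d) * (a * d) = a * (d * d) * s * (d * (a * d)) := by simp only [mul_assoc]
        _ = a * s * (d * (d * a)) := by rw [hd, mul_one, had']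
        _ = a * s * ((d * d) * a) := by simp only [mul_assoc]
        _ = a * s * a := by rw [hd, one_mul]
    calc (a * (s * d * s)) ^ 2 = g * (s2 * s) * (g * (s2 * s)) := by rw [k1, pow_two]
      _ = g * s2 * (g * g) * s * (g * (s2 * s)) := by rw [hg]; simp only [mul_assoc, one_mul]
      _ = (g * s2 * g) * (g * s * g) * (s2 * s) := by simp only [mul_assoc]
      _ = s1 * (s3 * s2) * s := by rw [k2, ← e3]; simp only [mul_assoc]
      _ = s1 * (s2 * s3) * s := by rw [c23.eq]
      _ = (s1 * s2) * (s3 * s) := by simp only [mul_assoc]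
  have cxy : Commute (s1 * s2) (s3 * s) :=
    (Commute.mul_left (c13.mul_right c01.symm) (c23.mul_right c02.symm))
  have hxy : (s1 * s2) ^ 2 * (s3 * s) ^ 2 = 1 := by
    rw [← cxy.mul_pow, ← hx, ← pow_mul]
    exact h3
  have c1y : Commute s1 ((s3 * s) ^ 2) := (c13.mul_right c01.symm).pow_right 2
  have hy2 : (s3 * s) ^ 2 = ((s1 * s2) ^ 2)⁻¹ := (inv_eq_of_mul_eq_one_right hxy).symm
  have hinv : s1 * (s1 * s2) ^ 2 * s1 = ((s1 * s2) ^ 2)⁻¹ := by
    apply eq_inv_of_mul_eq_one_left
    simp only [pow_two, mul_assoc, canc hs1, canc hs2, hs1, hs2]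
  have hx4 : (s1 * s2) ^ 4 = 1 := by
    have c1x : Commute s1 ((s1 * s2) ^ 2) := by
      have h := c1y.inv_right
      rw [hy2, inv_inv] at h
      exact h
    have h5 : s1 * (s1 * s2) ^ 2 * s1 = (s1 * s2) ^ 2 := by
      rw [c1x.eq, mul_assoc, hs1, mul_one]
    rw [h5] at hinv
    have h6 : (s1 * s2) ^ 2 * (s1 * s2) ^ 2 = 1 := by
      calc (s1 * s2) ^ 2 * (s1 * s2) ^ 2 = (s1 * s2) ^ 2 * ((s1 * s2) ^ 2)⁻¹ := by rw [← hinv]
        _ = 1 := mul_inv_cancel _
    rw [← pow_add] at h6
    exact h6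
  have hy4 : (s3 * s) ^ 4 = 1 := by
    have e : (s3 * s) ^ 4 = ((s3 * s) ^ 2) ^ 2 := by rw [← pow_mul]
    rw [e, hy2, inv_pow, ← pow_mul, hx4, inv_one]
  have hz : (s * (a * d)) ^ 2 = (s3 * s)⁻¹ := by
    rw [← eg, mul_inv_rev, inv_eq_of_mul_eq_one_left hs3, inv_eq_of_mul_eq_one_left hs, e3, pow_two]
    simp only [mul_assoc]
  have e : (s * (a * d)) ^ 8 = ((s * (a * d)) ^ 2) ^ 4 := by rw [← pow_mul]
  rw [e, hz, inv_pow, hy4, inv_one]

/-- `S`-type: an involution `s` with `(s e)⁴ = 1` on `D` -/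
theorem four_of_S (hG : NoD16 G) {D : Set G} (hD : DLaw D) {s : G} (hs : s * s = 1)
    (hS : ∀ e ∈ D, (s * e) ^ 4 = 1) {a d : G} (ha : a ∈ D) (hd : d ∈ D) (had : Commute a d) :
    (s * (a * d)) ^ 4 = 1 := by
  have haa := hD.inv a ha
  have hdd := hD.inv d hd
  have h8 := eight hs haa hdd had (hS a ha) (hS d hd) (pow_of_four (hD.four a ha _ (hD.conj' hd hs)))
  have hinv : a * d * (a * d) = 1 := by
    have had' : a * d = d * a := had
    calc a * d * (a * d) = a * (d * a) * d := by simp only [mul_assoc]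
      _ = a * (a * d) * d := by rw [had']
      _ = (a * a) * (d * d) := by simp only [mul_assoc]
      _ = 1 := by rw [haa, hdd, mul_one]
  exact No16.invol (G := G) hG hs hinv 3 (by simpa using h8)

/-- a maximal `DLaw` set is closed under products of commuting elements -/
theorem mul_mem_of_comm (hG : NoD16 G) {D : Set G} (hD : MaxLaw D) {a d : G} (ha : a ∈ D)
    (hd : d ∈ D) (had : Commute a d) : a * d ∈ D := by
  have haa := hD.law.inv a ha
  have hdd := hD.law.inv d hd
  have had' : a * d = d * a := had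
  have hinv : a * d * (a * d) = 1 := by
    calc a * d * (a * d) = a * (d * a) * d := by simp only [mul_assoc]
      _ = a * (a * d) * d := by rw [had']
      _ = (a * a) * (d * d) := by simp only [mul_assoc]
      _ = 1 := by rw [haa, hdd, mul_one]
  have hS : ∀ e ∈ D, ((a * d) * e) ^ 4 = 1 := by
    intro e he
    have h1 := four_of_S hG hD.law (hD.law.inv e he)
      (fun f hf => pow_of_four (hD.law.four e he f hf)) ha hd had
    have h2 : ((a * d) * e) ^ 4 = e⁻¹ * (e * (a * d)) ^ 4 * e := by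
      simp only [pow_succ, pow_zero, one_mul, mul_assoc, inv_mul_cancel_left]
    rw [h2, h1, mul_one, inv_mul_cancel]
  refine mem_of_class hD hinv (fun e he => four_of_pow (hS e he)) ?_
  intro g
  apply four_of_pow
  have e1 : g * (a * d) * g⁻¹ = (g * a * g⁻¹) * (g * d * g⁻¹) := by group
  rw [e1]
  exact four_of_S hG hD.law hinv hS (hD.law.conj g a ha) (hD.law.conj g d hd) (conj_commute had)

/-- a maximal `DLaw` set is closed under commutators -/
theorem c2_mem (hG : NoD16 G) {D : Set G} (hD : MaxLaw D) {a b : G} (ha : a ∈ D) (hb : b ∈ D) :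
    c2 a b ∈ D := by
  have h1 : c2 a b = a * (b * a * b) := by simp only [c2_def, mul_assoc]
  rw [h1]
  exact mul_mem_of_comm hG hD ha (hD.law.conj' ha (hD.law.inv b hb))
    (comm_of_four (hD.law.inv a ha) (hD.law.inv b hb) (hD.law.four a ha b hb))

end Pool.Agent.Helper94.SV.Comm
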