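import Pool.Agent.Helper94.SV.JPrime
import Pool.Agent.Helper94.SV.Comm

/-!
# Groups without dihedral sections of order 16: the frame

Two facts are used as hypotheses: `HMax` (in a group without such sections and without normal locally
finite subgroups every maximal `DLaw` set satisfies `(x y z)⁴ = 1`) and `HS3b`.
-/

set_option autoImplicit false

open Subgroup

namespace Pool.Agent.Helper94.SV.JPrime

open Pool.Agent.Helper94.SV.Frame Pool.Agent.Helper94.SV.Sec
open Pool.Agent.Helper89.SV (P3)

universe u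

def HMax : Prop := ∀ (Q : Type u) [Group Q], NoD16 Q → NoLF Q → ∀ E : Set Q, MaxLaw E → P3 E

theorem lf_of_noD16 (hM : HMax.{u}) (hS : HS3b.{u}) (G : Type u) [Group G] (hG : NoD16 G)
    (D : Set G) (hD : DLaw D) : LF (closure D) := by
  refine lf_of_chain G ?_ D hD
  intro N _ hN E hE
  have hP := hM (G ⧸ N) (No16.quotient (k := 7) hG N) hN E hE
  exact trivial_of_P3 hN hE hP fun hcl => hS (G ⧸ N) E hE.law hP hcl

/-- the conjugates of a left 3-Engel involution form a `DLaw` set of the normal closure -/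
theorem dlaw_conjs {G : Type u} [Group G] {x : G} (hx : x * x = 1)
    (hE : ∀ g : G, cm (cm (cm g x) x) x = 1) : DLaw (insert 1 (conjs x)) := by
  refine ⟨Set.mem_insert _ _, ?_, ?_, ?_⟩
  · rintro y (rfl | hy)
    · exact mul_one 1
    · exact conjs_sq hx y hy
  · rintro n y (rfl | hy)
    · exact Or.inl (by group)
    · exact Or.inr (conjs_conj n y hy)
  · rintro y hy z hz
    apply four_of_pow
    rcases hy with rfl | hy
    · rcases hz with rfl | hz
      · simp
      · have h1 := conjs_sq hx z hz
        rw [one_mul]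
        have e : z ^ 4 = (z * z) * (z * z) := by simp only [pow_succ, pow_zero, one_mul, mul_assoc]
        rw [e, h1, mul_one]
    · rcases hz with rfl | hz
      · have h1 := conjs_sq hx y hy
        rw [mul_one]
        have e : y ^ 4 = (y * y) * (y * y) := by simp only [pow_succ, pow_zero, one_mul, mul_assoc]
        rw [e, h1, mul_one]
      · exact conjs_pow hx hE y hy z hz

/-- part (A+) -/
theorem partA_plus (hM : HMax.{u}) (hS : HS3b.{u}) (G : Type u) [Group G] {x : G} (hx : x * x = 1)
    (hE : ∀ g : G, cm (cm (cm g x) x) x = 1) (hN : NoD16 (normalClosure ({x} : Set G))) :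
    LocFin (normalClosure ({x} : Set G)) := by
  have h1 := lf_of_noD16 hM hS _ hN _ (dlaw_conjs hx hE)
  have h2 : closure (insert 1 (conjs x)) = ⊤ := by
    rw [eq_top_iff, ← closure_conjs x]
    exact closure_mono (Set.subset_insert _ _)
  rw [h2] at h1
  exact locFin_of_lf_top h1

/-- part (B+) -/
theorem partB_plus (hM : HMax.{u}) (hS : HS3b.{u}) (G : Type u) [Group G]
    (h2 : ∀ g : G, ∃ n : ℕ, g ^ (2 ^ n) = 1) (hG : NoD16 G) : LocFin G := by
  refine partB hS G h2 hG ?_
  intro R _ hR
  have hNS : NoD16 (G ⧸ R) := No16.quotient (k := 7) hG R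
  refine hM (G ⧸ R) hNS hR _ ⟨⟨mul_one 1, fun x hx => hx, ?_, ?_⟩, fun E hE _ x hx => hE.inv x hx⟩
  · intro g x hx
    show g * x * g⁻¹ * (g * x * g⁻¹) = 1
    have e : g * x * g⁻¹ * (g * x * g⁻¹) = g * (x * x) * g⁻¹ := by group
    have hx' : x * x = 1 := hx
    rw [e, hx']
    group
  · intro x hx y hy
    obtain ⟨g, hg⟩ := QuotientGroup.mk'_surjective R (x * y)
    obtain ⟨n, hn⟩ := h2 g
    exact four_of_pow (No16.invol (G := G ⧸ R) hNS hx hy n (by rw [← hg, ← map_pow, hn, map_one]))

end Pool.Agent.Helper94.SV.JPrime
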