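import Pool.Agent.Helper94.SV.Stage3
import Pool.Agent.Helper94.SV.Sec

/-!
# Groups without dihedral or semidihedral sections of order 16: the frame

Two facts are used as hypotheses: `HP3` (in a group without such sections every `DLaw` set satisfies
`(x y z)⁴ = 1`) and `HS3b` (in a closed `DLaw` set with `(x y z)⁴ = 1` all commutators are thin).
-/

set_option autoImplicit false

open Subgroup

namespace Pool.Agent.Helper94.SV.JPrime

open Pool.Agent.Helper94.SV.Frame Pool.Agent.Helper94.SV.Sec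
open Pool.Agent.Helper89.SV (P3)

universe u

def HP3 : Prop := ∀ (Q : Type u) [Group Q], NoD16 Q → NoSD16 Q → ∀ E : Set Q, DLaw E → P3 E

def HS3b : Prop := ∀ (Q : Type u) [Group Q] (E : Set Q), DLaw E → P3 E →
  (∀ a ∈ E, ∀ b ∈ E, c2 a b ∈ E) → ∀ a ∈ E, ∀ b ∈ E, Thin E (c2 a b)

/-- hereditary form: if `(x y z)⁴ = 1` on all `DLaw` sets of all quotients, then all `DLaw` sets of `G`
generate locally finite subgroups -/
theorem lf_of_P3h (hS : HS3b.{u}) (G : Type u) [Group G]
    (h : ∀ (N : Subgroup G) [N.Normal] (E : Set (G ⧸ N)), DLaw E → P3 E)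
    (D : Set G) (hD : DLaw D) : LF (closure D) := by
  refine lf_of_chain G ?_ D hD
  intro N _ hN E hE
  have hP := h N E hE.law
  exact trivial_of_P3 hN hE hP fun hcl => hS (G ⧸ N) E hE.law hP hcl

theorem lf_of_noSec (hP : HP3.{u}) (hS : HS3b.{u}) (G : Type u) [Group G] (hG : NoD16 G)
    (hG' : NoSD16 G) (D : Set G) (hD : DLaw D) : LF (closure D) :=
  lf_of_P3h hS G (fun N _ E hE => hP (G ⧸ N) (No16.quotient (k := 7) hG N)
    (No16.quotient (k := 3) hG' N) E hE) D hD

theorem locFin_of_lf_top {G : Type u} [Group G] (h : LF (⊤ : Subgroup G)) : LocFin G := by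
  intro H hH
  obtain ⟨S, hS⟩ := hH
  have h1 := h (S : Set G) S.finite_toSet (fun _ _ => Subgroup.mem_top _)
  rw [hS] at h1
  exact h1

/-- part (A) -/
theorem partA (hP : HP3.{u}) (hS : HS3b.{u}) (G : Type u) [Group G] {x : G} (hx : x * x = 1)
    (hE : ∀ g : G, cm (cm (cm g x) x) x = 1) (hN : NoD16 (normalClosure ({x} : Set G)))
    (hN' : NoSD16 (normalClosure ({x} : Set G))) : LocFin (normalClosure ({x} : Set G)) := by
  have hD : DLaw (insert 1 (conjs x)) := by
    refine ⟨Set.mem_insert _ _, ?_, ?_, ?_⟩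
    · rintro y (rfl | hy)
      · exact mul_one 1
      · exact conjs_sq hx y hy
    · rintro n y (rfl | hy)
      · exact Or.inl (by group)
      · exact Or.inr (conjs_conj n y hy)
    · rintro y hy z hz
      apply four_of_pow
      rcases hy with rfl | hy
      · rcases hz with rfl | hz
        · simp
        · have h1 := conjs_sq hx z hz
          rw [one_mul]
          have e : z ^ 4 = (z * z) * (z * z) := by simp only [pow_succ, pow_zero, one_mul, mul_assoc]
          rw [e, h1, mul_one]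
      · rcases hz with rfl | hz
        · have h1 := conjs_sq hx y hy
          rw [mul_one]
          have e : y ^ 4 = (y * y) * (y * y) := by simp only [pow_succ, pow_zero, one_mul, mul_assoc]
          rw [e, h1, mul_one]
        · exact conjs_pow hx hE y hy z hz
  have h1 := lf_of_noSec hP hS _ hN hN' _ hD
  have h2 : closure (insert 1 (conjs x)) = ⊤ := by
    rw [eq_top_iff, ← closure_conjs x]
    exact closure_mono (Set.subset_insert _ _)
  rw [h2] at h1
  exact locFin_of_lf_top h1

theorem exists_radical (G : Type u) [Group G] : ∃ R : Subgroup G, ∃ _ : R.Normal, LF R ∧ NoLF (G ⧸ R) := by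
  obtain ⟨R, hRn, hR, hRmax⟩ := exists_max_lf G
  refine ⟨R, hRn, hR, ?_⟩
  intro N hN hN2
  have h1 : N.comap (QuotientGroup.mk' R) ≤ R := by
    refine hRmax _ inferInstance (lf_comap R hR N hN2) ?_
    intro x hx
    rw [Subgroup.mem_comap]
    have h2 : QuotientGroup.mk' R x = 1 := (QuotientGroup.eq_one_iff x).mpr hx
    rw [h2]
    exact one_mem _
  rw [Subgroup.eq_bot_iff_forall]
  intro z hz
  obtain ⟨x, rfl⟩ := QuotientGroup.mk'_surjective R z
  exact (QuotientGroup.eq_one_iff x).mpr (h1 hz)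

/-- part (B): the reduction to `(x y z)⁴ = 1` for involutions -/
theorem partB (hS : HS3b.{u}) (G : Type u) [Group G] (h2 : ∀ g : G, ∃ n : ℕ, g ^ (2 ^ n) = 1)
    (hG : NoD16 G)
    (hP : ∀ (R : Subgroup G) [R.Normal], NoLF (G ⧸ R) → P3 {z : G ⧸ R | z * z = 1}) : LocFin G := by
  obtain ⟨R, hRn, hR, hQ⟩ := exists_radical G
  have hNS : No16 7 (G ⧸ R) := No16.quotient (k := 7) hG R
  have h2Q : ∀ q : G ⧸ R, ∃ n : ℕ, q ^ (2 ^ n) = 1 := by
    intro q
    obtain ⟨g, rfl⟩ := QuotientGroup.mk'_surjective R q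
    obtain ⟨n, hn⟩ := h2 g
    exact ⟨n, by rw [← map_pow, hn, map_one]⟩
  have hD : MaxLaw {z : G ⧸ R | z * z = 1} := by
    refine ⟨⟨mul_one 1, fun x hx => hx, ?_, ?_⟩, ?_⟩
    · intro g x hx
      show g * x * g⁻¹ * (g * x * g⁻¹) = 1
      have e : g * x * g⁻¹ * (g * x * g⁻¹) = g * (x * x) * g⁻¹ := by group
      have hx' : x * x = 1 := hx
      rw [e, hx']
      group
    · intro x hx y hy
      obtain ⟨n, hn⟩ := h2Q (x * y)
      exact four_of_pow (hNS.invol hx hy n hn)
    · intro E hE _ x hx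
      exact hE.inv x hx
  have hP3 := hP R hQ
  have htriv := trivial_of_P3 hQ hD hP3 fun hcl => hS (G ⧸ R) _ hD.law hP3 hcl
  have hone : ∀ (n : ℕ) (q : G ⧸ R), q ^ (2 ^ n) = 1 → q = 1 := by
    intro n
    induction n with
    | zero =>
      intro q hq
      simpa using hq
    | succ n ih =>
      intro q hq
      apply ih
      apply htriv
      show q ^ 2 ^ n * q ^ 2 ^ n = 1
      rw [← pow_add, ← two_mul, ← pow_succ']
      exact hq
  apply locFin_of_lf_top
  refine hR.mono ?_
  intro g _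
  obtain ⟨n, hn⟩ := h2Q (QuotientGroup.mk' R g)
  exact (QuotientGroup.eq_one_iff g).mp (hone n _ hn)

/-- part (B) with both section conditions -/
theorem partB' (hP : HP3.{u}) (hS : HS3b.{u}) (G : Type u) [Group G]
    (h2 : ∀ g : G, ∃ n : ℕ, g ^ (2 ^ n) = 1) (hG : NoD16 G) (hG' : NoSD16 G) : LocFin G := by
  refine partB hS G h2 hG ?_
  intro R _ _
  refine hP (G ⧸ R) (No16.quotient (k := 7) hG R) (No16.quotient (k := 3) hG' R) _
    ⟨mul_one 1, fun x hx => hx, ?_, ?_⟩
  · intro g x hx
    show g * x * g⁻¹ * (g * x * g⁻¹) = 1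
    have e : g * x * g⁻¹ * (g * x * g⁻¹) = g * (x * x) * g⁻¹ := by group
    have hx' : x * x = 1 := hx
    rw [e, hx']
    group
  · intro x hx y hy
    obtain ⟨g, hg⟩ := QuotientGroup.mk'_surjective R (x * y)
    obtain ⟨n, hn⟩ := h2 g
    exact four_of_pow ((No16.quotient (k := 7) hG R).invol hx hy n (by rw [← hg, ← map_pow, hn, map_one]))

end Pool.Agent.Helper94.SV.JPrime
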