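import Pool.Agent.Helper94.SV.BS

/-!
# Normal closures of left 3-Engel involutions: local finiteness relative to a normal subgroup
-/

set_option autoImplicit false

open Subgroup

namespace Pool.Agent.Helper94.SV

universe u v

/-- Every finitely generated subgroup is finite. -/
def LocFin (G : Type u) [Group G] : Prop := ∀ H : Subgroup G, H.FG → Finite H

section general

variable {G : Type u} [Group G] {P : Type v} [Group P] {π : G →* P} {D : Set G}

theorem exists_finset_of_mem_closure {g : G} (hg : g ∈ closure D) :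
    ∃ T : Finset G, (T : Set G) ⊆ D ∧ g ∈ closure (T : Set G) := by
  classical
  induction hg using closure_induction with
  | mem y hy => exact ⟨{y}, by simpa using hy, subset_closure (by simp)⟩
  | one => exact ⟨∅, by simp, one_mem _⟩
  | mul a b _ _ iha ihb =>
    obtain ⟨T, hT, haT⟩ := iha
    obtain ⟨T', hT', hbT'⟩ := ihb
    refine ⟨T ∪ T', by rw [Finset.coe_union]; exact Set.union_subset hT hT', ?_⟩
    rw [Finset.coe_union]
    exact mul_mem (closure_mono Set.subset_union_left haT) (closure_mono Set.subset_union_right hbT')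
  | inv a _ iha =>
    obtain ⟨T, hT, haT⟩ := iha
    exact ⟨T, hT, inv_mem haT⟩

theorem exists_finset_of_finset (S : Finset G) (hS : (S : Set G) ⊆ closure D) :
    ∃ T : Finset G, (T : Set G) ⊆ D ∧ (S : Set G) ⊆ closure (T : Set G) := by
  classical
  induction S using Finset.induction with
  | empty => exact ⟨∅, by simp, by simp⟩
  | insert a S _ ih =>
    rw [Finset.coe_insert, Set.insert_subset_iff] at hS
    obtain ⟨T, hT, hST⟩ := ih hS.2
    obtain ⟨T', hT', haT'⟩ := exists_finset_of_mem_closure hS.1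
    refine ⟨T ∪ T', by rw [Finset.coe_union]; exact Set.union_subset hT hT', ?_⟩
    rw [Finset.coe_insert, Set.insert_subset_iff, Finset.coe_union]
    exact ⟨closure_mono Set.subset_union_right haT',
      hST.trans (closure_mono Set.subset_union_left)⟩

theorem locFin_of_base (hDc : ∀ g : G, ∀ d ∈ D, g * d * g⁻¹ ∈ D) (hD2 : ∀ d ∈ D, d * d = 1)
    (hD4 : ∀ a ∈ D, ∀ b ∈ D, (a * b) ^ 4 = 1) (hgen : closure D = ⊤)
    (hP : ∀ S : Subgroup P, S.FG → (S : Set P).Finite ∧ IsPGroup 2 S)
    (hbase : ∀ K : Subgroup G, (K : Set G).Finite → K ≤ π.ker → ∀ b ∈ D,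
      ((K ⊔ closure {b} : Subgroup G) : Set G).Finite) : LocFin G := by
  classical
  have key : ∀ T : Finset G, (T : Set G) ⊆ D →
      ((closure (T : Set G) : Subgroup G) : Set G).Finite ∧ Good π D (closure (T : Set G)) := by
    intro T
    induction T using Finset.induction with
    | empty =>
      intro _
      rw [Finset.coe_empty, Subgroup.closure_empty]
      exact ⟨by simp, bot_le⟩
    | insert d T _ ih =>
      intro hT
      rw [Finset.coe_insert, Set.insert_subset_iff] at hT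
      obtain ⟨h1, h2⟩ := ih hT.2
      have h3 : closure ((insert d T : Finset G) : Set G) = closure (T : Set G) ⊔ closure {d} := by
        rw [Finset.coe_insert, Set.insert_eq, Subgroup.closure_union, sup_comm]
      rw [h3]
      exact ⟨claim hDc hD2 hD4 hP hbase _ _ _ h1 h2 d hT.1 le_rfl le_rfl, h2.sup hT.1⟩
  intro H hH
  obtain ⟨S, rfl⟩ := hH
  obtain ⟨T, hT, hST⟩ := exists_finset_of_finset (D := D) S (by rw [hgen]; exact fun _ _ => trivial)
  have h1 : closure (S : Set G) ≤ closure (T : Set G) := by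
    rw [closure_le]; exact hST
  exact (key T hT).1.subset h1

/-- A locally finite group generated by such a set of involutions is a 2-group. -/
theorem isPGroup_of_locFin (hDc : ∀ g : G, ∀ d ∈ D, g * d * g⁻¹ ∈ D)
    (hD2 : ∀ d ∈ D, d * d = 1) (hD4 : ∀ a ∈ D, ∀ b ∈ D, (a * b) ^ 4 = 1) (hgen : closure D = ⊤)
    (hG : LocFin G) : IsPGroup 2 G := by
  intro g
  obtain ⟨T, hT, hgT⟩ := exists_finset_of_mem_closure (D := D) (g := g) (by rw [hgen]; trivial)
  have hfin : Finite (closure (T : Set G)) := hG _ ⟨T, rfl⟩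
  have h2 : IsPGroup 2 (closure (T : Set G)) := by
    refine isPGroup_of_involutions (D := {d | (d : G) ∈ D}) ?_ ?_ ?_ ?_
    · intro h d hd
      exact hDc h d hd
    · intro d hd
      exact Subtype.ext (hD2 d hd)
    · intro a ha b hb
      exact Subtype.ext (hD4 a ha b hb)
    · rw [eq_top_iff, ← closure_closure_coe_preimage (k := (T : Set G))]
      exact closure_mono (fun d hd => hT hd)
  obtain ⟨k, hk⟩ := h2 ⟨g, hgT⟩
  refine ⟨k, ?_⟩
  have := congrArg Subtype.val hk
  simpa using this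

/-- Sanov's flips on the kernel suffice. -/
theorem base_of_flips (hD2 : ∀ d ∈ D, d * d = 1)
    (hflip : ∀ d ∈ D, ∀ h ∈ π.ker, (d * h) ^ 4 = 1) :
    ∀ K : Subgroup G, (K : Set G).Finite → K ≤ π.ker → ∀ b ∈ D,
      ((K ⊔ closure {b} : Subgroup G) : Set G).Finite := by
  intro K hK hKk b hb
  exact sanov_lemma hK (by rw [hD2 b hb]; exact one_mem _) (fun h hh => hflip b hb h (hKk hh))

end general

/-! ### Left 3-Engel involutions -/

/-- The commutator `[a, b] = a⁻¹ b⁻¹ a b`. -/
def cm {G : Type u} [Group G] (a b : G) : G := a⁻¹ * b⁻¹ * a * b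

section engel

variable {G : Type u} [Group G]

theorem pow_four_of_engel {x : G} (hx : x * x = 1) (hE : ∀ g : G, cm (cm (cm g x) x) x = 1)
    (g : G) : (x * (g * x * g⁻¹)) ^ 4 = 1 := by
  have hxi : x⁻¹ = x := inv_eq_of_mul_eq_one_right hx
  have h1 := hE g⁻¹
  set y : G := g * x * g⁻¹ with hy
  have hyy : y * y = 1 := by
    calc y * y = g * (x * x) * g⁻¹ := by rw [hy]; group
      _ = 1 := by rw [hx]; group
  have hyi : y⁻¹ = y := inv_eq_of_mul_eq_one_right hyy
  have h2 : cm g⁻¹ x = y * x := by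
    rw [cm, inv_inv, hxi, hy]
  have h3 : cm (y * x) x = x * y * x * y := by
    rw [cm, mul_inv_rev, hxi, hyi]
    calc x * y * x * (y * x) * x = x * y * x * y * (x * x) := by group
      _ = _ := by rw [hx, mul_one]
  have h4 : cm (x * y * x * y) x = (y * x) ^ 4 := by
    rw [cm]
    simp only [mul_inv_rev, hxi, hyi]
    calc y * (x * (y * x)) * x * (x * y * x * y) * x
        = y * x * y * (x * x) * (x * y * x * y) * x := by group
      _ = (y * x) ^ 4 := by rw [hx, mul_one]; simp only [pow_succ, pow_zero, one_mul, mul_assoc]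
  rw [h2, h3, h4] at h1
  have h5 : (x * y) ^ 4 = ((y * x) ^ 4)⁻¹ := by
    rw [← inv_pow, mul_inv_rev, hxi, hyi]
  rw [h5, h1, inv_one]

/-- The conjugates of `x` as elements of the normal closure of `x`. -/
def conjs (x : G) : Set (normalClosure ({x} : Set G)) := {y | ∃ g : G, (y : G) = g * x * g⁻¹}

theorem conjs_conj {x : G} (n : normalClosure ({x} : Set G)) (d : normalClosure ({x} : Set G))
    (hd : d ∈ conjs x) : n * d * n⁻¹ ∈ conjs x := by
  obtain ⟨g, hg⟩ := hd
  refine ⟨n * g, ?_⟩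
  simp only [Subgroup.coe_mul, InvMemClass.coe_inv, hg]
  group

theorem conjs_sq {x : G} (hx : x * x = 1) (d : normalClosure ({x} : Set G)) (hd : d ∈ conjs x) :
    d * d = 1 := by
  obtain ⟨g, hg⟩ := hd
  apply Subtype.ext
  rw [Subgroup.coe_mul, hg, Subgroup.coe_one]
  calc g * x * g⁻¹ * (g * x * g⁻¹) = g * (x * x) * g⁻¹ := by group
    _ = 1 := by rw [hx]; group

theorem conjs_pow {x : G} (hx : x * x = 1) (hE : ∀ g : G, cm (cm (cm g x) x) x = 1)
    (a : normalClosure ({x} : Set G)) (ha : a ∈ conjs x) (b : normalClosure ({x} : Set G))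
    (hb : b ∈ conjs x) : (a * b) ^ 4 = 1 := by
  obtain ⟨g, hg⟩ := ha
  obtain ⟨k, hk⟩ := hb
  apply Subtype.ext
  rw [SubmonoidClass.coe_pow, Subgroup.coe_mul, hg, hk, Subgroup.coe_one]
  have h1 := pow_four_of_engel hx hE (g⁻¹ * k)
  have h2 : g * x * g⁻¹ * (k * x * k⁻¹) = g * (x * (g⁻¹ * k * x * (g⁻¹ * k)⁻¹)) * g⁻¹ := by group
  rw [h2, conj_pow, h1]
  group

theorem closure_conjs (x : G) : closure (conjs x) = ⊤ := by
  have h1 : conjs x = ((↑) : normalClosure ({x} : Set G) → G) ⁻¹' (Group.conjugatesOfSet {x}) := by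
    ext y
    simp only [conjs, Set.mem_ofPred_eq, Set.mem_preimage, Group.mem_conjugatesOfSet_iff,
      Set.mem_singleton_iff, exists_eq_left, isConj_iff]
    exact ⟨fun ⟨g, hg⟩ => ⟨g, hg.symm⟩, fun ⟨g, hg⟩ => ⟨g, hg.symm⟩⟩
  rw [h1]
  exact closure_closure_coe_preimage

/-- The reduction in a quotient `N / F'` of the normal closure `N` of a left 3-Engel involution. -/
theorem locFin_quotient {x : G} (hx : x * x = 1) (hE : ∀ g : G, cm (cm (cm g x) x) x = 1)
    (F F' : Subgroup (normalClosure ({x} : Set G))) [F.Normal] [F'.Normal] (hle : F' ≤ F)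
    (hF : LocFin (normalClosure ({x} : Set G) ⧸ F))
    (hbase : ∀ K : Subgroup (normalClosure ({x} : Set G) ⧸ F'), Finite K →
      K ≤ F.map (QuotientGroup.mk' F') → ∀ y ∈ conjs x,
      Finite (K ⊔ closure {QuotientGroup.mk' F' y} :
        Subgroup (normalClosure ({x} : Set G) ⧸ F'))) :
    LocFin (normalClosure ({x} : Set G) ⧸ F') := by
  let π : normalClosure ({x} : Set G) ⧸ F' →* normalClosure ({x} : Set G) ⧸ F :=
    QuotientGroup.map F' F (MonoidHom.id _) hle
  have hconj : ∀ (L : Subgroup (normalClosure ({x} : Set G))) [L.Normal],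
      (∀ g : normalClosure ({x} : Set G) ⧸ L, ∀ d ∈ QuotientGroup.mk' L '' conjs x,
        g * d * g⁻¹ ∈ QuotientGroup.mk' L '' conjs x) ∧
      (∀ d ∈ QuotientGroup.mk' L '' conjs x, d * d = 1) ∧
      (∀ a ∈ QuotientGroup.mk' L '' conjs x, ∀ b ∈ QuotientGroup.mk' L '' conjs x,
        (a * b) ^ 4 = 1) ∧ closure (QuotientGroup.mk' L '' conjs x) = ⊤ := by
    intro L _
    refine ⟨?_, ?_, ?_, ?_⟩
    · rintro g _ ⟨d, hd, rfl⟩
      obtain ⟨n, rfl⟩ := QuotientGroup.mk'_surjective L g
      exact ⟨n * d * n⁻¹, conjs_conj n d hd, by rw [map_mul, map_mul, map_inv]⟩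
    · rintro _ ⟨d, hd, rfl⟩
      rw [← map_mul, conjs_sq hx d hd, map_one]
    · rintro _ ⟨a, ha, rfl⟩ _ ⟨b, hb, rfl⟩
      rw [← map_mul, ← map_pow, conjs_pow hx hE a ha b hb, map_one]
    · rw [← MonoidHom.map_closure, closure_conjs, ← MonoidHom.range_eq_map,
        MonoidHom.range_eq_top.2 (QuotientGroup.mk'_surjective L)]
  obtain ⟨h1, h2, h3, h4⟩ := hconj F'
  obtain ⟨k1, k2, k3, k4⟩ := hconj F
  have hF2 : IsPGroup 2 (normalClosure ({x} : Set G) ⧸ F) := isPGroup_of_locFin k1 k2 k3 k4 hF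
  refine locFin_of_base (π := π) h1 h2 h3 h4 (fun S hS => ⟨hF S hS, hF2.to_subgroup S⟩) ?_
  rintro K hK hKπ _ ⟨y, hy, rfl⟩
  refine hbase K hK ?_ y hy
  intro k hk
  obtain ⟨n, rfl⟩ := QuotientGroup.mk'_surjective F' k
  refine ⟨n, ?_, rfl⟩
  have h5 : π (QuotientGroup.mk' F' n) = 1 := hKπ hk
  have h6 : π (QuotientGroup.mk' F' n) = QuotientGroup.mk' F n := rfl
  rw [h6] at h5
  exact (QuotientGroup.eq_one_iff n).1 h5

theorem base_of_locFin {A : Type u} [Group A] (h : LocFin A) (K : Subgroup A) (hK : Finite K)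
    (y : A) : Finite (K ⊔ closure {y} : Subgroup A) := by
  refine h _ ?_
  rw [Subgroup.fg_iff]
  have hK' : (K : Set A).Finite := hK
  refine ⟨(K : Set A) ∪ {y}, ?_, hK'.union (Set.finite_singleton _)⟩
  rw [Subgroup.closure_union, Subgroup.closure_eq]

theorem locFin_quotient_of_flips {x : G} (hx : x * x = 1)
    (hE : ∀ g : G, cm (cm (cm g x) x) x = 1)
    (F F' : Subgroup (normalClosure ({x} : Set G))) [F.Normal] [F'.Normal] (hle : F' ≤ F)
    (hF : LocFin (normalClosure ({x} : Set G) ⧸ F))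
    (hflip : ∀ y ∈ conjs x, ∀ h ∈ F, (y * h) ^ 4 ∈ F') :
    LocFin (normalClosure ({x} : Set G) ⧸ F') := by
  refine locFin_quotient hx hE F F' hle hF ?_
  intro K hK hKF y hy
  refine sanov_lemma (K := K) hK ?_ ?_
  · rw [← map_mul, conjs_sq hx y hy, map_one]
    exact one_mem _
  · intro h hh
    obtain ⟨n, hn, rfl⟩ := hKF hh
    rw [← map_mul, ← map_pow]
    exact (QuotientGroup.eq_one_iff _).2 (hflip y hy n hn)

end engel

end Pool.Agent.Helper94.SV
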