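import Pool.Agent.Helper39.HT.Main
import Pool.Agent.Helper94.SV.Main

/-!
# Reduction of the local finiteness of `⟨x^G⟩` to two identities (TH-V, helper45, helper88)

`cm x y = (x y)²`; `DLaw D`: `D` is a normal set of involutions (and `1`) with `(x y)⁴ = 1` for `x, y ∈ D`.

* I2: `[v^d, v^e] = 1` for `v = v(a,b,c) = [[a,b],c]²`, `a, b, c, d, e ∈ D`;
* J2: if all `v(a,b,c)` are trivial, then `[w^d, w^e] = 1` for `w = w(a,b,c) = [a^b, a^c]`.

If both hold in all quotients of `G` then `⟨D⟩` is locally finite.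
-/

set_option autoImplicit false

open Subgroup

namespace Pool.Agent.Helper94.SV.Frame

open Pool.Agent.Helper39.HT (Strong ht)

universe u

/-- the commutator `(x y)²` of two involutions -/
abbrev c2 {G : Type u} [Group G] (x y : G) : G := Pool.Agent.Helper39.HT.cm x y

/-- a normal set of involutions (and `1`) with `(x y)⁴ = 1` -/
structure DLaw {G : Type u} [Group G] (D : Set G) : Prop where
  one : (1 : G) ∈ D
  inv : ∀ x ∈ D, x * x = 1
  conj : ∀ g : G, ∀ x ∈ D, g * x * g⁻¹ ∈ D
  four : ∀ x ∈ D, ∀ y ∈ D, c2 x y * c2 x y = 1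

/-- `v(a,b,c) = [[a,b],c]²` -/
def vv {G : Type u} [Group G] (a b c : G) : G := c2 (c2 a b * c * c2 a b) c

/-- `w(a,b,c) = [a^b, a^c]` -/
def ww {G : Type u} [Group G] (a b c : G) : G := c2 (b * a * b) (c * a * c)

/-- finite subsets of `N` generate finite groups -/
def LF {G : Type u} [Group G] (N : Subgroup G) : Prop :=
  ∀ S : Set G, S.Finite → S ⊆ N → Finite (closure S)

section basic

variable {G : Type u} [Group G]

theorem c2_def (x y : G) : c2 x y = x * y * (x * y) := rfl

theorem canc {x : G} (hx : x * x = 1) (w : G) : x * (x * w) = w := by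
  rw [← mul_assoc, hx, one_mul]

/-- `(x y)⁴ = 1` if and only if `x` commutes with `x^y` -/
theorem comm_of_four {x y : G} (hx : x * x = 1) (hy : y * y = 1) (h : c2 x y * c2 x y = 1) :
    Commute x (y * x * y) := by
  have h1 : x * (y * x * y) = c2 x y := by simp only [c2_def, mul_assoc]
  have h2 : (y * x * y) * x * c2 x y = 1 := by
    simp only [c2_def, mul_assoc, canc hx, canc hy, hy]
  show x * (y * x * y) = (y * x * y) * x
  calc x * (y * x * y) = c2 x y := h1
    _ = ((y * x * y) * x * c2 x y) * c2 x y := by rw [h2, one_mul]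
    _ = (y * x * y) * x * (c2 x y * c2 x y) := by simp only [mul_assoc]
    _ = (y * x * y) * x := by rw [h, mul_one]

theorem four_of_comm {x y : G} (hx : x * x = 1) (hy : y * y = 1) (h : Commute x (y * x * y)) :
    c2 x y * c2 x y = 1 := by
  have h1 : c2 x y = x * (y * x * y) := by simp only [c2_def, mul_assoc]
  have h2 : c2 x y = (y * x * y) * x := by rw [h1]; exact h
  calc c2 x y * c2 x y = ((y * x * y) * x) * (x * (y * x * y)) := by rw [← h1, ← h2]
    _ = 1 := by simp only [mul_assoc, canc hx, canc hy, hy]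

theorem conj_sq {x y : G} (hx : x * x = 1) (hy : y * y = 1) : (y * x * y) * (y * x * y) = 1 := by
  simp only [mul_assoc, canc hy]
  rw [← mul_assoc x x, hx, one_mul, hy]

theorem inv_eq {x : G} (hx : x * x = 1) : x⁻¹ = x := inv_eq_of_mul_eq_one_right hx

theorem DLaw.conj' {D : Set G} (h : DLaw D) {x y : G} (hx : x ∈ D) (hy : y * y = 1) :
    y * x * y ∈ D := by
  have h1 := h.conj y x hx
  rwa [inv_eq hy] at h1

theorem map_c2 {K : Type u} [Group K] (f : G →* K) (x y : G) : f (c2 x y) = c2 (f x) (f y) := by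
  simp only [c2_def, map_mul]

theorem conj_c2 (g x y : G) : g * c2 x y * g⁻¹ = c2 (g * x * g⁻¹) (g * y * g⁻¹) := by
  simp only [c2_def]
  group

theorem DLaw.image {K : Type u} [Group K] (f : G →* K) (hf : Function.Surjective f) {D : Set G}
    (h : DLaw D) : DLaw (f '' D) := by
  refine ⟨⟨1, h.one, map_one f⟩, ?_, ?_, ?_⟩
  · rintro _ ⟨x, hx, rfl⟩
    rw [← map_mul, h.inv x hx, map_one]
  · rintro g _ ⟨x, hx, rfl⟩
    obtain ⟨k, rfl⟩ := hf g
    exact ⟨k * x * k⁻¹, h.conj k x hx, by simp only [map_mul, map_inv]⟩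
  · rintro _ ⟨x, hx, rfl⟩ _ ⟨y, hy, rfl⟩
    rw [← map_c2, ← map_mul, h.four x hx y hy, map_one]

/-- a DLaw set is contained in a maximal one -/
theorem exists_max {D : Set G} (h : DLaw D) :
    ∃ E : Set G, D ⊆ E ∧ DLaw E ∧ ∀ E' : Set G, DLaw E' → E ⊆ E' → E' ⊆ E := by
  obtain ⟨E, hDE, hE⟩ := zorn_subset_nonempty {E : Set G | DLaw E} (fun c hc hch hne => by
    obtain ⟨E₀, hE₀⟩ := hne
    refine ⟨⋃₀ c, ⟨⟨E₀, hE₀, (hc hE₀).one⟩, ?_, ?_, ?_⟩, fun s hs => Set.subset_sUnion_of_mem hs⟩
    · rintro x ⟨s, hs, hx⟩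
      exact (hc hs).inv x hx
    · rintro g x ⟨s, hs, hx⟩
      exact ⟨s, hs, (hc hs).conj g x hx⟩
    · rintro x ⟨s, hs, hx⟩ y ⟨t, ht, hy⟩
      rcases hch.total hs ht with hst | hst
      · exact (hc ht).four x (hst hx) y hy
      · exact (hc hs).four x hx y (hst hy)) D h
  exact ⟨E, hDE, hE.prop, fun E' hE' hle => hE.le_of_ge hE' hle⟩

/-- the heart of the reduction: a normal set `W` of commutators `[p,q]`, `p, q ∈ D`, with
`[w^d, w^e] = 1` lies in the maximal `D` and is strong -/
theorem absorb {D W : Set G} (hD : DLaw D)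
    (hmax : ∀ E : Set G, DLaw E → D ⊆ E → E ⊆ D) (h1 : (1 : G) ∈ W)
    (hW : ∀ w ∈ W, ∃ p ∈ D, ∃ q ∈ D, w = c2 p q) (hWc : ∀ g : G, ∀ w ∈ W, g * w * g⁻¹ ∈ W)
    (hI : ∀ w ∈ W, ∀ d ∈ D, ∀ e ∈ D, Commute (d * w * d) (e * w * e)) : Strong W := by
  have hW2 : ∀ w ∈ W, w * w = 1 := by
    intro w hw
    obtain ⟨p, hp, q, hq, rfl⟩ := hW w hw
    exact hD.four p hp q hq
  -- `w` commutes with `d e w e d`
  have hde : ∀ w ∈ W, ∀ d ∈ D, ∀ e ∈ D, Commute w (d * (e * w * e) * d) := by
    intro w hw d hd e he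
    have hdd := hD.inv d hd
    have h2 : d * w * d * (e * w * e) = e * w * e * (d * w * d) := hI w hw d hd e he
    show w * (d * (e * w * e) * d) = d * (e * w * e) * d * w
    calc w * (d * (e * w * e) * d) = d * (d * w * d * (e * w * e)) * d := by
          simp only [mul_assoc, canc hdd]
      _ = d * (e * w * e * (d * w * d)) * d := by rw [h2]
      _ = d * (e * w * e) * d * w := by simp only [mul_assoc, hdd, mul_one]
  -- `w` commutes with its second factor
  have hfix : ∀ w ∈ W, ∃ q ∈ D, q * w * q = w := by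
    intro w hw
    obtain ⟨p, hp, q, hq, rfl⟩ := hW w hw
    refine ⟨q, hq, ?_⟩
    have hpp := hD.inv p hp
    have hqq := hD.inv q hq
    have h2 : q * c2 p q * q * c2 p q = 1 := by
      simp only [c2_def, mul_assoc, canc hpp, canc hqq, hqq, one_mul, mul_one]
    have h3 := hD.four p hp q hq
    calc q * c2 p q * q = q * c2 p q * q * (c2 p q * c2 p q) := by rw [h3, mul_one]
      _ = (q * c2 p q * q * c2 p q) * c2 p q := by simp only [mul_assoc]
      _ = c2 p q := by rw [h2, one_mul]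
  have hd1 : ∀ w ∈ W, ∀ d ∈ D, Commute w (d * w * d) := by
    intro w hw d hd
    obtain ⟨q, hq, hqw⟩ := hfix w hw
    have h2 := hI w hw q hq d hd
    rwa [hqw] at h2
  have hww : ∀ w ∈ W, ∀ w' ∈ W, Commute w (w' * w * w') := by
    intro w hw w' hw'
    obtain ⟨p, hp, q, hq, hpq⟩ := hW w' hw'
    have hpp := hD.inv p hp
    have hqq := hD.inv q hq
    have hy : q * p * q ∈ D := hD.conj' hp hqq
    have h2 := hde w hw p hp _ hy
    have h3 : w' = p * (q * p * q) := by rw [hpq]; simp only [c2_def, mul_assoc]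
    have h4 : w' = (q * p * q) * p := by
      have h5 : w' * w' = 1 := hW2 w' hw'
      calc w' = w' * w' * w'⁻¹ := by group
        _ = w'⁻¹ := by rw [h5, one_mul]
        _ = (q * p * q) * p := by
          rw [h3, mul_inv_rev, inv_eq hpp, inv_eq (conj_sq hpp hqq)]
    have h6 : w' * w * w' = p * ((q * p * q) * w * (q * p * q)) * p := by
      calc w' * w * w' = (p * (q * p * q)) * w * ((q * p * q) * p) := by rw [← h3, ← h4]
        _ = _ := by simp only [mul_assoc]
    rw [h6]
    exact h2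
  have hunion : DLaw (D ∪ W) := by
    refine ⟨Or.inl hD.one, ?_, ?_, ?_⟩
    · rintro x (hx | hx)
      · exact hD.inv x hx
      · exact hW2 x hx
    · rintro g x (hx | hx)
      · exact Or.inl (hD.conj g x hx)
      · exact Or.inr (hWc g x hx)
    · rintro x (hx | hx) y (hy | hy)
      · exact hD.four x hx y hy
      · have hxx := hD.inv x hx
        have h2 := four_of_comm (hW2 y hy) hxx (hd1 y hy x hx)
        have h3 : c2 x y = x * c2 y x * x := by
          simp only [c2_def, mul_assoc, hxx, mul_one]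
        calc c2 x y * c2 x y = x * (c2 y x * c2 y x) * x := by
              rw [h3]
              simp only [mul_assoc, canc hxx]
          _ = 1 := by rw [h2, mul_one, hxx]
      · exact four_of_comm (hW2 x hx) (hD.inv y hy) (hd1 x hx y hy)
      · exact four_of_comm (hW2 x hx) (hW2 y hy) (hww x hx y hy)
  have hWD : W ⊆ D := fun w hw => hmax _ hunion Set.subset_union_left (Or.inr hw)
  refine ⟨h1, hW2, hWc, fun x hx y hy => hD.four x (hWD hx) y (hWD hy), ?_⟩
  intro x hx y hy z hz
  have e1 : c2 x y = x * (y * x * y) := by simp only [c2_def, mul_assoc]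
  have e2 : c2 x z = x * (z * x * z) := by simp only [c2_def, mul_assoc]
  show Commute (c2 x y) (c2 x z)
  rw [e1, e2]
  have a1 := hd1 x hx y (hWD hy)
  have a2 := hd1 x hx z (hWD hz)
  have a3 := hI x hx y (hWD hy) z (hWD hz)
  exact ((Commute.refl x).mul_right a2).mul_left (a1.symm.mul_right a3)

/-- the subgroup generated by a strong set is locally finite -/
theorem lf_closure {D : Set G} (hD : Strong D) : LF (closure D) := by
  classical
  intro S hS hSD
  obtain ⟨T, hT, hST⟩ := exists_finset_of_finset (D := D) hS.toFinset (by simpa using hSD)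
  have h1 := ht D hD T T.finite_toSet hT
  have h2 : closure S ≤ closure (T : Set G) := by
    rw [closure_le]
    simpa using hST
  exact Finite.of_injective (Subgroup.inclusion h2) (Subgroup.inclusion_injective h2)

theorem LF.mono {M N : Subgroup G} (hN : LF N) (h : M ≤ N) : LF M :=
  fun S hS hSM => hN S hS (hSM.trans h)

/-- a maximal normal locally finite subgroup -/
theorem exists_max_lf (G : Type u) [Group G] : ∃ R : Subgroup G, R.Normal ∧ LF R ∧
    ∀ N : Subgroup G, N.Normal → LF N → R ≤ N → N ≤ R := by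
  have hchain : ∀ c ⊆ {N : Subgroup G | N.Normal ∧ LF N}, IsChain (· ≤ ·) c → ∀ y ∈ c,
      ∃ ub ∈ {N : Subgroup G | N.Normal ∧ LF N}, ∀ z ∈ c, z ≤ ub := by
    intro c hc hch y hy
    have hmem : ∀ x, x ∈ sSup c ↔ ∃ s ∈ c, x ∈ s := fun x =>
      Subgroup.mem_sSup_of_directedOn ⟨y, hy⟩ hch.directedOn
    refine ⟨sSup c, ⟨⟨fun n hn g => ?_⟩, ?_⟩, fun z hz => le_sSup hz⟩
    · rw [hmem] at hn ⊢
      obtain ⟨s, hs, hns⟩ := hn
      exact ⟨s, hs, (hc hs).1.conj_mem n hns g⟩
    · intro S hS hSc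
      have key : ∀ T' : Finset G, (∀ t ∈ T', t ∈ sSup c) → ∃ s ∈ c, ∀ t ∈ T', t ∈ s := by
        classical
        intro T'
        induction T' using Finset.induction_on with
        | empty => exact fun _ => ⟨y, hy, by simp⟩
        | insert t T' _ ih =>
          intro hall
          obtain ⟨s, hs, hs'⟩ := ih fun t ht => hall t (Finset.mem_insert_of_mem ht)
          obtain ⟨r, hr, hr'⟩ := (hmem t).mp (hall t (Finset.mem_insert_self _ _))
          rcases hch.total hs hr with h | h
          · refine ⟨r, hr, fun u hu => ?_⟩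
            rcases Finset.mem_insert.mp hu with rfl | hu
            · exact hr'
            · exact h (hs' u hu)
          · refine ⟨s, hs, fun u hu => ?_⟩
            rcases Finset.mem_insert.mp hu with rfl | hu
            · exact h hr'
            · exact hs' u hu
      obtain ⟨s, hs, hs'⟩ := key hS.toFinset fun t ht => hSc (by simpa using ht)
      exact (hc hs).2 S hS fun t ht => hs' t (by simpa using ht)
  have hbot : (⊥ : Subgroup G) ∈ {N : Subgroup G | N.Normal ∧ LF N} := by
    refine ⟨inferInstance, fun S _ hSb => ?_⟩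
    have h1 : closure S = ⊥ := by
      rw [closure_eq_bot_iff]
      exact fun x hx => by simpa using hSb hx
    rw [h1]
    infer_instance
  obtain ⟨R, -, hR⟩ := zorn_le_nonempty₀ _ hchain ⊥ hbot
  exact ⟨R, hR.prop.1, hR.prop.2, fun N hN hN2 hle => hR.le_of_ge ⟨hN, hN2⟩ hle⟩

/-- extensions of locally finite groups -/
theorem lf_comap (R : Subgroup G) [R.Normal] (hR : LF R) (N : Subgroup (G ⧸ R)) (hN : LF N) :
    LF (N.comap (QuotientGroup.mk' R)) := by
  intro S hS hSN
  have hfg : Group.FG (closure S) := (Group.fg_iff_subgroup_fg _).mpr ⟨hS.toFinset, by simp⟩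
  set φ : closure S →* G ⧸ R := (QuotientGroup.mk' R).comp (closure S).subtype with hφ
  have hran : φ.range = closure (QuotientGroup.mk' R '' S) := by
    rw [hφ, MonoidHom.range_comp, Subgroup.range_subtype, MonoidHom.map_closure]
  have hfin : Finite φ.range := by
    rw [hran]
    refine hN _ (hS.image _) ?_
    rintro _ ⟨x, hx, rfl⟩
    exact hSN hx
  have hidx : φ.ker.index ≠ 0 := by
    rw [Subgroup.index_ker]
    exact Nat.card_pos.ne'
  have hfi : φ.ker.FiniteIndex := ⟨hidx⟩
  have hkfg : φ.ker.FG := (Group.fg_iff_subgroup_fg _).mp (Subgroup.fg_of_index_ne_zero φ.ker)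
  obtain ⟨T, hT⟩ := hkfg
  have hTfin : Finite (closure ((closure S).subtype '' (T : Set (closure S)))) := by
    refine hR _ (T.finite_toSet.image _) ?_
    rintro _ ⟨x, hx, rfl⟩
    have h1 : x ∈ φ.ker := hT ▸ subset_closure hx
    have h2 : φ x = 1 := h1
    exact (QuotientGroup.eq_one_iff _).mp h2
  have hkfin : Finite φ.ker := by
    have h1 : φ.ker.map (closure S).subtype = closure ((closure S).subtype '' (T : Set (closure S))) := by
      rw [← hT, MonoidHom.map_closure]
    have h2 : Finite (φ.ker.map (closure S).subtype) := by rw [h1]; exact hTfin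
    exact Finite.of_equiv _ (φ.ker.equivMapOfInjective _ (closure S).subtype_injective).symm.toEquiv
  apply Nat.finite_of_card_ne_zero
  rw [← φ.ker.card_mul_index]
  exact mul_ne_zero Nat.card_pos.ne' hidx

theorem closure_normal {D : Set G} (h : ∀ g : G, ∀ x ∈ D, g * x * g⁻¹ ∈ D) :
    (closure D).Normal := by
  refine ⟨fun n hn g => ?_⟩
  induction hn using closure_induction with
  | mem x hx => exact subset_closure (h g x hx)
  | one => simp
  | mul x y _ _ hx hy =>
    have e : g * (x * y) * g⁻¹ = (g * x * g⁻¹) * (g * y * g⁻¹) := by group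
    rw [e]
    exact mul_mem hx hy
  | inv x _ hx =>
    have e : g * x⁻¹ * g⁻¹ = (g * x * g⁻¹)⁻¹ := by group
    rw [e]
    exact inv_mem hx

/-- if the identities I2 and J2 hold in the group `Q`, whose only normal locally finite subgroup is
trivial, then it has no nontrivial `DLaw` set -/
theorem trivial_of_identities (Q : Type u) [Group Q]
    (hQ : ∀ N : Subgroup Q, N.Normal → LF N → N = ⊥)
    (I2 : ∀ E : Set Q, DLaw E → ∀ a ∈ E, ∀ b ∈ E, ∀ c ∈ E, ∀ d ∈ E, ∀ e ∈ E,
      Commute (d * vv a b c * d) (e * vv a b c * e))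
    (J2 : ∀ E : Set Q, DLaw E → (∀ a ∈ E, ∀ b ∈ E, ∀ c ∈ E, vv a b c = 1) →
      ∀ a ∈ E, ∀ b ∈ E, ∀ c ∈ E, ∀ d ∈ E, ∀ e ∈ E,
      Commute (d * ww a b c * d) (e * ww a b c * e))
    (D : Set Q) (hD : DLaw D) : ∀ x ∈ D, x = 1 := by
  obtain ⟨E, hDE, hE, hmax⟩ := exists_max hD
  have htriv : ∀ W : Set Q, Strong W → ∀ x ∈ W, x = 1 := by
    intro W hW x hx
    have h1 := hQ (closure W) (closure_normal hW.conj) (lf_closure hW)
    have h2 : x ∈ closure W := subset_closure hx
    rw [h1] at h2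
    exact Subgroup.mem_bot.mp h2
  have hu2 : ∀ a ∈ E, ∀ b ∈ E, c2 a b * c2 a b = 1 := hE.four
  have hV : ∀ a ∈ E, ∀ b ∈ E, ∀ c ∈ E, vv a b c = 1 := by
    have hs : Strong {z : Q | ∃ a ∈ E, ∃ b ∈ E, ∃ c ∈ E, z = vv a b c} := by
      refine absorb hE hmax ⟨1, hE.one, 1, hE.one, 1, hE.one, by simp [vv, c2_def]⟩ ?_ ?_ ?_
      · rintro _ ⟨a, ha, b, hb, c, hc, rfl⟩
        exact ⟨_, hE.conj' hc (hu2 a ha b hb), c, hc, rfl⟩
      · rintro g _ ⟨a, ha, b, hb, c, hc, rfl⟩
        refine ⟨_, hE.conj g a ha, _, hE.conj g b hb, _, hE.conj g c hc, ?_⟩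
        simp only [vv, c2_def]
        group
      · rintro _ ⟨a, ha, b, hb, c, hc, rfl⟩ d hd e he
        exact I2 E hE a ha b hb c hc d hd e he
    intro a ha b hb c hc
    exact htriv _ hs _ ⟨a, ha, b, hb, c, hc, rfl⟩
  have hW : ∀ a ∈ E, ∀ b ∈ E, ∀ c ∈ E, ww a b c = 1 := by
    have hs : Strong {z : Q | ∃ a ∈ E, ∃ b ∈ E, ∃ c ∈ E, z = ww a b c} := by
      refine absorb hE hmax ⟨1, hE.one, 1, hE.one, 1, hE.one, by simp [ww, c2_def]⟩ ?_ ?_ ?_
      · rintro _ ⟨a, ha, b, hb, c, hc, rfl⟩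
        exact ⟨_, hE.conj' ha (hE.inv b hb), _, hE.conj' ha (hE.inv c hc), rfl⟩
      · rintro g _ ⟨a, ha, b, hb, c, hc, rfl⟩
        refine ⟨_, hE.conj g a ha, _, hE.conj g b hb, _, hE.conj g c hc, ?_⟩
        simp only [ww, c2_def]
        group
      · rintro _ ⟨a, ha, b, hb, c, hc, rfl⟩ d hd e he
        exact J2 E hE hV a ha b hb c hc d hd e he
    intro a ha b hb c hc
    exact htriv _ hs _ ⟨a, ha, b, hb, c, hc, rfl⟩
  have hstrong : Strong E := by
    refine ⟨hE.one, hE.inv, hE.conj, hE.four, ?_⟩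
    intro x hx y hy z hz
    have hxx := hE.inv x hx
    have hyy := hE.inv y hy
    have hzz := hE.inv z hz
    have e1 : c2 x y = x * (y * x * y) := by simp only [c2_def, mul_assoc]
    have e2 : c2 x z = x * (z * x * z) := by simp only [c2_def, mul_assoc]
    show Commute (c2 x y) (c2 x z)
    rw [e1, e2]
    have a1 := comm_of_four hxx hyy (hE.four x hx y hy)
    have a2 := comm_of_four hxx hzz (hE.four x hx z hz)
    have a3 : Commute (y * x * y) (z * x * z) := by
      have h1 : (y * x * y) * (z * x * z) * ((y * x * y) * (z * x * z)) = 1 := hW x hx y hy z hz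
      have h2 := conj_sq hxx hyy
      have h3 := conj_sq hxx hzz
      show (y * x * y) * (z * x * z) = (z * x * z) * (y * x * y)
      calc (y * x * y) * (z * x * z) = ((y * x * y) * (z * x * z))⁻¹ := (inv_eq h1).symm
        _ = (z * x * z)⁻¹ * (y * x * y)⁻¹ := mul_inv_rev _ _
        _ = _ := by rw [inv_eq h2, inv_eq h3]
    exact ((Commute.refl x).mul_right a2).mul_left (a1.symm.mul_right a3)
  exact fun x hx => htriv E hstrong x (hDE hx)

/-- **Reduction.** If I2 and J2 hold in all quotients of `G`, then every `DLaw` set of `G` generates a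
locally finite subgroup. -/
theorem lf_of_identities (G : Type u) [Group G]
    (I2 : ∀ (N : Subgroup G) [N.Normal] (E : Set (G ⧸ N)), DLaw E →
      ∀ a ∈ E, ∀ b ∈ E, ∀ c ∈ E, ∀ d ∈ E, ∀ e ∈ E,
      Commute (d * vv a b c * d) (e * vv a b c * e))
    (J2 : ∀ (N : Subgroup G) [N.Normal] (E : Set (G ⧸ N)), DLaw E →
      (∀ a ∈ E, ∀ b ∈ E, ∀ c ∈ E, vv a b c = 1) →
      ∀ a ∈ E, ∀ b ∈ E, ∀ c ∈ E, ∀ d ∈ E, ∀ e ∈ E,
      Commute (d * ww a b c * d) (e * ww a b c * e))
    (D : Set G) (hD : DLaw D) : LF (closure D) := by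
  obtain ⟨R, hRn, hR, hRmax⟩ := exists_max_lf G
  have hQ : ∀ N : Subgroup (G ⧸ R), N.Normal → LF N → N = ⊥ := by
    intro N hN hN2
    have h1 : N.comap (QuotientGroup.mk' R) ≤ R := by
      refine hRmax _ inferInstance (lf_comap R hR N hN2) ?_
      intro x hx
      rw [Subgroup.mem_comap]
      have h2 : QuotientGroup.mk' R x = 1 := (QuotientGroup.eq_one_iff x).mpr hx
      rw [h2]
      exact one_mem _
    rw [Subgroup.eq_bot_iff_forall]
    intro z hz
    obtain ⟨x, rfl⟩ := QuotientGroup.mk'_surjective R z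
    exact (QuotientGroup.eq_one_iff x).mpr (h1 hz)
  have h1 := trivial_of_identities (G ⧸ R) hQ (I2 R) (J2 R)
    (QuotientGroup.mk' R '' D) (hD.image _ (QuotientGroup.mk'_surjective R))
  have h2 : closure D ≤ R := by
    rw [closure_le]
    intro x hx
    exact (QuotientGroup.eq_one_iff x).mp (h1 _ ⟨x, hx, rfl⟩)
  exact hR.mono h2

end basic

end Pool.Agent.Helper94.SV.Frame
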