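import Pool.Agent.Helper94.SV.Frame2
import Pool.Agent.Helper89.SV.S3a

/-!
# Stage 3: the frame

If `(x y z)⁴ = 1` on the maximal set `D` then `D` is closed under commutators (S3a, helper89); if moreover
all commutators are thin (S3b), `D` is trivial.
-/

set_option autoImplicit false

open Subgroup

namespace Pool.Agent.Helper94.SV.Frame

open Pool.Agent.Helper89.SV (P3 c2_four c2_c2_four)

universe u

variable {G : Type u} [Group G]

/-- under P3 the maximal set is closed under commutators -/
theorem closed_of_P3 {D : Set G} (hD : MaxLaw D) (hP : P3 D) :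
    ∀ a ∈ D, ∀ b ∈ D, c2 a b ∈ D := by
  intro a ha b hb
  refine mem_of_class hD (hD.law.four a ha b hb) ?_ ?_
  · intro d hd
    exact four_of_pow (c2_four hD.law hP ha hb hd)
  · intro g
    rw [conj_c2]
    exact four_of_pow (c2_c2_four hD.law hP ha hb (hD.law.conj g a ha) (hD.law.conj g b hb))

/-- stage 3 modulo S3b: `beta` is asked for sets closed under commutators -/
theorem trivial_of_P3 (hQ : NoLF G) {D : Set G} (hD : MaxLaw D) (hP : P3 D)
    (beta : (∀ a ∈ D, ∀ b ∈ D, c2 a b ∈ D) → ∀ a ∈ D, ∀ b ∈ D, Thin D (c2 a b)) :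
    ∀ x ∈ D, x = 1 := by
  have hcl := closed_of_P3 hD hP
  exact abelian_trivial hQ hD.law fun a ha b hb =>
    thin_mem hQ hD.law (hcl a ha b hb) (beta hcl a ha b hb)

end Pool.Agent.Helper94.SV.Frame
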