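import Pool.Agent.Helper94.SV.TL
import Pool.Agent.Helper89.SV.S3b

/-!
# The frame for groups without section `P128`

Two facts are used as hypotheses. `E` is a closed maximal `DLaw` set of a `P128`-free group without normal
locally finite subgroups.
* `HKE`: if every triple of `E` is of one of the three types and `w_a = w_b = 1`, `w_c = [a, b]`, then
  `[a, b]` commutes with all elements of `E`;
* `HKQ`: if every triple satisfies `(x y z)⁴ = 1` or `w_x = w_y = w_z`, and `w_a = w_b = w_c`, then `w_a`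
  is thin: `[w_a^d, w_a^e] = 1` for `d, e` in `E`.
-/

set_option autoImplicit false

open Subgroup

namespace Pool.Agent.Helper94.SV.TL

open Pool.Agent.Helper94.SV.Frame (c2 DLaw MaxLaw NoLF Thin LF thin_mem lf_of_chain canc inv_eq
  thin_comm abelian_trivial pow_of_four four_of_pow comm_of_four c2_symm_one conj_sq mem_of_class)
open Pool.Agent.Helper94.SV.K6 (NoP128)
open Pool.Agent.Helper94.SV.JPrime (dlaw_conjs locFin_of_lf_top)
open Pool.Agent.Helper46.SV (kk cj ww)
open Pool.Agent.Helper46.SV.TE (Law ej)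
open Pool.Agent.Helper89.SV (P3 Path closed_of_path stage3)

universe u

/-- closed under commutators -/
def Closed {G : Type u} [Group G] (E : Set G) : Prop := ∀ a ∈ E, ∀ b ∈ E, c2 a b ∈ E

/-- the trichotomy law -/
def TLaw {G : Type u} [Group G] (E : Set G) : Prop := ∀ x ∈ E, ∀ y ∈ E, ∀ z ∈ E,
  (x * y * z) ^ 4 = 1 ∨ (ww x y z = ww y z x ∧ ww y z x = ww z x y) ∨ Exc x y z ∨ Exc y z x ∨ Exc z x y

/-- the dichotomy law -/
def QLaw {G : Type u} [Group G] (E : Set G) : Prop := ∀ x ∈ E, ∀ y ∈ E, ∀ z ∈ E,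
  (x * y * z) ^ 4 = 1 ∨ (ww x y z = ww y z x ∧ ww y z x = ww z x y)

/-- closed under products of commuting elements -/
def MulClosed {G : Type u} [Group G] (E : Set G) : Prop := ∀ a ∈ E, ∀ b ∈ E, Commute a b → a * b ∈ E

/-- the product law -/
def PLaw {G : Type u} [Group G] (E : Set G) : Prop := ∀ a ∈ E, ∀ b ∈ E, ∀ c ∈ E, ∀ d ∈ E,
  Commute a b → Commute c d → (a * b * (c * d)) ^ 4 = 1

def HKE : Prop := ∀ (Q : Type u) [Group Q], NoP128 Q → NoLF Q → ∀ E : Set Q, MaxLaw E → Closed E → TLaw E →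
  ∀ a ∈ E, ∀ b ∈ E, ∀ c ∈ E, ww a b c = 1 → ww b c a = 1 → ww c a b = kk a b →
    ∀ d ∈ E, Commute (kk a b) d

/-- the certificate for the closure under products: `(a b c d)⁴ = 1` follows from one section -/
def HKC : Prop := ∀ (Q : Type u) [Group Q] (E : Set Q), DLaw E → Closed E → Path E →
  ∀ a ∈ E, ∀ b ∈ E, ∀ c ∈ E, ∀ d ∈ E, Commute a b → Commute c d →
    (a * (c * d) * a * (c * (a * b) * c * (a * (c * d) * a) * (c * (a * b) * c))) ^ 4 = 1 ∧
    ((c * (a * b) * c * (a * (c * d) * a)) ^ 4 = 1 → (a * b * (c * d)) ^ 4 = 1)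

def HKQ : Prop := ∀ (Q : Type u) [Group Q], NoP128 Q → NoLF Q → ∀ E : Set Q, MaxLaw E → Closed E →
  MulClosed E → QLaw E →
  ∀ a ∈ E, ∀ b ∈ E, ∀ c ∈ E, ww a b c = ww b c a → ww b c a = ww c a b → Thin E (ww a b c)

section

variable {G : Type u} [Group G]

theorem tlaw (hG : NoP128 G) {E : Set G} (hE : DLaw E) (hC : Closed E) : TLaw E :=
  fun _ hx _ hy _ hz => tl hG hE hC hx hy hz

/-- an element of `E` which commutes with `E` is trivial -/
theorem one_of_comm (hQ : NoLF G) {E : Set G} (hE : MaxLaw E) {u : G} (hu : u ∈ E)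
    (h : ∀ d ∈ E, Commute u d) : u = 1 := by
  refine thin_mem hQ hE.law hu ?_
  have h1 : ∀ d ∈ E, d * u * d = u := by
    intro d hd
    rw [← (h d hd).eq, mul_assoc, hE.law.inv d hd, mul_one]
  intro d hd e he
  rw [h1 d hd, h1 e he]

theorem comm_cj_of {p q : G} (hp : p * p = 1) (hq : q * q = 1) (h : (p * q) ^ 4 = 1) :
    Commute q (p * q * p) :=
  comm_of_four hq hp (c2_symm_one hp (four_of_pow h))

/-- the section which kills `(a b c d)⁴`: `x = a^c`, `y = b^c`, `z = (c d)^a` satisfy the relations of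
`P128` as soon as `(z z^(xy))⁴ = 1` -/
theorem sect (hG : NoP128 G) {E : Set G} (hE : DLaw E) {a b c d : G} (ha : a ∈ E) (hb : b ∈ E)
    (hc : c ∈ E) (hd : d ∈ E) (hab : Commute a b) (hcd : Commute c d)
    (h : (a * (c * d) * a * (c * (a * b) * c * (a * (c * d) * a) * (c * (a * b) * c))) ^ 4 = 1) :
    (c * (a * b) * c * (a * (c * d) * a)) ^ 4 = 1 := by
  have haa := hE.inv a ha
  have hbb := hE.inv b hb
  have hcc := hE.inv c hc
  have hdd := hE.inv d hd
  have hP := hG.path hE
  -- `z = (c d)^a` is an involution with `(z e)⁴ = 1` for `e` in `E`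
  have hn : c * d * (c * d) = 1 := by
    have h1 : d * (c * d) = c := by rw [← mul_assoc, ← hcd.eq, mul_assoc, hdd, mul_one]
    rw [mul_assoc, h1, hcc]
  have hz : a * (c * d) * a * (a * (c * d) * a) = 1 := by
    have e : a * (c * d) * a * (a * (c * d) * a) = a * (c * d * (a * a) * (c * d)) * a := by
      simp only [mul_assoc]
    rw [e, haa, mul_one, hn, mul_one, haa]
  have hS : ∀ e ∈ E, (e * (a * (c * d) * a)) ^ 4 = 1 := by
    intro e he
    have h1 := hP c hc d hd hcd (a * e * a) (hE.conj' he haa)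
    have h2 : (e * (a * (c * d) * a)) ^ 4 = a * (a * e * a * (c * d * (a * e * a)) ^ 4 * (a * e * a)) * a := by
      have hea : a * e * a * (a * e * a) = 1 := conj_sq (hE.inv e he) haa
      have e1 : a * e * a * (c * d * (a * e * a)) ^ 4 * (a * e * a) = (a * e * a * (c * d)) ^ 4 := by
        simp only [pow_succ, pow_zero, one_mul, mul_assoc, canc haa, hE.inv e he, mul_one, haa,
          canc (hE.inv e he)]
      rw [e1]
      simp only [pow_succ, pow_zero, one_mul, mul_assoc, canc haa, haa, mul_one]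
    rw [h2, h1, mul_one]
    have hea : a * e * a * (a * e * a) = 1 := conj_sq (hE.inv e he) haa
    rw [hea, mul_one, haa]
  have hx : c * a * c ∈ E := hE.conj' ha hcc
  have hy : c * b * c ∈ E := hE.conj' hb hcc
  have exy : c * a * c * (c * b * c) = c * (a * b) * c := by
    simp only [mul_assoc, canc hcc]
  have eyx : c * b * c * (c * a * c) = c * (a * b) * c := by
    have h1 : c * b * c * (c * a * c) = c * (b * a) * c := by simp only [mul_assoc, canc hcc]
    rw [h1, hab.eq]
  have hLaws : Pool.Agent.Helper94.SV.K6.Laws (c * a * c) (c * b * c) (a * (c * d) * a) := by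
    refine ⟨hE.inv _ hx, hE.inv _ hy, hz, ?_, comm_cj_of (hE.inv _ hx) hz (hS _ hx),
      comm_cj_of (hE.inv _ hy) hz (hS _ hy), ?_, ?_⟩
    · show c * a * c * (c * b * c) = c * b * c * (c * a * c)
      rw [exy, eyx]
    · apply four_of_pow
      have e : c * a * c * (c * b * c * (a * (c * d) * a) * (c * b * c)) * (c * a * c) =
          c * (a * b) * c * (a * (c * d) * a) * (c * (a * b) * c) := by
        rw [← exy]
        have e2 : c * a * c * (c * b * c) * (a * (c * d) * a) * (c * a * c * (c * b * c)) =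
            c * a * c * (c * b * c) * (a * (c * d) * a) * (c * b * c * (c * a * c)) := by
          rw [exy, eyx]
        rw [e2]
        simp only [mul_assoc]
      rw [e]
      exact h
    · apply hE.four _ hx
      have e : a * (c * d) * a * (c * b * c) * (a * (c * d) * a) =
          a * (c * (d * (a * (c * b * c) * a) * d) * c) * a := by
        have h1 : a * (c * d) * a * (c * b * c) * (a * (c * d) * a) =
            a * (c * d) * a * (c * b * c) * (a * (d * c) * a) := by rw [hcd.eq]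
        rw [h1]
        simp only [mul_assoc]
      rw [e]
      exact hE.conj' (hE.conj' (hE.conj' (hE.conj' hy haa) hdd) hcc) haa
  have h4 := hG.pow_four hLaws
  rw [exy] at h4
  exact h4

/-- closure under products of commuting elements -/
theorem mulClosed (hG : NoP128 G) {E : Set G} (hE : MaxLaw E) (hP : PLaw E) : MulClosed E := by
  intro a ha b hb hab
  have hpath := hG.path hE.law
  have haa := hE.law.inv a ha
  have hbb := hE.law.inv b hb
  refine mem_of_class hE ?_ ?_ ?_
  · have h1 : b * (a * b) = a := by rw [← mul_assoc, ← hab.eq, mul_assoc, hbb, mul_one]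
    rw [mul_assoc, h1, haa]
  · intro d hd
    exact four_of_pow (hpath a ha b hb hab d hd)
  · intro g
    apply four_of_pow
    have e : g * (a * b) * g⁻¹ = g * a * g⁻¹ * (g * b * g⁻¹) := by group
    rw [e]
    refine hP a ha b hb _ (hE.law.conj g a ha) _ (hE.law.conj g b hb) hab ?_
    show g * a * g⁻¹ * (g * b * g⁻¹) = g * b * g⁻¹ * (g * a * g⁻¹)
    have h1 : g * a * g⁻¹ * (g * b * g⁻¹) = g * (a * b) * g⁻¹ := by group
    have h2 : g * b * g⁻¹ * (g * a * g⁻¹) = g * (b * a) * g⁻¹ := by group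
    rw [h1, h2, hab.eq]

/-- an element which commutes with `E` is thin -/
theorem thin_of_comm {E : Set G} (hE : DLaw E) {u : G} (h : ∀ d ∈ E, Commute u d) : Thin E u := by
  have h1 : ∀ d ∈ E, d * u * d = u := by
    intro d hd
    rw [← (h d hd).eq, mul_assoc, hE.inv d hd, mul_one]
  intro d hd e he
  rw [h1 d hd, h1 e he]

/-- the exceptional triples are trivial -/
theorem exc_trivial (hKE : HKE.{u}) (hG : NoP128 G) (hQ : NoLF G) {E : Set G} (hE : MaxLaw E)
    (hC : Closed E) {a b c : G} (ha : a ∈ E) (hb : b ∈ E) (hc : c ∈ E) (h : Exc a b c) :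
    ww c a b = 1 := by
  have L := law_of hE.law hC
  have hT := tlaw hG hE.law hC
  obtain ⟨h1, h2, h3 | h3⟩ := h
  · rw [h3]
    exact one_of_comm hQ hE (hC a ha b hb) (hKE G hG hQ E hE hC hT a ha b hb c hc h1 h2 h3)
  · have hbc := ej L.toDL hb hc
    obtain ⟨s1, s2, s3⟩ := ww_shift L ha hb hc
    rw [h3]
    refine one_of_comm hQ hE (hC a ha _ hbc) (hKE G hG hQ E hE hC hT a ha _ hbc c hc ?_ ?_ ?_)
    · rw [s1, h1]
    · rw [s2, h2]
    · rw [s3, h3]

theorem abc_one {E : Set G} (L : Law E) {a b c : G} (ha : a ∈ E) (hb : b ∈ E) (hc : c ∈ E)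
    (h1 : ww a b c = 1) (h2 : ww b c a = 1) (h3 : ww c a b = 1) : (a * b * c) ^ 4 = 1 := by
  rw [Pool.Agent.Helper46.SV.TE.abc_four L ha hb hc]
  show ww a b c * ww b c a * ww c a b = 1
  rw [h1, h2, h3, mul_one, mul_one]

theorem qlaw (hKE : HKE.{u}) (hG : NoP128 G) (hQ : NoLF G) {E : Set G} (hE : MaxLaw E)
    (hC : Closed E) : QLaw E := by
  have L := law_of hE.law hC
  intro x hx y hy z hz
  rcases tlaw hG hE.law hC x hx y hy z hz with h | h | h | h | h
  · exact Or.inl h
  · exact Or.inr h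
  · exact Or.inl (abc_one L hx hy hz h.1 h.2.1 (exc_trivial hKE hG hQ hE hC hx hy hz h))
  · exact Or.inl (abc_one L hx hy hz (exc_trivial hKE hG hQ hE hC hy hz hx h) h.1 h.2.1)
  · exact Or.inl (abc_one L hx hy hz h.2.1 (exc_trivial hKE hG hQ hE hC hz hx hy h) h.1)

theorem plaw (hKC : HKC.{u}) (hG : NoP128 G) {E : Set G} (hE : DLaw E) (hC : Closed E) : PLaw E := by
  intro a ha b hb c hc d hd hab hcd
  obtain ⟨h1, h2⟩ := hKC G E hE hC (hG.path hE) a ha b hb c hc d hd hab hcd
  exact h2 (sect hG hE ha hb hc hd hab hcd h1)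

theorem p3 (hKC : HKC.{u}) (hKE : HKE.{u}) (hKQ : HKQ.{u}) (hG : NoP128 G) (hQ : NoLF G) {E : Set G}
    (hE : MaxLaw E) (hC : Closed E) : P3 E := by
  have L := law_of hE.law hC
  have hQL := qlaw hKE hG hQ hE hC
  intro x hx y hy z hz
  rcases hQL x hx y hy z hz with h | ⟨h1, h2⟩
  · exact h
  · have h3 : ww x y z = 1 := thin_mem hQ hE.law (hC _ (ej L.toDL hx hy) _ (ej L.toDL hx hz))
      (hKQ G hG hQ E hE hC (mulClosed hG hE (plaw hKC hG hE.law hC)) hQL x hx y hy z hz h1 h2)
    exact abc_one L hx hy hz h3 (h1.symm.trans h3) ((h1.trans h2).symm.trans h3)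

end

/-- the last step: all commutators are thin -/
def HKT : Prop := ∀ (Q : Type u) [Group Q] (E : Set Q), DLaw E → Closed E → MulClosed E → QLaw E →
  ∀ a ∈ E, ∀ b ∈ E, Thin E (c2 a b)

theorem triv (hKC : HKC.{u}) (hKE : HKE.{u}) (hKT : HKT.{u}) {G : Type u} [Group G] (hG : NoP128 G)
    (hQ : NoLF G) {E : Set G} (hE : MaxLaw E) : ∀ x ∈ E, x = 1 := by
  have hC : Closed E := closed_of_path hE (hG.path hE.law)
  have hM := mulClosed hG hE (plaw hKC hG hE.law hC)
  have hQL := qlaw hKE hG hQ hE hC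
  exact abelian_trivial hQ hE.law fun a ha b hb =>
    thin_comm hQ hE ha hb (hKT G E hE.law hC hM hQL a ha b hb)

/-- in a `P128`-free group every `DLaw` set generates a locally finite subgroup -/
theorem lf_of_noP128 (hKC : HKC.{u}) (hKE : HKE.{u}) (hKT : HKT.{u}) (G : Type u) [Group G]
    (hG : NoP128 G) (D : Set G) (hD : DLaw D) : LF (closure D) :=
  lf_of_chain G (fun N _ hN _ hE => triv hKC hKE hKT (hG.quotient N) hN hE) D hD

/-- **Theorem K** -/
theorem partK (hKC : HKC.{u}) (hKE : HKE.{u}) (hKT : HKT.{u}) (G : Type u) [Group G] {x : G} (hx : x * x = 1)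
    (hE : ∀ g : G, cm (cm (cm g x) x) x = 1) (hN : NoP128 (normalClosure ({x} : Set G))) :
    LocFin (normalClosure ({x} : Set G)) := by
  have h1 := lf_of_noP128 hKC hKE hKT _ hN _ (dlaw_conjs hx hE)
  have h2 : closure (insert 1 (Pool.Agent.Helper94.SV.conjs x)) = ⊤ := by
    rw [eq_top_iff, ← Pool.Agent.Helper94.SV.closure_conjs x]
    exact Subgroup.closure_mono (Set.subset_insert _ _)
  rw [h2] at h1
  exact locFin_of_lf_top h1

end Pool.Agent.Helper94.SV.TL
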