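import Pool.Agent.Helper94.SV.KSec

/-!
# `P128` is the Sylow 2-subgroup of the symmetric group of degree 8
-/

set_option autoImplicit false
set_option linter.unusedSimpArgs false

open Subgroup

namespace Pool.Agent.Helper94.SV.K6

open Pool.Agent.Helper94.SV.Frame (c2 canc inv_eq)

universe u

section inj

variable {T : Type u} [Group T] {a b c d o x y : T} (S : Sys a b c d o x y)
include S

theorem Sys.mf_o (e0 e1 e2 e3 e4 : Bool) :
    mf a b c d o e0 e1 e2 e3 e4 * o = mf a b c d o e0 e1 e2 e3 (!e4) := by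
  cases e4 <;> simp [mf, pw, mul_assoc, S.ho]

/-- normal forms of the extraspecial part are unique -/
theorem Sys.mf_inj (ho1 : o ≠ 1) {e0 e1 e2 e3 e4 f0 f1 f2 f3 f4 : Bool}
    (h : mf a b c d o e0 e1 e2 e3 e4 = mf a b c d o f0 f1 f2 f3 f4) :
    e0 = f0 ∧ e1 = f1 ∧ e2 = f2 ∧ e3 = f3 ∧ e4 = f4 := by
  -- multiply by the inverse
  have s4 : ∀ e0 e1 e2 e3 e4 f : Bool, mf a b c d o e0 e1 e2 e3 e4 * pw o f =
      mf a b c d o e0 e1 e2 e3 (xor e4 f) := by
    intro e0 e1 e2 e3 e4 f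
    cases f
    · simp [pw]
    · simp [pw, S.mf_o]
  have s3 : ∀ e0 e1 e2 e3 e4 f : Bool, mf a b c d o e0 e1 e2 e3 e4 * pw d f =
      mf a b c d o e0 e1 e2 (xor e3 f) e4 := by
    intro e0 e1 e2 e3 e4 f
    cases f
    · simp [pw]
    · simp [pw, S.mf_d]
  have s2 : ∀ e0 e1 e2 e3 e4 f : Bool, mf a b c d o e0 e1 e2 e3 e4 * pw c f =
      mf a b c d o e0 e1 (xor e2 f) e3 e4 := by
    intro e0 e1 e2 e3 e4 f
    cases f
    · simp [pw]
    · simp [pw, S.mf_c]
  have s1 : ∀ e0 e1 e2 e3 e4 f : Bool, mf a b c d o e0 e1 e2 e3 e4 * pw b f =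
      mf a b c d o e0 (xor e1 f) e2 e3 (xor e4 (e2 && f)) := by
    intro e0 e1 e2 e3 e4 f
    cases f
    · simp [pw]
    · simp [pw, S.mf_b]
  have s0 : ∀ e0 e1 e2 e3 e4 f : Bool, mf a b c d o e0 e1 e2 e3 e4 * pw a f =
      mf a b c d o (xor e0 f) e1 e2 e3 (xor e4 (e3 && f)) := by
    intro e0 e1 e2 e3 e4 f
    cases f
    · simp [pw]
    · simp [pw, S.mf_a]
  have q0 := S.ha
  have q1 := S.hb
  have q2 := S.hc
  have q3 := S.hd
  have q4 := S.ho
  have hp : ∀ (t : T) (_ : t * t = 1) (f : Bool) (w : T), pw t f * (pw t f * w) = w := by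
    intro t ht f w
    cases f
    · simp [pw]
    · simp [pw, canc ht]
  have hinv : mf a b c d o f0 f1 f2 f3 f4 * pw o f4 * pw d f3 * pw c f2 * pw b f1 * pw a f0 = 1 := by
    have e : pw a f0 * pw a f0 = 1 := by
      have := hp a q0 f0 1
      simpa using this
    simp only [mf, mul_assoc]
    rw [hp o q4, hp d q3, hp c q2, hp b q1, e]
  rw [← h, s4, s3, s2, s1, s0] at hinv
  obtain ⟨h0, h1, h2, h3, _⟩ := S.mf_one ho1 _ _ _ _ _ hinv
  have hx : ∀ p q : Bool, xor p q = false → p = q := by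
    intro p q
    cases p <;> cases q <;> simp
  have g0 := hx _ _ h0
  have g1 := hx _ _ h1
  have g2 := hx _ _ h2
  have g3 := hx _ _ h3
  subst g0 g1 g2 g3
  refine ⟨rfl, rfl, rfl, rfl, ?_⟩
  have h4 : pw o e4 = pw o f4 := by
    simp only [mf] at h
    exact mul_left_cancel (mul_left_cancel (mul_left_cancel (mul_left_cancel h)))
  cases e4 <;> cases f4 <;> simp only [pw, if_true, if_false, reduceCtorEq] at h4 ⊢
  · exact ho1 h4.symm
  · exact ho1 h4

/-- normal forms are unique -/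
theorem Sys.nf_inj (ho1 : o ≠ 1) {e0 e1 e2 e3 e4 e5 e6 f0 f1 f2 f3 f4 f5 f6 : Bool}
    (h : nf a b c d o x y e0 e1 e2 e3 e4 e5 e6 = nf a b c d o x y f0 f1 f2 f3 f4 f5 f6) :
    e0 = f0 ∧ e1 = f1 ∧ e2 = f2 ∧ e3 = f3 ∧ e4 = f4 ∧ e5 = f5 ∧ e6 = f6 := by
  have hx : ∀ p q : Bool, xor p q = false → p = q := by
    intro p q
    cases p <;> cases q <;> simp
  have hp : ∀ (t : T) (_ : t * t = 1) (f : Bool) (w : T), pw t f * (pw t f * w) = w := by
    intro t ht f w
    cases f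
    · simp [pw]
    · simp [pw, canc ht]
  let P : T → Prop := fun t => ∃ h0 h1 h2 h3 h4 : Bool, t = mf a b c d o h0 h1 h2 h3 h4
  have Pa : ∀ (t : T) (f : Bool), P t → P (t * pw a f) := by
    rintro t f ⟨h0, h1, h2, h3, h4, rfl⟩
    cases f
    · exact ⟨h0, h1, h2, h3, h4, by simp [pw]⟩
    · exact ⟨_, _, _, _, _, by simpa [pw] using S.mf_a h0 h1 h2 h3 h4⟩
  have Pb : ∀ (t : T) (f : Bool), P t → P (t * pw b f) := by
    rintro t f ⟨h0, h1, h2, h3, h4, rfl⟩
    cases f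
    · exact ⟨h0, h1, h2, h3, h4, by simp [pw]⟩
    · exact ⟨_, _, _, _, _, by simpa [pw] using S.mf_b h0 h1 h2 h3 h4⟩
  have Pc : ∀ (t : T) (f : Bool), P t → P (t * pw c f) := by
    rintro t f ⟨h0, h1, h2, h3, h4, rfl⟩
    cases f
    · exact ⟨h0, h1, h2, h3, h4, by simp [pw]⟩
    · exact ⟨_, _, _, _, _, by simpa [pw] using S.mf_c h0 h1 h2 h3 h4⟩
  have Pd : ∀ (t : T) (f : Bool), P t → P (t * pw d f) := by
    rintro t f ⟨h0, h1, h2, h3, h4, rfl⟩
    cases f
    · exact ⟨h0, h1, h2, h3, h4, by simp [pw]⟩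
    · exact ⟨_, _, _, _, _, by simpa [pw] using S.mf_d h0 h1 h2 h3 h4⟩
  have Po : ∀ (t : T) (f : Bool), P t → P (t * pw o f) := by
    rintro t f ⟨h0, h1, h2, h3, h4, rfl⟩
    cases f
    · exact ⟨h0, h1, h2, h3, h4, by simp [pw]⟩
    · exact ⟨_, _, _, _, _, by simpa [pw] using S.mf_o h0 h1 h2 h3 h4⟩
  have P1 : P 1 := ⟨false, false, false, false, false, by simp [mf, pw]⟩
  have hP : P (1 * pw o f4 * pw d f3 * pw c f2 * pw b f1 * pw a f0 *
      pw a e0 * pw b e1 * pw c e2 * pw d e3 * pw o e4) :=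
    Po _ _ (Pd _ _ (Pc _ _ (Pb _ _ (Pa _ _ (Pa _ _ (Pb _ _ (Pc _ _ (Pd _ _ (Po _ _ P1)))))))))
  obtain ⟨h0, h1, h2, h3, h4, hh⟩ := hP
  have hg : ∀ p q r s : Bool, pw x p * pw y q = pw x (xor p r) * pw y (xor q s) * (pw x r * pw y s) := by
    have yx := S.yx
    have hxx := S.hx
    have hyy := S.hy
    have t1 : ∀ w : T, y * (x * w) = x * (y * w) := by
      intro w
      rw [← mul_assoc, yx, mul_assoc]
    intro p q r s
    cases p <;> cases q <;> cases r <;> cases s <;>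
      simp [pw, mul_assoc, yx, hxx, hyy, t1, canc hxx, canc hyy]
  have h1' : mf a b c d o h0 h1 h2 h3 h4 * (pw x (xor e5 f5) * pw y (xor e6 f6)) = 1 := by
    rw [← hh]
    have e56 : pw x e5 * pw y e6 = pw x (xor e5 f5) * pw y (xor e6 f6) * (pw x f5 * pw y f6) := hg _ _ _ _
    simp only [nf] at h
    rw [e56, ← mul_assoc (mf a b c d o e0 e1 e2 e3 e4)] at h
    have h5 := mul_right_cancel h
    simp only [mf, mul_assoc, one_mul] at h5 ⊢
    rw [h5, hp a S.ha, hp b S.hb, hp c S.hc, hp d S.hd]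
    cases f4 <;> simp [pw, S.ho]
  obtain ⟨_, _, _, _, _, g5, g6⟩ := S.nf_one ho1 h0 h1 h2 h3 h4 _ _ h1'
  have k5 := hx _ _ g5
  have k6 := hx _ _ g6
  subst k5 k6
  simp only [nf] at h
  obtain ⟨k0, k1, k2, k3, k4⟩ := S.mf_inj ho1 (mul_right_cancel h)
  exact ⟨k0, k1, k2, k3, k4, rfl, rfl⟩

end inj

/-- three permutations -/
def px : Equiv.Perm (Fin 8) := Equiv.swap 5 6
def py : Equiv.Perm (Fin 8) := Equiv.swap 1 4 * Equiv.swap 3 7
def pz : Equiv.Perm (Fin 8) := Equiv.swap 0 1 * Equiv.swap 2 3 * Equiv.swap 4 5 * Equiv.swap 6 7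

set_option maxRecDepth 100000 in
theorem lawsS : Laws px py pz := by
  refine laws_of ?_ ?_ ?_ ?_ ?_ ?_ ?_ ?_ <;> decide

set_option maxRecDepth 100000 in
theorem powS : (px * py * pz) ^ 4 ≠ 1 := by decide

theorem omega_ne : c2 gz (gx * (gy * gz * gy) * gx) ≠ 1 := by
  intro h
  rw [← lawsP.pow_eq] at h
  have h1 := congrArg (toT lawsS) h
  rw [map_pow, map_mul, map_mul, toT_x, toT_y, toT_z, map_one] at h1
  exact powS h1

/-- the order of `P128` is 128 -/
theorem card_P128 : Nat.card P128 = 128 := by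
  let f : Bool × Bool × Bool × Bool × Bool × Bool × Bool → P128 := fun e =>
    nf gz (gx * gz * gx) (gy * gz * gy) (gx * (gy * gz * gy) * gx) (c2 gz (gx * (gy * gz * gy) * gx))
      gx gy e.1 e.2.1 e.2.2.1 e.2.2.2.1 e.2.2.2.2.1 e.2.2.2.2.2.1 e.2.2.2.2.2.2
  have hf : Function.Bijective f := by
    constructor
    · rintro ⟨e0, e1, e2, e3, e4, e5, e6⟩ ⟨f0, f1, f2, f3, f4, f5, f6⟩ h
      obtain ⟨rfl, rfl, rfl, rfl, rfl, rfl, rfl⟩ := lawsP.sys.nf_inj omega_ne h
      rfl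
    · intro g
      obtain ⟨e0, e1, e2, e3, e4, e5, e6, rfl⟩ := lawsP.sys.exists_nf g (by rw [closureP]; trivial)
      exact ⟨⟨e0, e1, e2, e3, e4, e5, e6⟩, rfl⟩
  rw [← Nat.card_congr (Equiv.ofBijective f hf)]
  simp

theorem equiv_closure {G : Type u} [Group G] {x y z : G} (L : Laws x y z) (h4 : (x * y * z) ^ 4 ≠ 1) :
    Nonempty (P128 ≃* closure ({x, y, z} : Set G)) := by
  have hx : x ∈ closure ({x, y, z} : Set G) := Subgroup.subset_closure (Or.inl rfl)
  have hy : y ∈ closure ({x, y, z} : Set G) := Subgroup.subset_closure (Or.inr (Or.inl rfl))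
  have hz : z ∈ closure ({x, y, z} : Set G) := Subgroup.subset_closure (Or.inr (Or.inr rfl))
  have L' : Laws (⟨x, hx⟩ : closure ({x, y, z} : Set G)) ⟨y, hy⟩ ⟨z, hz⟩ := Laws.sub L
  have hT : closure ({⟨x, hx⟩, ⟨y, hy⟩, ⟨z, hz⟩} : Set (closure ({x, y, z} : Set G))) = ⊤ := by
    have h := closure_closure_coe_preimage (k := ({x, y, z} : Set G))
    rw [eq_top_iff, ← h]
    apply Subgroup.closure_mono
    rintro ⟨t, ht⟩ ht2
    rcases ht2 with h | h | h
    · exact Or.inl (Subtype.ext h)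
    · exact Or.inr (Or.inl (Subtype.ext h))
    · exact Or.inr (Or.inr (Subtype.ext h))
  have hb := bijective_toT L' (fun h => h4 (congrArg Subtype.val h)) hT
  exact ⟨MulEquiv.ofBijective (toT L') hb⟩

/-- **`P128` is the Sylow 2-subgroup of the symmetric group of degree 8** -/
theorem equiv_sylow (P : Sylow 2 (Equiv.Perm (Fin 8))) : Nonempty (P128 ≃* P) := by
  obtain ⟨e⟩ := equiv_closure lawsS powS
  let T := closure ({px, py, pz} : Set (Equiv.Perm (Fin 8)))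
  have : Fact (Nat.Prime 2) := ⟨Nat.prime_two⟩
  have hcard : Nat.card T = 2 ^ (Nat.card (Equiv.Perm (Fin 8))).factorization 2 := by
    have hT : Nat.card T = 128 := by
      rw [← card_P128]
      exact (Nat.card_congr e.toEquiv).symm
    rw [hT, Nat.card_eq_fintype_card, Fintype.card_perm,
      Fintype.card_fin]
    have h1 : Nat.factorial 8 = 2 ^ 7 * 315 := by norm_num [Nat.factorial]
    have h2 : (Nat.factorial 8).factorization 2 = 7 := by
      rw [h1, Nat.factorization_mul (by norm_num) (by norm_num), Nat.Prime.factorization_pow Nat.prime_two]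
      have h3 : (315 : ℕ).factorization 2 = 0 := Nat.factorization_eq_zero_of_not_dvd (by norm_num)
      simp [h3]
    rw [h2]
    norm_num
  let S : Sylow 2 (Equiv.Perm (Fin 8)) := Sylow.ofCard T hcard
  have e2 : S ≃* P := Sylow.equiv S P
  exact ⟨e.trans e2⟩

theorem noP128_of_sylow {G : Type u} [Group G]
    (h : ∀ (P : Sylow 2 (Equiv.Perm (Fin 8))) (H : Subgroup G) (N : Subgroup H) [N.Normal],
      IsEmpty ((H ⧸ N) ≃* P)) : NoP128 G := by
  intro H N _
  have : Fact (Nat.Prime 2) := ⟨Nat.prime_two⟩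
  have P : Sylow 2 (Equiv.Perm (Fin 8)) := default
  obtain ⟨e⟩ := equiv_sylow P
  exact ⟨fun f => (h P H N).false (f.trans e)⟩

end Pool.Agent.Helper94.SV.K6
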