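import Pool.Agent.Helper94.SV.KFrame
import Pool.Agent.Helper94.SV.K8
import Pool.Agent.Helper46.SV.KC
import Pool.Agent.Helper91.SV.KE
import Pool.Agent.Helper89.SV.HTH

/-!
# The frame for groups without section `P128`, second version

`E` is a closed maximal `DLaw` set of a `P128`-free group without normal locally finite subgroups.
* `HTH`: if the elements of `E` which commute with `a` or with `b` commute with `t = [a, b]`, then `t` is thin;
* `HKQ1`: if every triple satisfies `(x y z)⁴ = 1` or `w_x = w_y = w_z`, and `w_a = w_b = w_c`, then the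
  elements of `E` which commute with `a` commute with `w_a`.
-/

set_option autoImplicit false

open Subgroup

namespace Pool.Agent.Helper94.SV.TL

open Pool.Agent.Helper94.SV.Frame (c2 DLaw MaxLaw NoLF Thin LF thin_mem lf_of_chain canc inv_eq
  thin_comm abelian_trivial pow_of_four four_of_pow comm_of_four c2_symm_one conj_sq mem_of_class)
open Pool.Agent.Helper94.SV.K6 (NoP128)
open Pool.Agent.Helper94.SV.JPrime (dlaw_conjs locFin_of_lf_top)
open Pool.Agent.Helper46.SV (kk cj ww)
open Pool.Agent.Helper46.SV.TE (Law ej ww_comm_left)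
open Pool.Agent.Helper89.SV (P3 Path closed_of_path stage3)

universe u

theorem hkc : HKC.{u} := by
  intro Q _ E hE hC hP a ha b hb c hc d hd hab hcd
  have haa := hE.inv a ha
  have hbb := hE.inv b hb
  have hcc := hE.inv c hc
  have i1 : (c * (a * b) * c)⁻¹ = c * (a * b) * c := by
    rw [mul_inv_rev, mul_inv_rev, mul_inv_rev, inv_eq haa, inv_eq hbb, inv_eq hcc, ← hab.eq, ← mul_assoc]
  constructor
  · have h1 := Pool.Agent.Helper46.SV.RK.kc1 hE hP hC ha hb hc hd hab hcd
    rw [i1] at h1
    exact h1
  · intro h4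
    refine Pool.Agent.Helper46.SV.RK.kc2 hE hP hC ha hb hc hd hab hcd ?_
    have e : c * a * c * (c * b * c) = c * (a * b) * c := by
      simp only [mul_assoc, canc hcc]
    rw [e]
    exact h4

/-- a commutator is thin as soon as the elements of `E` which commute with one of its letters commute
with it -/
def HTH : Prop := ∀ (Q : Type u) [Group Q] (E : Set Q), DLaw E → Path E → Closed E →
  ∀ x ∈ E, ∀ y ∈ E, (∀ e ∈ E, Commute e x ∨ Commute e y → Commute e (kk x y)) → Thin E (kk x y)

theorem hth : HTH.{u} := by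
  intro Q _ E hE hP hC x hx y hy H d hd e he
  exact Pool.Agent.Helper89.SV.hth hE hP hC hx hy H hd he

/-- `w_a = w_b = w_c` commutes with the elements of `E` which commute with `a` -/
def HKQ1 : Prop := ∀ (Q : Type u) [Group Q] (E : Set Q), DLaw E → Path E → Closed E → MulClosed E → QLaw E →
  ∀ a ∈ E, ∀ b ∈ E, ∀ c ∈ E, ∀ d ∈ E, ww a b c = ww b c a → ww b c a = ww c a b →
    Commute a d → Commute d (ww a b c)

theorem hkq (h1 : HTH.{u}) (h2 : HKQ1.{u}) : HKQ.{u} := by
  intro Q _ hN _ E hE hC hM hQ a ha b hb c hc e1 e2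
  have hD := hE.law
  have hP := hN.path hD
  have L := law_of hD hC
  have hx := ej L.toDL hb ha
  have key : ∀ p q : Q, p ∈ E → q ∈ E → Commute (ww a p q) p → (∀ d ∈ E, Commute a d → Commute d (ww a p q)) →
      ∀ e ∈ E, Commute e (cj a p) → Commute e (ww a p q) := by
    intro p q hp _ hw hd e he hc
    have hpp := hD.inv p hp
    have h3 : Commute a (cj e p) := by
      show a * (p * e * p) = p * e * p * a
      have h4 : e * (p * a * p) = p * a * p * e := hc
      calc a * (p * e * p) = p * ((p * a * p) * e) * p := by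
            simp only [mul_assoc, canc hpp]
        _ = p * (e * (p * a * p)) * p := by rw [h4]
        _ = p * e * p * a := by simp only [mul_assoc, hpp, mul_one]
    have h5 := hd _ (ej L.toDL he hp) h3
    show e * ww a p q = ww a p q * e
    have h6 : p * e * p * ww a p q = ww a p q * (p * e * p) := h5
    have h7 : ww a p q * p = p * ww a p q := hw
    calc e * ww a p q = p * (p * e * p * (p * ww a p q)) := by
          simp only [mul_assoc, canc hpp]
      _ = p * (p * e * p * (ww a p q * p)) := by rw [h7]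
      _ = p * (p * e * p * ww a p q) * p := by simp only [mul_assoc]
      _ = p * (ww a p q * (p * e * p)) * p := by rw [h6]
      _ = (p * ww a p q) * p * e * (p * p) := by simp only [mul_assoc]
      _ = (ww a p q * p) * p * e * (p * p) := by rw [h7]
      _ = ww a p q * e := by rw [mul_assoc (ww a p q) p p, hpp, mul_one, mul_one]
  refine h1 Q E hD hP hC (cj a b) (ej L.toDL ha hb) (cj a c) (ej L.toDL ha hc) ?_
  have hd1 : ∀ d ∈ E, Commute a d → Commute d (ww a b c) := fun d hd h =>
    h2 Q E hD hP hC hM hQ a ha b hb c hc d hd e1 e2 h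
  have hsym : ww a b c = ww a c b := Pool.Agent.Helper46.SV.TE.ww_symm L hb ha hc
  intro e he h
  rcases h with h | h
  · exact key b c hb hc (ww_comm_left L hb ha hc) hd1 e he h
  · have h8 := key c b hc hb (ww_comm_left L hc ha hb) (fun d hd h => by rw [← hsym]; exact hd1 d hd h) e he h
    rw [← hsym] at h8
    exact h8

/-- the maximal `DLaw` sets are trivial -/
theorem triv3 (hKC : HKC.{u}) (hKE : HKE.{u}) (hKQ : HKQ.{u}) {G : Type u} [Group G] (hG : NoP128 G)
    (hQ : NoLF G) {E : Set G} (hE : MaxLaw E) : ∀ x ∈ E, x = 1 := by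
  have hC : Closed E := closed_of_path hE (hG.path hE.law)
  exact stage3 hQ hE (p3 hKC hKE hKQ hG hQ hE hC)

/-- in a `P128`-free group every `DLaw` set generates a locally finite subgroup -/
theorem lf3 (hKC : HKC.{u}) (hKE : HKE.{u}) (hKQ : HKQ.{u}) (G : Type u) [Group G]
    (hG : NoP128 G) (D : Set G) (hD : DLaw D) : LF (closure D) :=
  lf_of_chain G (fun N _ hN _ hE => triv3 hKC hKE hKQ (hG.quotient N) hN hE) D hD

/-- **Theorem K** from `HKQ1` -/
theorem partK3 (hQ1 : HKQ1.{u}) (G : Type u) [Group G] {x : G} (hx : x * x = 1)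
    (hE : ∀ g : G, cm (cm (cm g x) x) x = 1) (hN : NoP128 (normalClosure ({x} : Set G))) :
    LocFin (normalClosure ({x} : Set G)) := by
  have h1 := lf3 hkc Pool.Agent.Helper91.SV.hke (hkq hth hQ1) _ hN _ (dlaw_conjs hx hE)
  have h2 : closure (insert 1 (Pool.Agent.Helper94.SV.conjs x)) = ⊤ := by
    rw [eq_top_iff, ← Pool.Agent.Helper94.SV.closure_conjs x]
    exact Subgroup.closure_mono (Set.subset_insert _ _)
  rw [h2] at h1
  exact locFin_of_lf_top h1

/-- **Theorem K**, with Sylow subgroups of `S_8` -/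
theorem partK4 (hQ1 : HKQ1.{u}) (G : Type u) [Group G] {x : G} (hx : x * x = 1)
    (hE : ∀ g : G, cm (cm (cm g x) x) x = 1) (P : Sylow 2 (Equiv.Perm (Fin 8)))
    (hP : ∀ (H : Subgroup (normalClosure ({x} : Set G))) (K : Subgroup H) [K.Normal],
      IsEmpty ((H ⧸ K) ≃* P)) :
    LocFin (normalClosure ({x} : Set G)) := by
  refine partK3 hQ1 G hx hE ?_
  intro H N _
  have : Fact (Nat.Prime 2) := ⟨Nat.prime_two⟩
  obtain ⟨e⟩ := Pool.Agent.Helper94.SV.K6.equiv_sylow P
  exact ⟨fun f => (hP H N).false (f.trans e)⟩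

end Pool.Agent.Helper94.SV.TL
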