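import Pool.Agent.Helper94.SV.Frame

/-!
# Frame for the chain: absorption of single classes, thin elements

`D` is a maximal `DLaw` set of a group `G` all of whose normal locally finite subgroups are trivial.

* `mem_of_class`: an involution `z` with `(z d)⁴ = 1` for `d ∈ D` and `(z z^g)⁴ = 1` for `g ∈ G` lies in `D`;
* `thin_mem`: `z ∈ D` with `[z^d, z^e] = 1` for all `d, e ∈ D` is trivial;
* `thin_comm`: `z = [p, q]`, `p, q ∈ D`, with `[z^d, z^e] = 1` for all `d, e ∈ D` is trivial;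
* `lf_of_chain`: if every maximal `DLaw` set of every quotient of `G` without normal locally finite
  subgroups is trivial, then every `DLaw` set of `G` generates a locally finite subgroup.
-/

set_option autoImplicit false

open Subgroup

namespace Pool.Agent.Helper94.SV.Frame

open Pool.Agent.Helper39.HT (Strong ht)

universe u

/-- all normal locally finite subgroups are trivial -/
def NoLF (G : Type u) [Group G] : Prop := ∀ N : Subgroup G, N.Normal → LF N → N = ⊥

/-- `D` is a maximal `DLaw` set -/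
structure MaxLaw {G : Type u} [Group G] (D : Set G) : Prop where
  law : DLaw D
  max : ∀ E : Set G, DLaw E → D ⊆ E → E ⊆ D

/-- `z` is thin for `D` -/
def Thin {G : Type u} [Group G] (D : Set G) (z : G) : Prop :=
  ∀ d ∈ D, ∀ e ∈ D, Commute (d * z * d) (e * z * e)

section basic

variable {G : Type u} [Group G]

theorem c2_conj_pair (g x y : G) : c2 (g * x * g⁻¹) y = g * c2 x (g⁻¹ * y * g) * g⁻¹ := by
  simp only [c2_def]
  group

theorem c2_symm_one {x y : G} (hx : x * x = 1) (h : c2 x y * c2 x y = 1) :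
    c2 y x * c2 y x = 1 := by
  have e : c2 y x = x * c2 x y * x := by
    have h1 : c2 y x = x * x * c2 y x := by rw [hx, one_mul]
    rw [h1]
    simp only [c2_def, mul_assoc]
  calc c2 y x * c2 y x = x * c2 x y * (x * x) * c2 x y * x := by rw [e]; simp only [mul_assoc]
    _ = x * (c2 x y * c2 x y) * x := by rw [hx]; simp only [mul_assoc, one_mul]
    _ = 1 := by rw [h, mul_one, hx]

/-- a normal set of involutions which is compatible with `D` lies in `D` -/
theorem mem_of_set {D W : Set G} (hD : MaxLaw D) (hW2 : ∀ w ∈ W, w * w = 1)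
    (hWc : ∀ g : G, ∀ w ∈ W, g * w * g⁻¹ ∈ W)
    (h1 : ∀ w ∈ W, ∀ d ∈ D, c2 w d * c2 w d = 1)
    (h2 : ∀ w ∈ W, ∀ w' ∈ W, c2 w w' * c2 w w' = 1) : W ⊆ D := by
  have hunion : DLaw (D ∪ W) := by
    refine ⟨Or.inl hD.law.one, ?_, ?_, ?_⟩
    · rintro x (hx | hx)
      · exact hD.law.inv x hx
      · exact hW2 x hx
    · rintro g x (hx | hx)
      · exact Or.inl (hD.law.conj g x hx)
      · exact Or.inr (hWc g x hx)
    · rintro x (hx | hx) y (hy | hy)
      · exact hD.law.four x hx y hy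
      · exact c2_symm_one (hW2 y hy) (h1 y hy x hx)
      · exact h1 x hx y hy
      · exact h2 x hx y hy
  exact fun w hw => hD.max _ hunion Set.subset_union_left (Or.inr hw)

/-- single class absorption -/
theorem mem_of_class {D : Set G} (hD : MaxLaw D) {z : G} (hz : z * z = 1)
    (h1 : ∀ d ∈ D, c2 z d * c2 z d = 1)
    (h2 : ∀ g : G, c2 z (g * z * g⁻¹) * c2 z (g * z * g⁻¹) = 1) : z ∈ D := by
  have hsub : {w : G | ∃ g : G, w = g * z * g⁻¹} ⊆ D := by
    refine mem_of_set hD ?_ ?_ ?_ ?_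
    · rintro _ ⟨g, rfl⟩
      have e : g * z * g⁻¹ * (g * z * g⁻¹) = g * (z * z) * g⁻¹ := by group
      rw [e, hz]
      group
    · rintro h _ ⟨g, rfl⟩
      exact ⟨h * g, by group⟩
    · rintro _ ⟨g, rfl⟩ d hd
      rw [c2_conj_pair]
      have h3 := h1 (g⁻¹ * d * g) (by simpa using hD.law.conj g⁻¹ d hd)
      have e : ∀ t : G, g * t * g⁻¹ * (g * t * g⁻¹) = g * (t * t) * g⁻¹ := fun t => by group
      rw [e, h3]
      group
    · rintro _ ⟨g, rfl⟩ _ ⟨k, rfl⟩
      rw [c2_conj_pair]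
      have h3 := h2 (g⁻¹ * k)
      have e1 : g⁻¹ * (k * z * k⁻¹) * g = g⁻¹ * k * z * (g⁻¹ * k)⁻¹ := by group
      have e : ∀ t : G, g * t * g⁻¹ * (g * t * g⁻¹) = g * (t * t) * g⁻¹ := fun t => by group
      rw [e1, e, h3]
      group
  exact hsub ⟨1, by group⟩

/-- `DLaw` sets in terms of fourth powers -/
theorem four_of_pow {x y : G} (h : (x * y) ^ 4 = 1) : c2 x y * c2 x y = 1 := by
  rw [← h]
  simp only [c2_def, pow_succ, pow_zero, one_mul, mul_assoc]

theorem pow_of_four {x y : G} (h : c2 x y * c2 x y = 1) : (x * y) ^ 4 = 1 := by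
  rw [← h]
  simp only [c2_def, pow_succ, pow_zero, one_mul, mul_assoc]

theorem Thin.conj {D : Set G} (hD : DLaw D) {z : G} (h : Thin D z) (g : G) :
    Thin D (g * z * g⁻¹) := by
  intro d hd e he
  have h1 := h (g⁻¹ * d * g) (by simpa using hD.conj g⁻¹ d hd) (g⁻¹ * e * g)
    (by simpa using hD.conj g⁻¹ e he)
  have e1 : ∀ t : G, t * (g * z * g⁻¹) * t = g * (g⁻¹ * t * g * z * (g⁻¹ * t * g)) * g⁻¹ := by
    intro t
    group
  rw [e1 d, e1 e]
  have h2 : (g⁻¹ * d * g * z * (g⁻¹ * d * g)) * (g⁻¹ * e * g * z * (g⁻¹ * e * g)) =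
      (g⁻¹ * e * g * z * (g⁻¹ * e * g)) * (g⁻¹ * d * g * z * (g⁻¹ * d * g)) := h1
  have e2 : ∀ s t : G, g * s * g⁻¹ * (g * t * g⁻¹) = g * (s * t) * g⁻¹ := fun s t => by group
  show g * (g⁻¹ * d * g * z * (g⁻¹ * d * g)) * g⁻¹ * (g * (g⁻¹ * e * g * z * (g⁻¹ * e * g)) * g⁻¹) =
    g * (g⁻¹ * e * g * z * (g⁻¹ * e * g)) * g⁻¹ * (g * (g⁻¹ * d * g * z * (g⁻¹ * d * g)) * g⁻¹)
  rw [e2, e2, h2]

theorem Thin.one {D : Set G} (hD : DLaw D) : Thin D 1 := by
  intro d hd e he
  rw [mul_one, mul_one, hD.inv d hd]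
  exact Commute.one_left _

/-- the class of `z` together with `1` -/
def cls (z : G) : Set G := {w : G | w = 1 ∨ ∃ g : G, w = g * z * g⁻¹}

theorem cls_conj (z g : G) : ∀ w ∈ cls z, g * w * g⁻¹ ∈ cls z := by
  rintro _ (rfl | ⟨k, rfl⟩)
  · exact Or.inl (by group)
  · exact Or.inr ⟨g * k, by group⟩

theorem self_mem_cls (z : G) : z ∈ cls z := Or.inr ⟨1, by group⟩

theorem strong_trivial (hQ : NoLF G) {W : Set G} (hW : Strong W) : ∀ x ∈ W, x = 1 := by
  intro x hx
  have h1 := hQ (closure W) (closure_normal hW.conj) (lf_closure hW)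
  have h2 : x ∈ closure W := subset_closure hx
  rw [h1] at h2
  exact Subgroup.mem_bot.mp h2

/-- a thin element of `D` generates a strong class -/
theorem strong_of_thin {D : Set G} (hD : DLaw D) {z : G} (hz : z ∈ D) (h : Thin D z) :
    Strong (cls z) := by
  have hsub : cls z ⊆ D := by
    rintro _ (rfl | ⟨g, rfl⟩)
    · exact hD.one
    · exact hD.conj g z hz
  refine ⟨Or.inl rfl, fun x hx => hD.inv x (hsub hx), fun g x hx => cls_conj z g x hx,
    fun x hx y hy => hD.four x (hsub hx) y (hsub hy), ?_⟩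
  intro x hx y hy t ht
  have hthin : Thin D x := by
    rcases hx with rfl | ⟨g, rfl⟩
    · exact Thin.one hD
    · exact h.conj hD g
  have hxD := hsub hx
  have hyD := hsub hy
  have htD := hsub ht
  have e1 : c2 x y = x * (y * x * y) := by simp only [c2_def, mul_assoc]
  have e2 : c2 x t = x * (t * x * t) := by simp only [c2_def, mul_assoc]
  show Commute (c2 x y) (c2 x t)
  rw [e1, e2]
  have a1 := comm_of_four (hD.inv x hxD) (hD.inv y hyD) (hD.four x hxD y hyD)
  have a2 := comm_of_four (hD.inv x hxD) (hD.inv t htD) (hD.four x hxD t htD)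
  exact ((Commute.refl x).mul_right a2).mul_left (a1.symm.mul_right (hthin y hyD t htD))

theorem thin_mem (hQ : NoLF G) {D : Set G} (hD : DLaw D) {z : G} (hz : z ∈ D) (h : Thin D z) :
    z = 1 :=
  strong_trivial hQ (strong_of_thin hD hz h) z (self_mem_cls z)

theorem thin_comm (hQ : NoLF G) {D : Set G} (hD : MaxLaw D) {p q : G} (hp : p ∈ D) (hq : q ∈ D)
    (h : Thin D (c2 p q)) : c2 p q = 1 := by
  refine strong_trivial hQ (absorb hD.law hD.max (W := cls (c2 p q)) (Or.inl rfl) ?_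
    (fun g x hx => cls_conj _ g x hx) ?_) _ (self_mem_cls _)
  · rintro _ (rfl | ⟨g, rfl⟩)
    · exact ⟨1, hD.law.one, 1, hD.law.one, by simp [c2_def]⟩
    · exact ⟨_, hD.law.conj g p hp, _, hD.law.conj g q hq, conj_c2 g p q⟩
  · rintro _ (rfl | ⟨g, rfl⟩) d hd e he
    · exact Thin.one hD.law d hd e he
    · exact h.conj hD.law g d hd e he

/-- if `[a, b] = 1` for all `a, b ∈ D` then `D` is trivial -/
theorem abelian_trivial (hQ : NoLF G) {D : Set G} (hD : DLaw D)
    (h : ∀ a ∈ D, ∀ b ∈ D, c2 a b = 1) : ∀ x ∈ D, x = 1 := by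
  refine strong_trivial hQ ⟨hD.one, hD.inv, hD.conj, hD.four, ?_⟩
  intro x hx y hy z hz
  have h1 : Pool.Agent.Helper39.HT.cm x y = 1 := h x hx y hy
  rw [h1]
  exact Commute.one_left _

end basic

/-- **Reduction.** -/
theorem lf_of_chain (G : Type u) [Group G]
    (h : ∀ (N : Subgroup G) [N.Normal], NoLF (G ⧸ N) → ∀ E : Set (G ⧸ N), MaxLaw E →
      ∀ x ∈ E, x = 1)
    (D : Set G) (hD : DLaw D) : LF (closure D) := by
  obtain ⟨R, hRn, hR, hRmax⟩ := exists_max_lf G
  have hQ : NoLF (G ⧸ R) := by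
    intro N hN hN2
    have h1 : N.comap (QuotientGroup.mk' R) ≤ R := by
      refine hRmax _ inferInstance (lf_comap R hR N hN2) ?_
      intro x hx
      rw [Subgroup.mem_comap]
      have h2 : QuotientGroup.mk' R x = 1 := (QuotientGroup.eq_one_iff x).mpr hx
      rw [h2]
      exact one_mem _
    rw [Subgroup.eq_bot_iff_forall]
    intro z hz
    obtain ⟨x, rfl⟩ := QuotientGroup.mk'_surjective R z
    exact (QuotientGroup.eq_one_iff x).mpr (h1 hz)
  obtain ⟨E, hDE, hE, hmax⟩ := exists_max (hD.image _ (QuotientGroup.mk'_surjective R))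
  have h1 := h R hQ E ⟨hE, hmax⟩
  have h2 : closure D ≤ R := by
    rw [closure_le]
    intro x hx
    exact (QuotientGroup.eq_one_iff x).mp (h1 _ (hDE ⟨x, hx, rfl⟩))
  exact hR.mono h2

end Pool.Agent.Helper94.SV.Frame
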