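import Pool.Agent.Helper94.SV.K6
import Pool.Agent.Helper94.SV.JPlus
import Pool.Agent.Helper89.SV.Path

/-!
# Groups without section `P128`
-/

set_option autoImplicit false

open Subgroup

namespace Pool.Agent.Helper94.SV.K6

open Pool.Agent.Helper94.SV.Frame
open Pool.Agent.Helper89.SV (P3 Path)

universe u v

/-- no section `H / N` of `G` is isomorphic to `P128` -/
def NoP128 (G : Type u) [Group G] : Prop :=
  ∀ (H : Subgroup G) (N : Subgroup H) [N.Normal], IsEmpty ((H ⧸ N) ≃* P128)

theorem NoP128.surj {G : Type u} [Group G] (hG : NoP128 G) (H : Subgroup G) {K : Type v}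
    [Group K] (f : H →* K) (hf : Function.Surjective f) : IsEmpty (K ≃* P128) := by
  have e : H ⧸ f.ker ≃* K := QuotientGroup.quotientKerEquivOfSurjective f hf
  exact ⟨fun h => (hG H f.ker).false (e.trans h)⟩

theorem NoP128.image {G : Type u} [Group G] (hG : NoP128 G) {Q : Type v} [Group Q]
    (f : G →* Q) (hf : Function.Surjective f) : NoP128 Q := by
  intro H N _
  have hs : Function.Surjective ((QuotientGroup.mk' N).comp
      ((f.comp (H.comap f).subtype).codRestrict H (fun x => x.2))) := by
    intro y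
    obtain ⟨h, rfl⟩ := QuotientGroup.mk'_surjective N y
    obtain ⟨g, hg⟩ := hf h
    have hgH : g ∈ H.comap f := by
      rw [Subgroup.mem_comap, hg]
      exact h.2
    refine ⟨⟨g, hgH⟩, ?_⟩
    show QuotientGroup.mk' N _ = QuotientGroup.mk' N h
    congr 1
    exact Subtype.ext hg
  exact hG.surj (H.comap f) _ hs

theorem NoP128.of_injective {G : Type u} [Group G] (hG : NoP128 G) {K : Type v} [Group K]
    (f : K →* G) (hf : Function.Injective f) : NoP128 K := by
  intro H N _
  have e : H ≃* H.map f := H.equivMapOfInjective f hf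
  have hs : Function.Surjective ((QuotientGroup.mk' N).comp e.symm.toMonoidHom) := by
    intro y
    obtain ⟨h, rfl⟩ := QuotientGroup.mk'_surjective N y
    exact ⟨e h, by simp⟩
  exact hG.surj (H.map f) _ hs

theorem NoP128.subgroup {G : Type u} [Group G] (hG : NoP128 G) (H : Subgroup G) : NoP128 H :=
  hG.of_injective H.subtype H.subtype_injective

theorem NoP128.quotient {G : Type u} [Group G] (hG : NoP128 G) (N : Subgroup G) [N.Normal] :
    NoP128 (G ⧸ N) :=
  hG.image (QuotientGroup.mk' N) (QuotientGroup.mk'_surjective N)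

/-- the laws descend to a subgroup -/
theorem Laws.sub {G : Type u} [Group G] {T : Subgroup G} {x y z : T}
    (L : Laws (x : G) (y : G) (z : G)) : Laws x y z :=
  ⟨Subtype.ext L.hx, Subtype.ext L.hy, Subtype.ext L.hz, Subtype.ext L.hxy, Subtype.ext L.h1,
    Subtype.ext L.h2, Subtype.ext L.h3, Subtype.ext L.h4⟩

theorem NoP128.pow_four {G : Type u} [Group G] (hG : NoP128 G) {x y z : G} (L : Laws x y z) :
    (x * y * z) ^ 4 = 1 := by
  by_contra h4
  let T := closure ({x, y, z} : Set G)
  have hx : x ∈ T := Subgroup.subset_closure (Or.inl rfl)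
  have hy : y ∈ T := Subgroup.subset_closure (Or.inr (Or.inl rfl))
  have hz : z ∈ T := Subgroup.subset_closure (Or.inr (Or.inr rfl))
  have L' : Laws (⟨x, hx⟩ : T) ⟨y, hy⟩ ⟨z, hz⟩ := Laws.sub L
  have hT : closure ({⟨x, hx⟩, ⟨y, hy⟩, ⟨z, hz⟩} : Set T) = ⊤ := by
    have h := closure_closure_coe_preimage (k := ({x, y, z} : Set G))
    rw [eq_top_iff, ← h]
    apply Subgroup.closure_mono
    rintro ⟨t, ht⟩ ht2
    rcases ht2 with h | h | h
    · exact Or.inl (Subtype.ext h)
    · exact Or.inr (Or.inl (Subtype.ext h))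
    · exact Or.inr (Or.inr (Subtype.ext h))
  have hb := bijective_toT L' (fun h => h4 (congrArg Subtype.val h)) hT
  exact (hG.surj T (MonoidHom.id T) Function.surjective_id).false
    (MulEquiv.ofBijective (toT L') hb).symm

/-- the laws for three elements of a `DLaw` set, two of which commute -/
theorem laws_dlaw {G : Type u} [Group G] {E : Set G} (hE : DLaw E) {x y z : G} (hx : x ∈ E)
    (hy : y ∈ E) (hz : z ∈ E) (hxy : Commute x y) : Laws x y z := by
  have hxx := hE.inv x hx
  have hyy := hE.inv y hy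
  have hzz := hE.inv z hz
  exact ⟨hxx, hyy, hzz, hxy, comm_of_four hzz hxx (hE.four z hz x hx),
    comm_of_four hzz hyy (hE.four z hz y hy),
    hE.four z hz _ (hE.conj' (hE.conj' hz hyy) hxx), hE.four x hx _ (hE.conj' hy hzz)⟩

/-- **P128-free groups satisfy the path law** -/
theorem NoP128.path {G : Type u} [Group G] (hG : NoP128 G) {E : Set G} (hE : DLaw E) : Path E :=
  fun _ hx _ hy hxy _ hz => hG.pow_four (laws_dlaw hE hx hy hz hxy)

/-- if `N` is normalised by `x, y, z` and contains `[x, y]` then `(x y z)⁴ ∈ N` -/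
theorem NoP128.mem {G : Type u} [Group G] (hG : NoP128 G) {E : Set G} (hE : DLaw E) {x y z : G}
    (hx : x ∈ E) (hy : y ∈ E) (hz : z ∈ E) (N : Subgroup G) (hNx : ∀ n ∈ N, x * n * x ∈ N)
    (hNy : ∀ n ∈ N, y * n * y ∈ N) (hNz : ∀ n ∈ N, z * n * z ∈ N) (hxy : c2 x y ∈ N) :
    (x * y * z) ^ 4 ∈ N := by
  have hxx := hE.inv x hx
  have hyy := hE.inv y hy
  have hzz := hE.inv z hz
  have hnorm : ∀ t : G, t * t = 1 → (∀ n ∈ N, t * n * t ∈ N) → t ∈ normalizer (N : Set G) := by
    intro t ht h
    rw [mem_normalizer_iff]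
    intro n
    rw [inv_eq ht]
    constructor
    · exact h n
    · intro h1
      have h2 := h _ h1
      have e : t * (t * n * t) * t = n := by simp only [mul_assoc, canc ht, ht, mul_one]
      rwa [e] at h2
  let H := normalizer (N : Set G)
  have hxH : x ∈ H := hnorm x hxx hNx
  have hyH : y ∈ H := hnorm y hyy hNy
  have hzH : z ∈ H := hnorm z hzz hNz
  let N' : Subgroup H := N.subgroupOf H
  have hN' : N'.Normal := normal_in_normalizer
  let X : H := ⟨x, hxH⟩
  let Y : H := ⟨y, hyH⟩
  let Z : H := ⟨z, hzH⟩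
  let q := QuotientGroup.mk' N'
  have hq : ∀ p : H, (p : G) = 1 → q p = 1 := by
    intro p hp
    have : p = 1 := Subtype.ext hp
    rw [this, map_one]
  have hqc : ∀ p r : H, (p : G) * r = r * p → Commute (q p) (q r) := by
    intro p r hpr
    have : p * r = r * p := Subtype.ext hpr
    show q p * q r = q r * q p
    rw [← map_mul, this, map_mul]
  have hc : Commute (q X) (q Y) := by
    have h1 : q (X * Y * (X * Y)) = 1 := by
      refine (QuotientGroup.eq_one_iff _).mpr ?_
      exact hxy
    have h2 : (X * Y * (X * Y)) * (Y * X) = X * Y := by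
      apply Subtype.ext
      show x * y * (x * y) * (y * x) = x * y
      simp only [mul_assoc, canc hyy, hxx, mul_one]
    show q X * q Y = q Y * q X
    rw [← map_mul, ← map_mul, ← h2, map_mul, h1, one_mul]
  have hL : Laws (q X) (q Y) (q Z) := by
    refine ⟨?_, ?_, ?_, hc, ?_, ?_, ?_, ?_⟩
    · rw [← map_mul]
      exact hq _ hxx
    · rw [← map_mul]
      exact hq _ hyy
    · rw [← map_mul]
      exact hq _ hzz
    · rw [← map_mul, ← map_mul]
      exact hqc _ _ (comm_of_four hzz hxx (hE.four z hz x hx)).eq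
    · rw [← map_mul, ← map_mul]
      exact hqc _ _ (comm_of_four hzz hyy (hE.four z hz y hy)).eq
    · have h1 : q (Z * (X * (Y * Z * Y) * X) * (Z * (X * (Y * Z * Y) * X)) *
          (Z * (X * (Y * Z * Y) * X) * (Z * (X * (Y * Z * Y) * X)))) = 1 :=
        hq _ (hE.four z hz _ (hE.conj' (hE.conj' hz hyy) hxx))
      simpa only [map_mul, c2_def] using h1
    · have h1 : q (X * (Z * Y * Z) * (X * (Z * Y * Z)) *
          (X * (Z * Y * Z) * (X * (Z * Y * Z)))) = 1 := hq _ (hE.four x hx _ (hE.conj' hy hzz))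
      simpa only [map_mul, c2_def] using h1
  have h4 := ((hG.subgroup H).quotient N').pow_four hL
  have h5 : q ((X * Y * Z) ^ 4) = 1 := by
    rw [map_pow, map_mul, map_mul]
    exact h4
  have h6 : (X * Y * Z) ^ 4 ∈ N' := (QuotientGroup.eq_one_iff _).mp h5
  exact h6

end Pool.Agent.Helper94.SV.K6
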