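import Pool.Agent.Helper94.SV.KSec
import Pool.Agent.Helper46.SV.TriE

/-!
# The trichotomy law in groups without section `P128`

For `a, b, c` in a closed `DLaw` set `E` of a `P128`-free group one of these holds:
* `(a b c)⁴ = 1`;
* `w_a = w_b = w_c`;
* up to a cyclic permutation `w_a = w_b = 1` and `w_c = [a, b]` or `w_c = [a, b^c]`.
Here `w_a = w(a; b, c) = [a^b, a^c]`.
-/

set_option autoImplicit false
set_option linter.unusedSimpArgs false

open Subgroup

namespace Pool.Agent.Helper94.SV.TL

open Pool.Agent.Helper94.SV.Frame (c2 DLaw canc inv_eq pow_of_four four_of_pow)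
open Pool.Agent.Helper94.SV.K6 (NoP128 pw)
open Pool.Agent.Helper46.SV (kk cj ww omg cc cj_sq cj_cj cj_mul cj_kk inv_of commute_iff_cj cj_comm
  kk_of_comm comm_of_kk kk_eq mul_sq_comm comm_cj_right comm_kk_right comm_ww_right mul_comm_kk)
open Pool.Agent.Helper46.SV.TE

universe u

variable {G : Type u} [Group G]

/-- products of four commuting involutions -/
def qf (p q r s : G) (i j k l : Bool) : G := pw p i * (pw q j * (pw r k * pw s l))

section four

variable {p q r s : G} (hp : p * p = 1) (hq : q * q = 1) (hr : r * r = 1) (hs : s * s = 1)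
  (qp : q * p = p * q) (rp : r * p = p * r) (rq : r * q = q * r) (sp : s * p = p * s)
  (sq : s * q = q * s) (sr : s * r = r * s)
include hp hq hr hs qp rp rq sp sq sr

theorem qf_mul (i j k l : Bool) :
    qf p q r s i j k l * p = qf p q r s (!i) j k l ∧ qf p q r s i j k l * q = qf p q r s i (!j) k l ∧
    qf p q r s i j k l * r = qf p q r s i j (!k) l ∧ qf p q r s i j k l * s = qf p q r s i j k (!l) := by
  have tl : ∀ {a b c : G}, a * b = c → ∀ w : G, a * (b * w) = c * w := by
    intro a b c h w
    rw [← mul_assoc, h]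
  have h0 := tl hp
  have h1 := tl hq
  have h2 := tl hr
  have h3 := tl hs
  have t1 := tl qp
  have t2 := tl rp
  have t3 := tl rq
  have t4 := tl sp
  have t5 := tl sq
  have t6 := tl sr
  simp only [mul_assoc] at h0 h1 h2 h3 t1 t2 t3 t4 t5 t6
  refine ⟨?_, ?_, ?_, ?_⟩ <;> cases i <;> cases j <;> cases k <;> cases l <;>
    simp only [qf, pw, mul_assoc, one_mul, mul_one, hp, hq, hr, hs, qp, rp, rq, sp, sq, sr, h0, h1, h2,
      h3, t1, t2, t3, t4, t5, t6, if_true, if_false, Bool.not_true, Bool.not_false, reduceCtorEq]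

theorem mem_qf {g : G} (hg : g ∈ closure ({p, q, r, s} : Set G)) :
    ∃ i j k l : Bool, g = qf p q r s i j k l := by
  have hstep : ∀ t ∈ ({p, q, r, s} : Set G), ∀ i j k l : Bool, ∃ i' j' k' l' : Bool,
      qf p q r s i j k l * t = qf p q r s i' j' k' l' := by
    intro t ht i j k l
    obtain ⟨e1, e2, e3, e4⟩ := qf_mul hp hq hr hs qp rp rq sp sq sr i j k l
    rcases ht with rfl | rfl | rfl | rfl
    · exact ⟨_, _, _, _, e1⟩
    · exact ⟨_, _, _, _, e2⟩
    · exact ⟨_, _, _, _, e3⟩
    · exact ⟨_, _, _, _, e4⟩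
  have hinv : ∀ t ∈ ({p, q, r, s} : Set G), t⁻¹ = t := by
    rintro t (rfl | rfl | rfl | rfl)
    · exact inv_eq hp
    · exact inv_eq hq
    · exact inv_eq hr
    · exact inv_eq hs
  induction hg using Subgroup.closure_induction_right with
  | one => exact ⟨false, false, false, false, by simp [qf, pw]⟩
  | mul_right g hg t ht ih =>
    obtain ⟨i, j, k, l, rfl⟩ := ih
    exact hstep t ht i j k l
  | mul_inv_cancel g hg t ht ih =>
    obtain ⟨i, j, k, l, rfl⟩ := ih
    rw [hinv t ht]
    exact hstep t ht i j k l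

end four

theorem conj_closure {S : Set G} {t : G} (ht : t * t = 1) (h : ∀ s ∈ S, t * s * t ∈ closure S) :
    ∀ n ∈ closure S, t * n * t ∈ closure S := by
  intro n hn
  induction hn using Subgroup.closure_induction with
  | mem s hs => exact h s hs
  | one => rw [mul_one, ht]; exact one_mem _
  | mul a b _ _ iha ihb =>
    have e : t * (a * b) * t = (t * a * t) * (t * b * t) := by simp only [mul_assoc, canc ht]
    rw [e]
    exact mul_mem iha ihb
  | inv a _ iha =>
    have e : t * a⁻¹ * t = (t * a * t)⁻¹ := by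
      rw [mul_inv_rev, mul_inv_rev, inv_eq ht, mul_assoc]
    rw [e]
    exact inv_mem iha

theorem law_of {E : Set G} (hE : DLaw E) (hC : ∀ a ∈ E, ∀ b ∈ E, c2 a b ∈ E) : Law E :=
  { inv := hE.inv
    conj := hE.conj
    four := fun x hx y hy => pow_of_four (hE.four x hx y hy)
    vone := fun x hx y hy z hz => pow_of_four (hE.four _ (hC x hx y hy) z hz) }

/-- the position of `w_z` -/
theorem pos (hG : NoP128 G) {E : Set G} (hE : DLaw E) (L : Law E) {x y z : G} (hx : x ∈ E)
    (hy : y ∈ E) (hz : z ∈ E) :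
    (∃ k l : Bool, ww z x y = pw (ww x y z) k * pw (ww y z x) l) ∨
    (ww x y z = 1 ∧ ww y z x = 1 ∧ (ww z x y = kk x y ∨ ww z x y = kk (kk x y) z)) := by
  have hxx := hE.inv x hx
  have hyy := hE.inv y hy
  have hzz := hE.inv z hz
  have d := L.toDL
  -- the four elements
  have huu : kk x y * kk x y = 1 := ek_sq d hx hy
  have ux : Commute (kk x y) x := ek_left d hx hy
  have uy : Commute (kk x y) y := ek_right d hx hy
  have hee : cj (kk x y) z * cj (kk x y) z = 1 := cj_sq huu hzz
  have ue : Commute (kk x y) (cj (kk x y) z) := comm_cj huu hzz (L.vone x hx y hy z hz)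
  have a1 : Commute (ww x y z) x := ww_comm_self L hy hx hz
  have a2 : Commute (ww x y z) y := ww_comm_left L hy hx hz
  have a3 : Commute (ww x y z) z := ww_comm_right L hy hx hz
  have b1 : Commute (ww y z x) x := ww_comm_right L hz hy hx
  have b2 : Commute (ww y z x) y := ww_comm_self L hz hy hx
  have b3 : Commute (ww y z x) z := ww_comm_left L hz hy hx
  have c1 : Commute (ww z x y) x := ww_comm_left L hx hz hy
  have c2' : Commute (ww z x y) y := ww_comm_right L hx hz hy
  have c3 : Commute (ww z x y) z := ww_comm_self L hx hz hy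
  have hA : ww x y z * ww x y z = 1 := ww_sq L hy hx hz
  have hB : ww y z x * ww y z x = 1 := ww_sq L hz hy hx
  have hC : ww z x y * ww z x y = 1 := ww_sq L hx hz hy
  have e_x : cj (cj (kk x y) z) x = cj (kk x y) z * ww x y z := cj_e L hx hy hz
  have e_y : cj (cj (kk x y) z) y = cj (kk x y) z * ww y z x := by
    have h := cj_e L hy hx hz
    rw [ek_comm d hy hx, ww_symm L hx hy hz] at h
    exact h
  have u_x : cj (kk x y) x = kk x y := (commute_iff_cj hxx).mp ux
  have u_y : cj (kk x y) y = kk x y := (commute_iff_cj hyy).mp uy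
  have om : (x * y * z) ^ 4 = ww x y z * ww y z x * ww z x y := abc_four L hx hy hz
  have keq : kk (kk x y) z = kk x y * cj (kk x y) z := kk_eq _ _
  have e_z : cj (cj (kk x y) z) z = kk x y := cj_cj hzz
  have uA : Commute (ww x y z) (kk x y) := comm_kk_right a1 a2
  have uB : Commute (ww y z x) (kk x y) := comm_kk_right b1 b2
  have eA : Commute (ww x y z) (cj (kk x y) z) := comm_cj_right uA a3
  have eB : Commute (ww y z x) (cj (kk x y) z) := comm_cj_right uB b3
  have AB : Commute (ww y z x) (ww x y z) := comm_ww_right b1 b2 b3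
  have hmem := hG.mem hE hx hy hz (closure ({kk x y, cj (kk x y) z, ww x y z, ww y z x} : Set G))
  rw [om] at hmem
  have hfix : ∀ {w t : G}, Commute w t → t * t = 1 → t * w * t = w := by
    intro w t h ht
    rw [← h.eq, mul_assoc, ht, mul_one]
  have hin : ∀ s ∈ ({kk x y, cj (kk x y) z, ww x y z, ww y z x} : Set G),
      s ∈ closure ({kk x y, cj (kk x y) z, ww x y z, ww y z x} : Set G) := fun s hs =>
    Subgroup.subset_closure hs
  have m1 := hin _ (Or.inl rfl)
  have m2 := hin _ (Or.inr (Or.inl rfl))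
  have m3 := hin _ (Or.inr (Or.inr (Or.inl rfl)))
  have m4 := hin _ (Or.inr (Or.inr (Or.inr rfl)))
  have hN := hmem ?_ ?_ ?_ m1
  · have hCm : ww z x y ∈ closure ({kk x y, cj (kk x y) z, ww x y z, ww y z x} : Set G) := by
      have h1 := mul_mem (inv_mem (mul_mem m3 m4)) hN
      rwa [inv_mul_cancel_left] at h1
    obtain ⟨i, j, k, l, hC'⟩ := mem_qf huu hee hA hB ue.eq.symm uA.eq eA.eq uB.eq eB.eq AB.eq hCm
    clear hmem hN hCm m1 m2 m3 m4 hin om
    generalize kk (kk x y) z = V at *
    change x * cj (kk x y) z * x = _ at e_x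
    change y * cj (kk x y) z * y = _ at e_y
    change z * cj (kk x y) z * z = _ at e_z
    have u_z : z * kk x y * z = cj (kk x y) z := rfl
    change x * kk x y * x = _ at u_x
    change y * kk x y * y = _ at u_y
    generalize cj (kk x y) z = e at *
    generalize kk x y = uu at *
    generalize ww x y z = A at *
    generalize ww y z x = B at *
    generalize ww z x y = C at *
    have cx : x * C * x = C := hfix c1 hxx
    have cy : y * C * y = C := hfix c2' hyy
    have cz : z * C * z = C := hfix c3 hzz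
    have pwc : ∀ {w t : G} (b : Bool), Commute w t → Commute (pw w b) t := by
      intro w t b h
      cases b
      · exact Commute.one_left _
      · exact h
    have Rx : x * (pw A k * pw B l) * x = pw A k * pw B l := hfix ((pwc k a1).mul_left (pwc l b1)) hxx
    have Ry : y * (pw A k * pw B l) * y = pw A k * pw B l := hfix ((pwc k a2).mul_left (pwc l b2)) hyy
    have Rz : z * (pw A k * pw B l) * z = pw A k * pw B l := hfix ((pwc k a3).mul_left (pwc l b3)) hzz
    have hmul : ∀ {t : G} (_ : t * t = 1) (a b : G), t * (a * b) * t = t * a * t * (t * b * t) := by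
      intro t ht a b
      simp only [mul_assoc, canc ht]
    have hpw1 : ∀ b : Bool, pw (1 : G) b = 1 := by
      intro b
      cases b <;> rfl
    -- conclusion when `e = uu`
    have fin : e = uu → A = 1 ∧ B = 1 := by
      intro h
      rw [h, u_x] at e_x
      rw [h, u_y] at e_y
      exact ⟨(mul_eq_left.mp e_x.symm), (mul_eq_left.mp e_y.symm)⟩
    cases i <;> cases j
    · left
      refine ⟨k, l, ?_⟩
      rw [hC']
      simp [qf, pw]
    · right
      have h1 : C = e * (pw A k * pw B l) := by
        rw [hC']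
        simp [qf, pw]
      have h2 : e = uu := by
        have h3 : z * C * z = uu * (pw A k * pw B l) := by
          rw [h1, hmul hzz, e_z, Rz]
        rw [cz, h1] at h3
        exact mul_right_cancel h3
      obtain ⟨rfl, rfl⟩ := fin h2
      refine ⟨rfl, rfl, Or.inl ?_⟩
      rw [h1, hpw1, hpw1, mul_one, mul_one, h2]
    · right
      have h1 : C = uu * (pw A k * pw B l) := by
        rw [hC']
        simp [qf, pw]
      have h2 : e = uu := by
        have h3 : z * C * z = e * (pw A k * pw B l) := by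
          rw [h1, hmul hzz, u_z, Rz]
        rw [cz, h1] at h3
        exact (mul_right_cancel h3).symm
      obtain ⟨rfl, rfl⟩ := fin h2
      refine ⟨rfl, rfl, Or.inl ?_⟩
      rw [h1, hpw1, hpw1, mul_one, mul_one]
    · right
      have h1 : C = uu * e * (pw A k * pw B l) := by
        rw [hC']
        simp [qf, pw, mul_assoc]
      have hA1 : A = 1 := by
        have h3 : x * C * x = uu * (e * A) * (pw A k * pw B l) := by
          rw [h1, hmul hxx, hmul hxx, u_x, e_x, Rx]
        rw [cx, h1] at h3
        have h4 := mul_left_cancel (mul_right_cancel h3)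
        exact mul_eq_left.mp h4.symm
      have hB1 : B = 1 := by
        have h3 : y * C * y = uu * (e * B) * (pw A k * pw B l) := by
          rw [h1, hmul hyy, hmul hyy, u_y, e_y, Ry]
        rw [cy, h1] at h3
        have h4 := mul_left_cancel (mul_right_cancel h3)
        exact mul_eq_left.mp h4.symm
      subst hA1 hB1
      refine ⟨rfl, rfl, Or.inr ?_⟩
      rw [h1, hpw1, hpw1, mul_one, mul_one, keq]
  · refine conj_closure hxx ?_
    rintro s (rfl | rfl | rfl | rfl)
    · rw [hfix ux hxx]; exact m1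
    · have h : x * cj (kk x y) z * x = cj (kk x y) z * ww x y z := e_x
      rw [h]; exact mul_mem m2 m3
    · rw [hfix a1 hxx]; exact m3
    · rw [hfix b1 hxx]; exact m4
  · refine conj_closure hyy ?_
    rintro s (rfl | rfl | rfl | rfl)
    · rw [hfix uy hyy]; exact m1
    · have h : y * cj (kk x y) z * y = cj (kk x y) z * ww y z x := e_y
      rw [h]; exact mul_mem m2 m4
    · rw [hfix a2 hyy]; exact m3
    · rw [hfix b2 hyy]; exact m4
  · refine conj_closure hzz ?_
    rintro s (rfl | rfl | rfl | rfl)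
    · exact m2
    · have h : z * cj (kk x y) z * z = kk x y := e_z
      rw [h]; exact m1
    · rw [hfix a3 hzz]; exact m3
    · rw [hfix b3 hzz]; exact m4

/-- the exceptional type -/
def Exc (x y z : G) : Prop :=
  ww x y z = 1 ∧ ww y z x = 1 ∧ (ww z x y = kk x y ∨ ww z x y = kk x (cj y z))

/-- replacing `y` by `y^z` does not change the three elements -/
theorem ww_shift {E : Set G} (L : Law E) {x y z : G} (hx : x ∈ E) (hy : y ∈ E) (hz : z ∈ E) :
    ww x (cj y z) z = ww x y z ∧ ww (cj y z) z x = ww y z x ∧ ww z x (cj y z) = ww z x y := by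
  have d := L.toDL
  have hxx := L.inv x hx
  have hyy := L.inv y hy
  have hzz := L.inv z hz
  refine ⟨?_, ?_, ?_⟩
  · have e1 : cj x (cj y z) = cj (cj (cj x z) y) z := by
      show z * y * z * x * (z * y * z) = z * (y * (z * x * z) * y) * z
      simp only [mul_assoc]
    have e2 : kk (cj (cj x z) y) x = ww x y z := by
      rw [ww_symm L hy hx hz, ww_aux L hz hx hy, ek_comm d (ej d (ej d hx hz) hy) hx]
    show kk (cj x (cj y z)) (cj x z) = ww x y z
    rw [e1, ← cj_kk hzz, e2]
    exact (commute_iff_cj hzz).mp (ww_comm_right L hy hx hz)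
  · show kk (cj (cj y z) z) (cj (cj y z) x) = ww y z x
    rw [cj_cj hzz, ← ww_aux L hz hy hx]
  · have e1 : cj z (cj y z) = cj z y := by
      have h1 : cj z (cj y z) = cj (cj z y) z := by
        show z * y * z * z * (z * y * z) = z * (y * z * y) * z
        simp only [mul_assoc, canc hzz]
      rw [h1]
      exact (commute_iff_cj hzz).mp (ec d hz hy).symm
    show kk (cj z x) (cj z (cj y z)) = ww z x y
    rw [e1]
    rfl

/-- two of the three elements are trivial -/
theorem of_two (hG : NoP128 G) {E : Set G} (hE : DLaw E) (L : Law E) {x y z : G} (hx : x ∈ E)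
    (hy : y ∈ E) (hz : z ∈ E) (hA : ww x y z = 1) (hB : ww y z x = 1) :
    ww z x y = 1 ∨ Exc x y z := by
  have d := L.toDL
  have hpw1 : ∀ b : Bool, pw (1 : G) b = 1 := by
    intro b
    cases b <;> rfl
  obtain ⟨s1, s2, s3⟩ := ww_shift L hx hy hz
  have hyz := ej d hy hz
  rcases pos hG hE L hx hy hz with ⟨k, l, h⟩ | ⟨_, _, h | h⟩
  · left
    rw [h, hA, hB, hpw1, hpw1, mul_one]
  · exact Or.inr ⟨hA, hB, Or.inl h⟩
  rcases pos hG hE L hx hyz hz with ⟨k, l, h'⟩ | ⟨_, _, h' | h'⟩
  · left
    rw [s1, s2, s3] at h'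
    rw [h', hA, hB, hpw1, hpw1, mul_one]
  · rw [s3] at h'
    exact Or.inr ⟨hA, hB, Or.inr h'⟩
  · left
    rw [s3] at h'
    have h1 := D_rel L hx hy hz
    rw [← h, ← h'] at h1
    exact mul_eq_left.mp h1

/-- **the trichotomy law** -/
theorem tl (hG : NoP128 G) {E : Set G} (hE : DLaw E) (hC : ∀ a ∈ E, ∀ b ∈ E, c2 a b ∈ E) {x y z : G}
    (hx : x ∈ E) (hy : y ∈ E) (hz : z ∈ E) :
    (x * y * z) ^ 4 = 1 ∨ (ww x y z = ww y z x ∧ ww y z x = ww z x y) ∨ Exc x y z ∨ Exc y z x ∨
      Exc z x y := by
  have L := law_of hE hC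
  have om : (x * y * z) ^ 4 = ww x y z * ww y z x * ww z x y := abc_four L hx hy hz
  rw [om]
  have hA : ww x y z * ww x y z = 1 := ww_sq L hy hx hz
  have hB : ww y z x * ww y z x = 1 := ww_sq L hz hy hx
  have hCC : ww z x y * ww z x y = 1 := ww_sq L hx hz hy
  have AB : ww x y z * ww y z x = ww y z x * ww x y z := (ww_ww L hx hy hz).eq
  have k3 : ww x y z = 1 → ww y z x = 1 → ww x y z * ww y z x * ww z x y = 1 ∨
      (ww x y z = ww y z x ∧ ww y z x = ww z x y) ∨ Exc x y z ∨ Exc y z x ∨ Exc z x y := by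
    intro h1 h2
    rcases of_two hG hE L hx hy hz h1 h2 with h | h
    · left
      rw [h1, h2, h, mul_one, mul_one]
    · exact Or.inr (Or.inr (Or.inl h))
  have k1 : ww y z x = 1 → ww z x y = 1 → ww x y z * ww y z x * ww z x y = 1 ∨
      (ww x y z = ww y z x ∧ ww y z x = ww z x y) ∨ Exc x y z ∨ Exc y z x ∨ Exc z x y := by
    intro h1 h2
    rcases of_two hG hE L hy hz hx h1 h2 with h | h
    · left
      rw [h1, h2, h, mul_one, mul_one]
    · exact Or.inr (Or.inr (Or.inr (Or.inl h)))
  have k2 : ww z x y = 1 → ww x y z = 1 → ww x y z * ww y z x * ww z x y = 1 ∨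
      (ww x y z = ww y z x ∧ ww y z x = ww z x y) ∨ Exc x y z ∨ Exc y z x ∨ Exc z x y := by
    intro h1 h2
    rcases of_two hG hE L hz hx hy h1 h2 with h | h
    · left
      rw [h1, h2, h, mul_one, mul_one]
    · exact Or.inr (Or.inr (Or.inr (Or.inr h)))
  rcases pos hG hE L hx hy hz with ⟨k, l, hc⟩ | ⟨h1, h2, _⟩
  swap
  · exact k3 h1 h2
  rcases pos hG hE L hy hz hx with ⟨k', l', ha⟩ | ⟨h1, h2, _⟩
  swap
  · exact k1 h1 h2
  rcases pos hG hE L hz hx hy with ⟨k'', l'', hb⟩ | ⟨h1, h2, _⟩
  swap
  · exact k2 h1 h2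
  clear k1 k2 k3
  generalize ww x y z = A at *
  generalize ww y z x = B at *
  generalize ww z x y = C at *
  cases k <;> cases l <;> simp only [pw, if_true, if_false, one_mul, mul_one, reduceCtorEq] at hc
  · -- `C = 1`
    subst hc
    cases k' <;> cases l' <;> simp only [pw, if_true, if_false, one_mul, mul_one, reduceCtorEq] at ha
    · subst ha
      left
      cases k'' <;> cases l'' <;> simp only [pw, if_true, if_false, one_mul, mul_one, reduceCtorEq] at hb <;>
        rw [hb] <;> simp
    · subst ha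
      left
      cases k'' <;> cases l'' <;> simp only [pw, if_true, if_false, one_mul, mul_one, reduceCtorEq] at hb <;>
        rw [hb] <;> simp
    · left
      rw [ha, hB, one_mul]
    · left
      rw [ha, hB, one_mul]
  · -- `C = B`
    subst hc
    cases k' <;> cases l' <;> simp only [pw, if_true, if_false, one_mul, mul_one, reduceCtorEq] at ha
    · left
      rw [ha, one_mul, hB]
    · exact Or.inr (Or.inl ⟨ha, rfl⟩)
    · exact Or.inr (Or.inl ⟨ha, rfl⟩)
    · left
      rw [ha, hB, one_mul, hB]
  · -- `C = A`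
    subst hc
    cases k'' <;> cases l'' <;> simp only [pw, if_true, if_false, one_mul, mul_one, reduceCtorEq] at hb
    · left
      rw [hb, mul_one, hA]
    · exact Or.inr (Or.inl ⟨hb.symm, hb⟩)
    · exact Or.inr (Or.inl ⟨hb.symm, hb⟩)
    · left
      rw [hb, hA, mul_one, hA]
  · left
    rw [hc]
    exact mul_sq_comm AB hA hB

end Pool.Agent.Helper94.SV.TL
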