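import Pool.Agent.Helper94.SV.Rel

/-!
# Baer–Suzuki for involutions with products of order dividing 4 (Alperin–Lyons argument)
-/

set_option autoImplicit false

open Subgroup Pointwise

namespace Pool.Agent.Helper94.SV

universe u

variable {H : Type u} [Group H]

/-- In a finite 2-group `S` a proper closed part `E` of an invariant set `E'` is normalised by an
element of `E'` outside `E`. -/
theorem exists_normalizing : ∀ (n : ℕ) (S : Subgroup H) (E E' : Set H), (S : Set H).Finite →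
    IsPGroup 2 S → Nat.card S ≤ n → E' ⊆ S → (∀ s ∈ S, ∀ e ∈ E', s * e * s⁻¹ ∈ E') → E ⊆ E' →
    ¬ E' ⊆ E → E' ∩ closure E ⊆ E → ∃ x ∈ E', x ∉ E ∧ ∀ e ∈ E, x * e * x⁻¹ ∈ E := by
  intro n
  induction n with
  | zero =>
    intro S E E' hS _ hn _ _ _ _ _
    exfalso
    have : Finite S := hS
    have := Nat.card_pos (α := S)
    omega
  | succ n ih =>
    intro S E E' hS h2 hn hE'S hinv hEE' hne hcl
    have hSfin : Finite S := hS
    have hle : closure E ≤ S := by
      rw [closure_le]; exact hEE'.trans hE'S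
    have hlt : closure E < S := by
      refine lt_of_le_of_ne hle (fun h => hne ?_)
      intro e he
      exact hcl ⟨he, by rw [h]; exact hE'S he⟩
    obtain ⟨M, hEM, hMS, hMn⟩ := exists_normal_lt hS h2 hlt
    by_cases hM : E' ∩ M ⊆ E
    · obtain ⟨x, hx, hxE⟩ := Set.not_subset.1 hne
      refine ⟨x, hx, hxE, fun e he => hM ⟨hinv x (hE'S hx) e (hEE' he), ?_⟩⟩
      exact hMn x (hE'S hx) e (hEM (subset_closure he))
    · have hMfin : (M : Set H).Finite := hS.subset hMS.le
      have hMfin' : Finite M := hMfin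
      have hcard : Nat.card M ≤ n := by
        by_contra hcon
        have h1 : Nat.card S ≤ Nat.card M := by omega
        exact hMS.ne (Subgroup.eq_of_le_of_card_ge hMS.le h1)
      obtain ⟨x, hx, hxE, hxn⟩ := ih M E (E' ∩ M) hMfin (h2.to_le hMS.le) hcard
        Set.inter_subset_right
        (fun s hs e he => ⟨hinv s (hMS.le hs) e he.1, M.mul_mem (M.mul_mem hs he.2) (M.inv_mem hs)⟩)
        (fun e he => ⟨hEE' he, hEM (subset_closure he)⟩) hM
        (fun e he => hcl ⟨he.1.1, he.2⟩)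
      exact ⟨x, hx.1, hxE, hxn⟩

theorem isPGroup_pair {x y : H} (hx : x * x = 1) (hy : y * y = 1) (hxy : (x * y) ^ 4 = 1) :
    IsPGroup 2 (closure {x, y} : Subgroup H) := by
  have hxi : x⁻¹ = x := inv_eq_of_mul_eq_one_right hx
  have hyi : y⁻¹ = y := inv_eq_of_mul_eq_one_right hy
  have h1 : IsPGroup 2 (zpowers (x * y)) := by
    rintro ⟨_, k, rfl⟩
    refine ⟨2, Subtype.ext ?_⟩
    change ((x * y) ^ k) ^ (2 ^ 2) = 1
    rw [← zpow_natCast, ← zpow_mul, mul_comm, zpow_mul, zpow_natCast]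
    norm_num
    rw [hxy, one_zpow]
  have h2 : IsPGroup 2 (zpowers x) := by
    rintro ⟨_, k, rfl⟩
    refine ⟨1, Subtype.ext ?_⟩
    change (x ^ k) ^ (2 ^ 1) = 1
    rw [pow_one, ← zpow_natCast, ← zpow_mul, mul_comm, zpow_mul, zpow_natCast, sq, hx, one_zpow]
  have h3 : zpowers x ≤ normalizer (zpowers (x * y) : Set H) := by
    rw [zpowers_le, mem_normalizer_iff]
    have hconj : ∀ k : ℤ, x * (x * y) ^ k * x⁻¹ = (x * y) ^ (-k) := by
      intro k
      rw [← conj_zpow, zpow_neg, ← inv_zpow, mul_inv_rev, hyi, hxi]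
      congr 1
      calc x * (x * y) * x = (x * x) * y * x := by group
        _ = y * x := by rw [hx, one_mul]
    intro g
    constructor
    · rintro ⟨k, rfl⟩
      exact ⟨-k, (hconj k).symm⟩
    · rintro ⟨k, hk⟩
      refine ⟨-k, ?_⟩
      have h4 : g = x * (x * y) ^ k * x⁻¹ := by
        change (x * y) ^ k = x * g * x⁻¹ at hk
        rw [hk, hxi]
        calc g = (x * x) * g * (x * x) := by rw [hx]; group
          _ = _ := by group
      rw [h4, hconj]
  have h5 := IsPGroup.to_sup_of_normal_right' h2 h1 h3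
  refine h5.to_le ?_
  rw [closure_le]
  rintro z (rfl | rfl)
  · exact mem_sup_left (mem_zpowers _)
  · have h6 : z = x * (x * z) := by rw [← mul_assoc, hx, one_mul]
    have h7 : x * (x * z) ∈ zpowers x ⊔ zpowers (x * z) :=
      mul_mem (mem_sup_left (mem_zpowers _)) (mem_sup_right (mem_zpowers _))
    rw [← h6] at h7
    exact h7

/-- Baer–Suzuki in the case needed here. -/
theorem isPGroup_of_involutions [Finite H] {D : Set H} (hDc : ∀ g : H, ∀ d ∈ D, g * d * g⁻¹ ∈ D)
    (hD2 : ∀ d ∈ D, d * d = 1) (hD4 : ∀ a ∈ D, ∀ b ∈ D, (a * b) ^ 4 = 1) (hgen : closure D = ⊤) :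
    IsPGroup 2 H := by
  have : Fact (Nat.Prime 2) := ⟨Nat.prime_two⟩
  -- all Sylow subgroups contain the same elements of `D`
  have hcardle : ∀ P Q : Sylow 2 H, (D ∩ (P : Set H)).ncard ≤ (D ∩ (Q : Set H)).ncard := by
    intro P Q
    obtain ⟨g, hg⟩ := MulAction.exists_smul_eq H P Q
    have hinj : Function.Injective (fun d : H => g * d * g⁻¹) := fun a b h => by simpa using h
    rw [← Set.ncard_image_of_injective _ hinj]
    refine Set.ncard_le_ncard ?_ (Set.toFinite _)
    rintro _ ⟨d, ⟨hdD, hdP⟩, rfl⟩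
    refine ⟨hDc g d hdD, ?_⟩
    rw [← hg]
    have h1 : MulAut.conj g • d ∈ MulAut.conj g • (P : Subgroup H) :=
      Subgroup.smul_mem_pointwise_smul _ _ _ hdP
    exact h1
  have hall : ∀ P Q : Sylow 2 H, D ∩ (P : Set H) = D ∩ (Q : Set H) := by
    by_contra hcon
    push Not at hcon
    obtain ⟨P₀, Q₀, hPQ₀⟩ := hcon
    let C : Set (Sylow 2 H × Sylow 2 H) := {q | D ∩ (q.1 : Set H) ≠ D ∩ (q.2 : Set H)}
    obtain ⟨⟨P, Q⟩, hPQ, hmax⟩ := Set.exists_max_image C
      (fun q => (D ∩ (q.1 : Set H) ∩ (q.2 : Set H)).ncard) (Set.toFinite _) ⟨(P₀, Q₀), hPQ₀⟩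
    change D ∩ (P : Set H) ≠ D ∩ (Q : Set H) at hPQ
    set E : Set H := D ∩ (P : Set H) ∩ (Q : Set H) with hE
    have hnotsub : ∀ R R' : Sylow 2 H, D ∩ (R : Set H) ≠ D ∩ (R' : Set H) →
        ¬ D ∩ (R : Set H) ⊆ R' := by
      intro R R' hRR' hsub
      apply hRR'
      exact Set.eq_of_subset_of_ncard_le (fun d hd => ⟨hd.1, hsub hd⟩) (hcardle R' R)
        (Set.toFinite _)
    have hx := exists_normalizing (Nat.card P) P E (D ∩ P) (Set.toFinite _) P.isPGroup' le_rfl
      Set.inter_subset_right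
      (fun s hs e he => ⟨hDc s e he.1, mul_mem (mul_mem hs he.2) (inv_mem hs)⟩)
      (fun e he => he.1) (fun h => hnotsub P Q hPQ (fun d hd => (h hd).2)) (by
        rintro e ⟨⟨heD, heP⟩, hecl⟩
        refine ⟨⟨heD, heP⟩, ?_⟩
        have h1 : closure E ≤ Q := by
          rw [closure_le]; exact fun e he => he.2
        exact h1 hecl)
    have hy := exists_normalizing (Nat.card Q) Q E (D ∩ Q) (Set.toFinite _) Q.isPGroup' le_rfl
      Set.inter_subset_right
      (fun s hs e he => ⟨hDc s e he.1, mul_mem (mul_mem hs he.2) (inv_mem hs)⟩)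
      (fun e he => ⟨he.1.1, he.2⟩) (fun h => hnotsub Q P hPQ.symm (fun d hd => (h hd).1.2)) (by
        rintro e ⟨⟨heD, heQ⟩, hecl⟩
        refine ⟨⟨heD, ?_⟩, heQ⟩
        have h1 : closure E ≤ P := by
          rw [closure_le]; exact fun e he => he.1.2
        exact h1 hecl)
    obtain ⟨x, hxP, hxE, hxn⟩ := hx
    obtain ⟨y, hyQ, hyE, hyn⟩ := hy
    have hEnorm : ∀ z : H, (∀ e ∈ E, z * e * z⁻¹ ∈ E) → z * z = 1 →
        z ∈ normalizer (closure E : Set H) := by
      intro z hz hz2
      have hzi : z⁻¹ = z := inv_eq_of_mul_eq_one_right hz2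
      have h1 : closure E ≤ (closure E).comap (MulAut.conj z).toMonoidHom := by
        rw [closure_le]
        exact fun e he => subset_closure (hz e he)
      rw [mem_normalizer_iff]
      intro g
      refine ⟨fun hg => h1 hg, fun hg => ?_⟩
      have h2 : z * (z * g * z⁻¹) * z⁻¹ ∈ closure E := h1 hg
      rw [hzi] at h2
      have h3 : z * (z * g * z) * z = g := by
        calc z * (z * g * z) * z = (z * z) * g * (z * z) := by group
          _ = g := by rw [hz2]; group
      rwa [h3] at h2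
    have hT : IsPGroup 2 (closure {x, y} ⊔ closure E : Subgroup H) := by
      refine IsPGroup.to_sup_of_normal_right' (isPGroup_pair (hD2 x hxP.1) (hD2 y hyQ.1)
        (hD4 x hxP.1 y hyQ.1)) (P.isPGroup'.to_le ?_) ?_
      · rw [closure_le]; exact fun e he => he.1.2
      · rw [closure_le]
        rintro z (rfl | rfl)
        · exact hEnorm z hxn (hD2 z hxP.1)
        · exact hEnorm z hyn (hD2 z hyQ.1)
    obtain ⟨R, hR⟩ := hT.exists_le_sylow
    have hER : ∀ e ∈ E, e ∈ R := fun e he => hR (mem_sup_right (subset_closure he))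
    have hxR : x ∈ R := hR (mem_sup_left (subset_closure (by simp)))
    have hyR : y ∈ R := hR (mem_sup_left (subset_closure (by simp)))
    have hPR : D ∩ (P : Set H) = D ∩ (R : Set H) := by
      by_contra hne
      have h1 := hmax (P, R) hne
      have h2 : E.ncard < (D ∩ (P : Set H) ∩ (R : Set H)).ncard := by
        refine Set.ncard_lt_ncard ⟨fun e he => ⟨he.1, hER e he⟩, fun h => hxE ?_⟩ (Set.toFinite _)
        exact h ⟨hxP, hxR⟩
      change (D ∩ (P : Set H) ∩ (R : Set H)).ncard ≤ E.ncard at h1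
      omega
    have hQR : D ∩ (Q : Set H) = D ∩ (R : Set H) := by
      by_contra hne
      have h1 := hmax (Q, R) hne
      have h2 : E.ncard < (D ∩ (Q : Set H) ∩ (R : Set H)).ncard := by
        refine Set.ncard_lt_ncard ⟨fun e he => ⟨⟨he.1.1, he.2⟩, hER e he⟩, fun h => hyE ?_⟩
          (Set.toFinite _)
        exact h ⟨hyQ, hyR⟩
      change (D ∩ (Q : Set H) ∩ (R : Set H)).ncard ≤ E.ncard at h1
      omega
    exact hPQ (hPR.trans hQR.symm)
  -- every element of `D` lies in a fixed Sylow subgroup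
  obtain ⟨P⟩ := (inferInstance : Nonempty (Sylow 2 H))
  have hDP : D ⊆ P := by
    intro d hd
    have h1 : IsPGroup 2 (zpowers d) := by
      rintro ⟨_, k, rfl⟩
      refine ⟨1, Subtype.ext ?_⟩
      change (d ^ k) ^ (2 ^ 1) = 1
      rw [pow_one, ← zpow_natCast, ← zpow_mul, mul_comm, zpow_mul, zpow_natCast, sq, hD2 d hd,
        one_zpow]
    obtain ⟨R, hR⟩ := h1.exists_le_sylow
    have h2 : d ∈ D ∩ (R : Set H) := ⟨hd, hR (mem_zpowers d)⟩
    rw [hall R P] at h2
    exact h2.2
  have htop : (P : Subgroup H) = ⊤ := by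
    rw [eq_top_iff, ← hgen, closure_le]
    exact hDP
  intro g
  have hg : g ∈ (P : Subgroup H) := by rw [htop]; trivial
  obtain ⟨k, hk⟩ := P.isPGroup' ⟨g, hg⟩
  refine ⟨k, ?_⟩
  have := congrArg (Subtype.val) hk
  simpa using this

end Pool.Agent.Helper94.SV
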