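import Pool.Agent.Helper46.SV.NoSec
import Pool.Agent.Helper94.SV.Sec

/-!
# The two descriptions of the sections agree
-/

set_option autoImplicit false

open Subgroup

namespace Pool.Agent.Helper94.SV.Sec

universe u

theorem is16_of_gen {k : ℕ} {Q : Type u} [Group Q] {s t : Q} (hg : closure {s, t} = ⊤)
    (hs : orderOf s = 8) (ht : t * t = 1) (h : t * s * t = s ^ k) (hk : ¬ (s ^ k = s)) : Is16 k Q := by
  have h8 : s ^ 8 = 1 := by rw [← hs]; exact pow_orderOf_eq_one s
  refine ⟨?_, s, t, hs, ht, h⟩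
  have h1 := card_grp ht h h8 hs hk
  have h2 : grp ht h h8 = ⊤ := by
    rw [eq_top_iff, ← hg, closure_le]
    rintro x (rfl | rfl)
    · exact ⟨1, Or.inl (pow_one _).symm⟩
    · exact ⟨0, Or.inr (by simp)⟩
  rw [h2] at h1
  rw [← h1]
  exact (Nat.card_congr Subgroup.topEquiv.toEquiv).symm

theorem is16_of_isDih16 {Q : Type u} [Group Q] (h : Helper46.SV.IsDih16 Q) : Is16 7 Q := by
  obtain ⟨s, t, hg, hs, ht, hst⟩ := h
  have h8 : s ^ 8 = 1 := by rw [← hs]; exact pow_orderOf_eq_one s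
  refine is16_of_gen hg hs ht ?_ ?_
  · rw [hst]
    apply inv_eq_of_mul_eq_one_left
    rw [← pow_succ]
    exact h8
  · intro h7
    have h6 : s ^ 6 = 1 := by
      have e : s ^ 7 = s ^ 6 * s := by rw [← pow_succ]
      rw [e] at h7
      exact mul_eq_right.mp h7
    have h9 := orderOf_dvd_of_pow_eq_one h6
    rw [hs] at h9
    omega

theorem is16_of_isSD16 {Q : Type u} [Group Q] (h : Helper46.SV.IsSD16 Q) : Is16 3 Q := by
  obtain ⟨s, t, hg, hs, ht, hst⟩ := h
  refine is16_of_gen hg hs ht hst ?_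
  intro h3
  have h2 : s ^ 2 = 1 := by
    have e : s ^ 3 = s ^ 2 * s := by rw [← pow_succ]
    rw [e] at h3
    exact mul_eq_right.mp h3
  have h9 := orderOf_dvd_of_pow_eq_one h2
  rw [hs] at h9
  omega

theorem toNoSec {G : Type u} [Group G] (h1 : NoD16 G) (h2 : NoSD16 G) : Helper46.SV.NoSec G :=
  fun _ _ H f hf => ⟨fun h => No16.surj (k := 7) h1 H f hf (is16_of_isDih16 h),
    fun h => No16.surj (k := 3) h2 H f hf (is16_of_isSD16 h)⟩

end Pool.Agent.Helper94.SV.Sec
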