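import Pool.Agent.Helper94.SV.Sec

/-!
# The dihedral group of order 16 of Mathlib

A group of order 16 with an element `r` of order 8 and an element `s` with `s² = 1`, `s r s = r⁷` is
isomorphic to `DihedralGroup 8`.
-/

set_option autoImplicit false

namespace Pool.Agent.Helper94.SV.Sec

universe u

section
variable {K : Type u} [Group K] (r s : K)

theorem pow_val_add (h8 : r ^ 8 = 1) (i j : ZMod 8) : r ^ (i + j).val = r ^ i.val * r ^ j.val := by
  rw [← pow_add, ZMod.val_add]
  conv_rhs => rw [← Nat.div_add_mod (i.val + j.val) 8, pow_add, pow_mul, h8, one_pow, one_mul]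

theorem mul_pow_comm (hs : s * s = 1) (h8 : r ^ 8 = 1) (h : s * r * s = r ^ 7) (i : ZMod 8) :
    r ^ i.val * s = s * r ^ (-i).val := by
  have hinv : r ^ 7 = r⁻¹ := by
    rw [eq_inv_iff_mul_eq_one, ← pow_succ, h8]
  have h1 : ∀ n : ℕ, s * r ^ n * s = (r⁻¹) ^ n := by
    intro n
    induction n with
    | zero => simpa using hs
    | succ n ih =>
      rw [pow_succ, pow_succ, ← ih, ← hinv, ← h]
      calc s * (r ^ n * r) * s = s * r ^ n * 1 * r * s := by group
        _ = s * r ^ n * (s * s) * r * s := by rw [hs]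
        _ = s * r ^ n * s * (s * r * s) := by group
  have h2 : r ^ i.val * r ^ (-i).val = 1 := by
    rw [← pow_val_add r h8, add_neg_cancel]
    simp
  have h3 : r ^ (-i).val = (r⁻¹) ^ i.val := by
    rw [inv_pow]
    exact eq_inv_of_mul_eq_one_right h2
  rw [h3, ← h1]
  calc r ^ i.val * s = 1 * (r ^ i.val * s) := by group
    _ = (s * s) * (r ^ i.val * s) := by rw [hs]
    _ = s * (s * r ^ i.val * s) := by group

/-- the homomorphism from the dihedral group -/
def ofDih (hs : s * s = 1) (h8 : r ^ 8 = 1) (h : s * r * s = r ^ 7) : DihedralGroup 8 →* K where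
  toFun
    | DihedralGroup.r i => r ^ i.val
    | DihedralGroup.sr i => s * r ^ i.val
  map_one' := by
    show r ^ (0 : ZMod 8).val = 1
    simp
  map_mul' := by
    rintro (i | i) (j | j)
    · exact pow_val_add r h8 i j
    · show s * r ^ (j - i).val = r ^ i.val * (s * r ^ j.val)
      rw [← mul_assoc, mul_pow_comm r s hs h8 h, mul_assoc, ← pow_val_add r h8, sub_eq_add_neg, add_comm]
    · show s * r ^ (i + j).val = s * r ^ i.val * r ^ j.val
      rw [pow_val_add r h8, mul_assoc]
    · show r ^ (j - i).val = s * r ^ i.val * (s * r ^ j.val)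
      have e : s * r ^ i.val * (s * r ^ j.val) = s * (r ^ i.val * s) * r ^ j.val := by
        simp only [mul_assoc]
      rw [e, mul_pow_comm r s hs h8 h, ← mul_assoc, hs, one_mul, ← pow_val_add r h8, sub_eq_add_neg,
        add_comm]

end

theorem IsD16.nonempty_equiv {K : Type u} [Group K] (hK : IsD16 K) : Nonempty (K ≃* DihedralGroup 8) := by
  obtain ⟨hc, r, s, hr, hs, h⟩ := hK
  have h8 : r ^ 8 = 1 := by rw [← hr]; exact pow_orderOf_eq_one r
  have hrinj : ∀ i : ZMod 8, r ^ i.val = 1 → i = 0 := by
    intro i hi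
    have h1 := orderOf_dvd_of_pow_eq_one hi
    rw [hr] at h1
    have h2 : i.val < 8 := ZMod.val_lt i
    have h3 : i.val = 0 := Nat.eq_zero_of_dvd_of_lt h1 h2
    exact (ZMod.val_eq_zero i).mp h3
  have hsr : ∀ i : ZMod 8, s * r ^ i.val ≠ 1 := by
    intro i hi
    have h1 : s = (r ^ i.val)⁻¹ := eq_inv_of_mul_eq_one_left hi
    have h2 : Commute s r := by
      rw [h1]
      exact ((Commute.refl r).pow_left _).inv_left
    have h3 : s * r * s = r := by rw [h2.eq, mul_assoc, hs, mul_one]
    rw [h] at h3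
    have h4 : r ^ 6 = 1 := by
      have h5 : r ^ 6 * r = 1 * r := by rw [← pow_succ, h3, one_mul]
      exact mul_right_cancel h5
    have h6 := orderOf_dvd_of_pow_eq_one h4
    rw [hr] at h6
    omega
  have hinj : Function.Injective (ofDih r s hs h8 h) := by
    rw [injective_iff_map_eq_one]
    rintro (i | i) hi
    · have h1 : i = 0 := hrinj i hi
      rw [h1]
      rfl
    · exact absurd hi (hsr i)
  have hfin : Finite K := Nat.finite_of_card_ne_zero (by rw [hc]; norm_num)
  have hcard : Nat.card (DihedralGroup 8) = Nat.card K := by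
    rw [hc, DihedralGroup.nat_card]
  have hbij : Function.Bijective (ofDih r s hs h8 h) :=
    (Nat.bijective_iff_injective_and_card _).mpr ⟨hinj, hcard⟩
  exact ⟨(MulEquiv.ofBijective _ hbij).symm⟩

/-- no section isomorphic to `DihedralGroup 8` -/
theorem noD16_of_isEmpty {G : Type u} [Group G]
    (h : ∀ (H : Subgroup G) (N : Subgroup H) [N.Normal], IsEmpty ((H ⧸ N) ≃* DihedralGroup 8)) :
    NoD16 G := fun H N _ hK => (h H N).false hK.nonempty_equiv.some

end Pool.Agent.Helper94.SV.Sec
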