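import Mathlib

/-!
# Sanov's lemma and Sanov's theorem

If `K` is a finite subgroup, `x * x ∈ K` and `(x * h) ^ 4 = 1` for all `h ∈ K`, then `⟨K, x⟩` is
finite.  Consequently finitely generated groups of exponent 4 are finite.
-/

set_option autoImplicit false

open Subgroup

namespace Pool.Agent.Helper94.SV

universe u

variable {G : Type u} [Group G]

/-- The word `x h₁ x h₂ ⋯ hₘ x`. -/
def word (K : Subgroup G) (x : G) : List K → G
  | [] => x
  | h :: l => x * h * word K x l

/-- Possible first letters of a word, up to changes of the other letters. -/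
def firsts (K : Subgroup G) (x : G) (l : List K) : Set K :=
  {y | ∃ (l' : List K) (k : K), l'.length + 1 = l.length ∧ word K x l = x * y * word K x l' * k}

/-- A word which cannot be shortened (up to a right factor of `K`). -/
def Irr (K : Subgroup G) (x : G) (l : List K) : Prop :=
  ∀ (l' : List K) (k : K), word K x l = word K x l' * k → l.length ≤ l'.length

theorem flip {x h : G} (h4 : (x * h) ^ 4 = 1) :
    x * h * x = h⁻¹ * x * ((x * x)⁻¹ * h⁻¹) * x * ((x * x)⁻¹ * h⁻¹) := by
  have h1 : x * h * x * h * x * h * x * h = 1 := by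
    rw [← h4]; simp only [pow_succ, pow_zero, one_mul, mul_assoc]
  have h2 : x * h * x = (h * x * h * x * h)⁻¹ := by
    rw [eq_inv_iff_mul_eq_one, ← h1]; simp only [mul_assoc]
  rw [h2]
  group

variable {K : Subgroup G} {x : G}

theorem head_mem_firsts (h : K) (l : List K) : h ∈ firsts K x (h :: l) :=
  ⟨l, 1, rfl, by simp [word]⟩

theorem mem_firsts_cons (hx : x * x ∈ K) (h4 : ∀ h ∈ K, (x * h) ^ 4 = 1) (h y : K) (l : List K)
    (hy : y ∈ firsts K x l) : h * y⁻¹ ∈ firsts K x (h :: l) := by
  obtain ⟨l', k, hl, hw⟩ := hy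
  have hf := flip (h4 y y.2)
  let s : K := (⟨x * x, hx⟩ : K)⁻¹ * y⁻¹
  have hs : (s : G) = (x * x)⁻¹ * (y : G)⁻¹ := rfl
  rcases l' with _ | ⟨z, l''⟩
  · refine ⟨[s], s * k, by simp at hl ⊢; omega, ?_⟩
    simp only [word] at hw ⊢
    rw [hw, hf]
    simp only [Subgroup.coe_mul, InvMemClass.coe_inv, hs]
    group
  · refine ⟨s :: (s * z) :: l'', k, by simp at hl ⊢; omega, ?_⟩
    simp only [word] at hw ⊢
    rw [hw]
    calc x * ↑h * (x * ↑y * (x * ↑z * word K x l'') * ↑k)
        = x * ↑h * (x * ↑y * x) * ↑z * word K x l'' * ↑k := by group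
      _ = x * ↑h * ((y : G)⁻¹ * x * ((x * x)⁻¹ * (y : G)⁻¹) * x * ((x * x)⁻¹ * (y : G)⁻¹)) * ↑z *
            word K x l'' * ↑k := by rw [hf]
      _ = _ := by
        simp only [Subgroup.coe_mul, InvMemClass.coe_inv, hs]
        group

theorem Irr.tail {h : K} {l : List K} (hI : Irr K x (h :: l)) : Irr K x l := by
  intro l' k hw
  have := hI (h :: l') k (by simp only [word]; rw [hw]; group)
  simpa using this

theorem Irr.one_not_mem (hx : x * x ∈ K) {h : K} {l : List K} (hI : Irr K x (h :: l)) :
    (1 : K) ∉ firsts K x l := by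
  rintro ⟨l', k, hl, hw⟩
  rcases l' with _ | ⟨z, l''⟩
  · have := hI [] (h * ⟨x * x, hx⟩ * k) (by
      simp only [word] at hw ⊢
      rw [hw]
      simp only [Subgroup.coe_mul, Subgroup.coe_one]
      group)
    simp at this
  · have := hI ((h * ⟨x * x, hx⟩ * z) :: l'') k (by
      simp only [word] at hw ⊢
      rw [hw]
      simp only [Subgroup.coe_mul, Subgroup.coe_one]
      group)
    simp at this hl
    omega

theorem length_le_card [Finite K] (hx : x * x ∈ K) (h4 : ∀ h ∈ K, (x * h) ^ 4 = 1) :
    ∀ l : List K, Irr K x l → l.length ≤ (firsts K x l).ncard := by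
  intro l
  induction l with
  | nil => intro _; simp
  | cons h l ih =>
    intro hI
    have h1 := ih hI.tail
    have h2 := hI.one_not_mem hx
    have hsub : insert h ((fun y => h * y⁻¹) '' firsts K x l) ⊆ firsts K x (h :: l) := by
      rintro z (rfl | ⟨y, hy, rfl⟩)
      · exact head_mem_firsts _ _
      · exact mem_firsts_cons hx h4 h y l hy
    have hinj : Function.Injective (fun y : K => h * y⁻¹) := by
      intro a b hab
      simpa using hab
    have hnot : h ∉ ((fun y => h * y⁻¹) '' firsts K x l) := by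
      rintro ⟨y, hy, hy1⟩
      have : y = 1 := by simpa using hy1
      exact h2 (this ▸ hy)
    calc (h :: l).length = l.length + 1 := rfl
      _ ≤ (firsts K x l).ncard + 1 := by omega
      _ = ((fun y => h * y⁻¹) '' firsts K x l).ncard + 1 := by
          rw [Set.ncard_image_of_injective _ hinj]
      _ = (insert h ((fun y => h * y⁻¹) '' firsts K x l)).ncard := by
          rw [Set.ncard_insert_of_notMem hnot (Set.toFinite _)]
      _ ≤ _ := Set.ncard_le_ncard hsub (Set.toFinite _)

theorem exists_short [Finite K] (hx : x * x ∈ K) (h4 : ∀ h ∈ K, (x * h) ^ 4 = 1) :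
    ∀ (n : ℕ) (l : List K), l.length ≤ n →
      ∃ (l' : List K) (k : K), l'.length ≤ Nat.card K ∧ word K x l = word K x l' * k := by
  intro n
  induction n with
  | zero =>
    intro l hl
    exact ⟨l, 1, by omega, by simp⟩
  | succ n ih =>
    intro l hl
    by_cases hI : Irr K x l
    · refine ⟨l, 1, (length_le_card hx h4 l hI).trans ?_, by simp⟩
      rw [← Set.ncard_univ]
      exact Set.ncard_le_ncard (Set.subset_univ _) (Set.toFinite _)
    · unfold Irr at hI
      push Not at hI
      obtain ⟨l', k, hw, hlt⟩ := hI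
      obtain ⟨l'', k', hl'', hw'⟩ := ih l' (by omega)
      exact ⟨l'', k' * k, hl'', by rw [hw, hw', Subgroup.coe_mul, mul_assoc]⟩

/-- Sanov's lemma. -/
theorem sanov_lemma (hK : (K : Set G).Finite) (hx : x * x ∈ K) (h4 : ∀ h ∈ K, (x * h) ^ 4 = 1) :
    ((K ⊔ closure {x} : Subgroup G) : Set G).Finite := by
  have : Finite K := hK
  -- the finite set of normal forms
  let T : Set G := {g | g ∈ K ∨ ∃ (k₀ : K) (l : List K) (k : K), g = k₀ * word K x l * k}
  let T' : Set G := (K : Set G) ∪
    (fun q : K × List K × K => (q.1 : G) * word K x q.2.1 * q.2.2) ''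
      (Set.univ ×ˢ ({l : List K | l.length ≤ Nat.card K} ×ˢ Set.univ))
  have hT' : T'.Finite := by
    refine hK.union (Set.Finite.image _ ?_)
    exact Set.Finite.prod (Set.toFinite _)
      (Set.Finite.prod (List.finite_length_le K (Nat.card K)) (Set.toFinite _))
  have hTT' : T ⊆ T' := by
    rintro g (hg | ⟨k₀, l, k, rfl⟩)
    · exact Or.inl hg
    · right
      obtain ⟨l', k', hl', hw⟩ := exists_short hx h4 l.length l le_rfl
      refine ⟨(k₀, l', k' * k), ?_, ?_⟩
      · simp [hl']
      · simp only [hw, Subgroup.coe_mul]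
        group
  refine hT'.subset (Set.Subset.trans ?_ hTT')
  -- `T` is closed under left multiplication by the generators
  have hTK : ∀ k ∈ K, ∀ g ∈ T, k * g ∈ T := by
    rintro k hk g (hg | ⟨k₀, l, k', rfl⟩)
    · exact Or.inl (K.mul_mem hk hg)
    · right
      refine ⟨⟨k, hk⟩ * k₀, l, k', ?_⟩
      simp only [Subgroup.coe_mul]
      group
  have hTx : ∀ g ∈ T, x * g ∈ T := by
    rintro g (hg | ⟨k₀, l, k', rfl⟩)
    · right
      exact ⟨1, [], ⟨g, hg⟩, by simp [word]⟩
    · right
      refine ⟨1, k₀ :: l, k', ?_⟩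
      simp only [word, Subgroup.coe_one]
      group
  have hTxi : ∀ g ∈ T, x⁻¹ * g ∈ T := by
    intro g hg
    have h1 : x⁻¹ * g = (x * x)⁻¹ * (x * g) := by group
    rw [h1]
    exact hTK _ (K.inv_mem hx) _ (hTx g hg)
  intro g hg
  have hgc : g ∈ closure ((K : Set G) ∪ {x}) := by
    rw [Subgroup.closure_union, Subgroup.closure_eq]; exact hg
  have key : ∀ g ∈ closure ((K : Set G) ∪ {x}), ∀ t ∈ T, g * t ∈ T := by
    intro g hg
    induction hg using closure_induction with
    | mem y hy =>
      intro t ht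
      rcases hy with hy | hy
      · exact hTK y hy t ht
      · rw [Set.mem_singleton_iff.mp hy]; exact hTx t ht
    | one => intro t ht; rwa [one_mul]
    | mul a b _ _ iha ihb => intro t ht; rw [mul_assoc]; exact iha _ (ihb _ ht)
    | inv a ha iha =>
      -- `T` is finite and closed under left multiplication by `a`
      intro t ht
      have hTfin : T.Finite := hT'.subset hTT'
      have hmaps : Set.MapsTo (fun t => a * t) T T := fun t ht => iha t ht
      have himg : (fun t => a * t) '' T = T :=
        Set.eq_of_subset_of_ncard_le (Set.image_subset_iff.2 hmaps)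
          (by rw [Set.ncard_image_of_injective _ (mul_right_injective a)]) hTfin
      rw [← himg] at ht
      obtain ⟨s, hs, rfl⟩ := ht
      simpa using hs
  have := key g hgc 1 (Or.inl K.one_mem)
  rwa [mul_one] at this

end Pool.Agent.Helper94.SV
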