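import Pool.Agent.Helper94.SV.JPrime
import Pool.Agent.Helper94.SV.Sanov

/-!
# Frame of Theorem J: if `(i j)⁴ = 1` for all involutions of `G` they generate a locally finite group

Two facts are used as hypotheses:

* `Ja`: `u = [z,a,b,c]` (`a, b, c` commuting involutions, `z` an involution) has `[u^d, u^e] = 1`;
* `Jb`: modulo a normal subgroup containing all these `u`, `w = [a^b, a^c]` has `[w^d, w^e] = 1`.
-/

set_option autoImplicit false

open Subgroup

namespace Pool.Agent.Helper94.SV.JT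

open Pool.Agent.Helper39.HT (Strong ht)
open Pool.Agent.Helper94.SV.Frame

universe u

/-- `(x y)⁴ = 1` for all involutions -/
def JLaw (G : Type u) [Group G] : Prop :=
  ∀ x y : G, x * x = 1 → y * y = 1 → c2 x y * c2 x y = 1

/-- the involutions, with `1` -/
def invs (G : Type u) [Group G] : Set G := {x : G | x * x = 1}

/-- `[z,a,b,c]` -/
def uu {G : Type u} [Group G] (z a b c : G) : G := c2 (c2 (c2 z a) b) c

def Ja : Prop := ∀ (G : Type u) [Group G], JLaw G → ∀ z a b c : G, z * z = 1 → a * a = 1 →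
  b * b = 1 → c * c = 1 → Commute a b → Commute a c → Commute b c → ∀ d e : G, d * d = 1 →
  e * e = 1 → Commute (d * uu z a b c * d) (e * uu z a b c * e)

def Jb : Prop := ∀ (G : Type u) [Group G], JLaw G → ∀ N : Subgroup G, N.Normal →
  (∀ z a b c : G, z * z = 1 → a * a = 1 → b * b = 1 → c * c = 1 → Commute a b → Commute a c →
    Commute b c → uu z a b c ∈ N) →
  ∀ a b c : G, a * a = 1 → b * b = 1 → c * c = 1 → ∀ d e : G, d * d = 1 → e * e = 1 →
    c2 (d * ww a b c * d) (e * ww a b c * e) ∈ N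

section
variable {G : Type u} [Group G]

theorem conj_inv_sq {x : G} (g : G) (hx : x * x = 1) : g * x * g⁻¹ * (g * x * g⁻¹) = 1 := by
  have e : g * x * g⁻¹ * (g * x * g⁻¹) = g * (x * x) * g⁻¹ := by group
  rw [e, hx]
  group

theorem c2_one {x y : G} (hx : x * x = 1) (hy : y * y = 1) (h : c2 x y = 1) : Commute x y := by
  have h1 : x * y = (x * y)⁻¹ := eq_inv_of_mul_eq_one_left h
  show x * y = y * x
  rw [h1, mul_inv_rev, inv_eq hx, inv_eq hy]

/-- the image of a set of involutions which is strong modulo the kernel -/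
theorem strong_image {K : Type u} [Group K] (f : G →* K) (hf : Function.Surjective f) {W : Set G}
    (h1 : (1 : G) ∈ W) (h2 : ∀ x ∈ W, x * x = 1) (h3 : ∀ g : G, ∀ x ∈ W, g * x * g⁻¹ ∈ W)
    (h4 : ∀ x ∈ W, ∀ y ∈ W, c2 x y * c2 x y = 1)
    (h5 : ∀ x ∈ W, ∀ y ∈ W, ∀ z ∈ W, f (c2 (y * x * y) (z * x * z)) = 1) : Strong (f '' W) := by
  refine ⟨⟨1, h1, map_one f⟩, ?_, ?_, ?_, ?_⟩
  · rintro _ ⟨x, hx, rfl⟩
    rw [← map_mul, h2 x hx, map_one]
  · rintro g _ ⟨x, hx, rfl⟩
    obtain ⟨k, rfl⟩ := hf g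
    exact ⟨k * x * k⁻¹, h3 k x hx, by simp only [map_mul, map_inv]⟩
  · rintro _ ⟨x, hx, rfl⟩ _ ⟨y, hy, rfl⟩
    show c2 (f x) (f y) * c2 (f x) (f y) = 1
    rw [← map_c2, ← map_mul, h4 x hx y hy, map_one]
  · rintro _ ⟨x, hx, rfl⟩ _ ⟨y, hy, rfl⟩ _ ⟨z, hz, rfl⟩
    have e1 : ∀ s t : K, c2 s t = s * (t * s * t) := fun s t => by simp only [c2_def, mul_assoc]
    have hsq : ∀ x ∈ W, f x * f x = 1 := fun x hx => by rw [← map_mul, h2 x hx, map_one]
    have hfour : ∀ x ∈ W, ∀ y ∈ W, c2 (f x) (f y) * c2 (f x) (f y) = 1 := fun x hx y hy => by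
      rw [← map_c2, ← map_mul, h4 x hx y hy, map_one]
    show Commute (c2 (f x) (f y)) (c2 (f x) (f z))
    rw [e1, e1]
    have a1 := comm_of_four (hsq x hx) (hsq y hy) (hfour x hx y hy)
    have a2 := comm_of_four (hsq x hx) (hsq z hz) (hfour x hx z hz)
    have a3 : Commute (f y * f x * f y) (f z * f x * f z) := by
      refine c2_one (conj_sq (hsq x hx) (hsq y hy)) (conj_sq (hsq x hx) (hsq z hz)) ?_
      have h6 := h5 x hx y hy z hz
      rw [map_c2] at h6
      simpa only [map_mul] using h6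
    exact ((Commute.refl _).mul_right a2).mul_left (a1.symm.mul_right a3)

theorem uu_conj (g z a b c : G) : g * uu z a b c * g⁻¹ =
    uu (g * z * g⁻¹) (g * a * g⁻¹) (g * b * g⁻¹) (g * c * g⁻¹) := by
  simp only [uu, c2_def]
  group

theorem ww_conj (g a b c : G) : g * ww a b c * g⁻¹ =
    ww (g * a * g⁻¹) (g * b * g⁻¹) (g * c * g⁻¹) := by
  simp only [ww, c2_def]
  group

theorem commute_conj {x y : G} (g : G) (h : Commute x y) :
    Commute (g * x * g⁻¹) (g * y * g⁻¹) := by
  show g * x * g⁻¹ * (g * y * g⁻¹) = g * y * g⁻¹ * (g * x * g⁻¹)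
  have e : ∀ s t : G, g * s * g⁻¹ * (g * t * g⁻¹) = g * (s * t) * g⁻¹ := fun s t => by group
  rw [e, e, h.eq]

theorem cls_sq {x : G} (hx : x * x = 1) : ∀ y ∈ cls x, y * y = 1 := by
  rintro _ (rfl | ⟨g, rfl⟩)
  · exact mul_one 1
  · exact conj_inv_sq g hx

theorem c2_of_commute {x y : G} (hx : x * x = 1) (hy : y * y = 1) (h : Commute x y) : c2 x y = 1 := by
  rw [c2_def]
  calc x * y * (x * y) = x * y * (y * x) := by rw [h.eq]
    _ = 1 := by simp only [mul_assoc, canc hy, hx]

end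

/-- An involution `x` with `[x^d, x^e] ∈ R` for all involutions `d, e` lies in `R`, if `G / R` has no
nontrivial normal locally finite subgroup. -/
theorem mem_of_thin {G : Type u} [Group G] (hJ : JLaw G) (R : Subgroup G) [R.Normal]
    (hQ : NoLF (G ⧸ R)) {x : G} (hx : x * x = 1)
    (h : ∀ d e : G, d * d = 1 → e * e = 1 → c2 (d * x * d) (e * x * e) ∈ R) : x ∈ R := by
  have hf : Function.Surjective (QuotientGroup.mk' R) := QuotientGroup.mk'_surjective R
  have hS := strong_image (QuotientGroup.mk' R) hf (W := cls x) (Or.inl rfl)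
    (cls_sq hx) (fun g y hy => cls_conj _ g y hy)
    (fun y hy z hz => hJ y z (cls_sq hx y hy) (cls_sq hx z hz)) (by
      intro y hy s hs t ht
      have hss := cls_sq hx s hs
      have htt := cls_sq hx t ht
      refine (QuotientGroup.eq_one_iff _).mpr ?_
      rcases hy with rfl | ⟨g, rfl⟩
      · have e1 : c2 (s * 1 * s) (t * 1 * t) = 1 := by
          rw [mul_one, mul_one, hss, htt]
          simp [c2_def]
        rw [e1]
        exact one_mem R
      · have h1 := h (g⁻¹ * s * g) (g⁻¹ * t * g)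
          (by have := conj_inv_sq g⁻¹ hss; rwa [inv_inv] at this)
          (by have := conj_inv_sq g⁻¹ htt; rwa [inv_inv] at this)
        have h2 := (inferInstance : R.Normal).conj_mem _ h1 g
        rw [conj_c2] at h2
        have e2 : ∀ r : G, g * (g⁻¹ * r * g * x * (g⁻¹ * r * g)) * g⁻¹ = r * (g * x * g⁻¹) * r := by
          intro r
          group
        rwa [e2, e2] at h2)
  exact (QuotientGroup.eq_one_iff x).mp (strong_trivial hQ hS _ ⟨_, self_mem_cls _, rfl⟩)

/-- **Theorem J**, from `Ja` and `Jb` -/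
theorem lf_invs (hA : Ja.{u}) (hB : Jb.{u}) (G : Type u) [Group G] (hJ : JLaw G) :
    LF (closure (invs G)) := by
  obtain ⟨R, hRn, hR, hQ⟩ := JPrime.exists_radical G
  -- step 1
  have s1 : ∀ z a b c : G, z * z = 1 → a * a = 1 → b * b = 1 → c * c = 1 → Commute a b →
      Commute a c → Commute b c → uu z a b c ∈ R := by
    intro z a b c hz ha hb hc hab hac hbc
    have hu2 : uu z a b c * uu z a b c = 1 := hJ _ _ (hJ _ _ (hJ _ _ hz ha) hb) hc
    refine mem_of_thin hJ R hQ hu2 fun d e hd he => ?_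
    rw [c2_of_commute (conj_sq hu2 hd) (conj_sq hu2 he)
      (hA G hJ z a b c hz ha hb hc hab hac hbc d e hd he)]
    exact one_mem R
  -- step 2
  have s2 : ∀ a b c : G, a * a = 1 → b * b = 1 → c * c = 1 → ww a b c ∈ R := fun a b c ha hb hc =>
    mem_of_thin hJ R hQ (hJ _ _ (conj_sq ha hb) (conj_sq ha hc))
      (hB G hJ R hRn s1 a b c ha hb hc)
  -- step 3
  refine hR.mono ?_
  rw [closure_le]
  intro x hx
  exact mem_of_thin hJ R hQ hx fun d e hd he => s2 x d e hx hd he

end Pool.Agent.Helper94.SV.JT
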