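import Pool.Agent.Helper94.SV.Frame2

/-!
# The group `P128 = ⟨x, y, z | x², y², z², (xy)², (xz)⁴, (yz)⁴, (z xyzyx)⁴, (x zyz)⁴⟩` of order 128

If involutions `x, y, z` generate `T`, satisfy these relations, and `(x y z)⁴ ≠ 1`, then `T ≅ P128`.
-/

set_option autoImplicit false
set_option linter.unusedSimpArgs false

open Subgroup

namespace Pool.Agent.Helper94.SV.K6

open Pool.Agent.Helper94.SV.Frame

universe u v

/-- the eight relators -/
def rels : Set (FreeGroup (Fin 3)) :=
  let x := FreeGroup.of (0 : Fin 3)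
  let y := FreeGroup.of (1 : Fin 3)
  let z := FreeGroup.of (2 : Fin 3)
  {x * x, y * y, z * z, (x * y) ^ 2, (x * z) ^ 4, (y * z) ^ 4, (z * (x * y * z * y * x)) ^ 4,
    (x * (z * y * z)) ^ 4}

/-- the group -/
abbrev P128 : Type := PresentedGroup rels

/-- the relations -/
structure Laws {T : Type u} [Group T] (x y z : T) : Prop where
  hx : x * x = 1
  hy : y * y = 1
  hz : z * z = 1
  hxy : Commute x y
  h1 : Commute z (x * z * x)
  h2 : Commute z (y * z * y)
  h3 : c2 z (x * (y * z * y) * x) * c2 z (x * (y * z * y) * x) = 1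
  h4 : c2 x (z * y * z) * c2 x (z * y * z) = 1

/-- `a` to the power 0 or 1 -/
def pw {T : Type u} [Group T] (a : T) (b : Bool) : T := if b then a else 1

section
variable {T : Type u} [Group T]

theorem pw_mul_self {a : T} (ha : a * a = 1) (b : Bool) : pw a b * a = pw a (!b) := by
  cases b <;> simp [pw, ha]

theorem pw_comm {a c : T} (h : Commute a c) (b : Bool) : Commute (pw a b) c := by
  cases b
  · exact Commute.one_left c
  · exact h

theorem map_pw {K : Type v} [Group K] (f : T →* K) (a : T) (b : Bool) : f (pw a b) = pw (f a) b := by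
  cases b <;> simp [pw]

/-- the commutator of two involutions -/
theorem c2_comm_sq {p q : T} (hp : p * p = 1) (hq : q * q = 1) : c2 p q * (q * p) = p * q := by
  simp only [c2_def, mul_assoc, canc hq, hp, mul_one]

/-- if `(p q)⁴ = 1` then `[p, q]` commutes with `p` -/
theorem c2_comm_left {p q : T} (hp : p * p = 1) (hq : q * q = 1) (h : c2 p q * c2 p q = 1) :
    Commute (c2 p q) p := by
  have h1 : c2 p q = (c2 p q)⁻¹ := eq_inv_of_mul_eq_one_left h
  have h2 : (c2 p q)⁻¹ = q * p * (q * p) := by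
    rw [c2_def, mul_inv_rev, mul_inv_rev, inv_eq hp, inv_eq hq]
  show c2 p q * p = p * c2 p q
  calc c2 p q * p = p * (q * p * (q * p)) := by simp only [c2_def, mul_assoc]
    _ = p * c2 p q := by rw [← h2, ← h1]

theorem c2_comm_right {p q : T} (hp : p * p = 1) (hq : q * q = 1) (h : c2 p q * c2 p q = 1) :
    Commute (c2 p q) q := by
  have h1 : c2 p q = (c2 p q)⁻¹ := eq_inv_of_mul_eq_one_left h
  have h2 : (c2 p q)⁻¹ = q * p * (q * p) := by
    rw [c2_def, mul_inv_rev, mul_inv_rev, inv_eq hp, inv_eq hq]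
  show c2 p q * q = q * c2 p q
  calc c2 p q * q = (q * p * (q * p)) * q := by rw [← h2, ← h1]
    _ = q * c2 p q := by simp only [c2_def, mul_assoc]

theorem comm_c2 {p q r : T} (h1 : Commute p r) (h2 : Commute q r) : Commute (c2 p q) r :=
  (h1.mul_left h2).mul_left (h1.mul_left h2)

end

namespace Laws

variable {T : Type u} [Group T] {x y z : T} (L : Laws x y z)
include L

theorem yx : y * x = x * y := L.hxy.eq.symm

theorem sq_b : (x * z * x) * (x * z * x) = 1 := conj_sq L.hz L.hx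

theorem sq_c : (y * z * y) * (y * z * y) = 1 := conj_sq L.hz L.hy

theorem sq_d : (x * (y * z * y) * x) * (x * (y * z * y) * x) = 1 := conj_sq L.sq_c L.hx

theorem d_eq : x * (y * z * y) * x = y * (x * z * x) * y := by
  have h1 : x * (y * z * y) * x = (x * y) * z * (y * x) := by simp only [mul_assoc]
  have h2 : y * (x * z * x) * y = (y * x) * z * (x * y) := by simp only [mul_assoc]
  rw [h1, h2, L.yx]

/-- `z^x` commutes with `z^(xy)` -/
theorem comm_bd : Commute (x * z * x) (x * (y * z * y) * x) := by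
  show x * z * x * (x * (y * z * y) * x) = x * (y * z * y) * x * (x * z * x)
  have h := L.h2.eq
  calc x * z * x * (x * (y * z * y) * x) = x * (z * (y * z * y)) * x := by
        simp only [mul_assoc, canc L.hx]
    _ = x * ((y * z * y) * z) * x := by rw [h]
    _ = x * (y * z * y) * x * (x * z * x) := by simp only [mul_assoc, canc L.hx]

/-- `z^y` commutes with `z^(xy)` -/
theorem comm_cd : Commute (y * z * y) (x * (y * z * y) * x) := by
  rw [L.d_eq]
  show y * z * y * (y * (x * z * x) * y) = y * (x * z * x) * y * (y * z * y)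
  have h := L.h1.eq
  calc y * z * y * (y * (x * z * x) * y) = y * (z * (x * z * x)) * y := by
        simp only [mul_assoc, canc L.hy]
    _ = y * ((x * z * x) * z) * y := by rw [h]
    _ = y * (x * z * x) * y * (y * z * y) := by simp only [mul_assoc, canc L.hy]

/-- `ω = [z, z^(xy)] = [z^x, z^y]` -/
theorem omega_eq : c2 z (x * (y * z * y) * x) = c2 (x * z * x) (y * z * y) := by
  have hz := L.hz
  have ez := L.h1.eq
  have hb := L.sq_b
  have hc := L.sq_c
  have hd := L.sq_d
  have bd := L.comm_bd.eq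
  have cd := L.comm_cd.eq
  have ac := L.h2.eq
  -- `[x, zyz] = z^x z^(xy) z^y z`
  have e1 : c2 x (z * y * z) = (x * z * x) * ((x * (y * z * y) * x) * ((y * z * y) * z)) := by
    have e3 : (x * z * x) * ((x * (y * z * y) * x) * ((y * z * y) * z)) =
        x * z * y * z * (y * x * y) * z * y * z := by
      simp only [mul_assoc, canc L.hx]
    have e4 : y * x * y = x := by rw [L.yx, mul_assoc, L.hy, mul_one]
    rw [e3, e4]
    simp only [c2_def, mul_assoc]
  have h4 := L.h4
  rw [e1] at h4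
  generalize x * z * x = b at *
  generalize x * (y * z * y) * x = d at *
  generalize y * z * y = c at *
  -- `1 = (b d c z)² = (d z)² (b c)²`
  have e5 : b * (d * (c * z)) * (b * (d * (c * z))) = c2 d z * c2 b c := by
    calc b * (d * (c * z)) * (b * (d * (c * z))) = (b * d) * (c * z) * (b * d) * (c * z) := by
          simp only [mul_assoc]
      _ = (d * b) * (z * c) * (d * b) * (z * c) := by rw [bd, ac]
      _ = d * (b * z) * (c * d) * (b * z) * c := by simp only [mul_assoc]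
      _ = d * (z * b) * (d * c) * (z * b) * c := by rw [ez, cd]
      _ = d * z * (b * d) * (c * z) * b * c := by simp only [mul_assoc]
      _ = d * z * (d * b) * (z * c) * b * c := by rw [bd, ac]
      _ = d * z * d * (b * z) * c * b * c := by simp only [mul_assoc]
      _ = d * z * d * (z * b) * c * b * c := by rw [ez]
      _ = c2 d z * c2 b c := by simp only [c2_def, mul_assoc]
  rw [e5] at h4
  have e6 : c2 z d * c2 d z = 1 := by
    simp only [c2_def, mul_assoc, canc hd, canc hz, hz]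
  calc c2 z d = c2 z d * (c2 d z * c2 b c) := by rw [h4, mul_one]
    _ = c2 b c := by rw [← mul_assoc, e6, one_mul]

end Laws

/-- an extraspecial group `⟨a, d⟩ ∘ ⟨b, c⟩` with an action of `⟨x, y⟩` -/
structure Sys {T : Type u} [Group T] (a b c d o x y : T) : Prop where
  ha : a * a = 1
  hb : b * b = 1
  hc : c * c = 1
  hd : d * d = 1
  ho : o * o = 1
  hx : x * x = 1
  hy : y * y = 1
  ba : b * a = a * b
  ca : c * a = a * c
  da : d * a = a * (d * o)
  cb : c * b = b * (c * o)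
  db : d * b = b * d
  dc : d * c = c * d
  oa : o * a = a * o
  ob : o * b = b * o
  oc : o * c = c * o
  od : o * d = d * o
  xa : x * a = b * x
  xc : x * c = d * x
  ya : y * a = c * y
  yx : y * x = x * y

/-- the extraspecial part -/
def mf {T : Type u} [Group T] (a b c d o : T) (e0 e1 e2 e3 e4 : Bool) : T :=
  pw a e0 * (pw b e1 * (pw c e2 * (pw d e3 * pw o e4)))

namespace Sys

variable {T : Type u} [Group T] {a b c d o x y : T} (S : Sys a b c d o x y)
include S

theorem tail {p q r : T} (h : p * q = r) (w : T) : p * (q * w) = r * w := by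
  rw [← mul_assoc, h]

theorem mf_a (e0 e1 e2 e3 e4 : Bool) :
    mf a b c d o e0 e1 e2 e3 e4 * a = mf a b c d o (!e0) e1 e2 e3 (xor e4 e3) := by
  have h0 := S.tail S.ha
  have h1 := S.tail S.hb
  have h2 := S.tail S.hc
  have h3 := S.tail S.hd
  have h4 := S.tail S.ho
  have t1 := S.tail S.ba
  have t2 := S.tail S.ca
  have t3 := S.tail S.da
  have t4 := S.tail S.cb
  have t5 := S.tail S.db
  have t6 := S.tail S.dc
  have t7 := S.tail S.oa
  have t8 := S.tail S.ob
  have t9 := S.tail S.oc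
  have t10 := S.tail S.od
  simp only [mul_assoc] at h0 h1 h2 h3 h4 t1 t2 t3 t4 t5 t6 t7 t8 t9 t10
  cases e0 <;> cases e1 <;> cases e2 <;> cases e3 <;> cases e4 <;>
    simp only [mf, pw, mul_assoc, one_mul, mul_one, S.ha, S.hb, S.hc, S.hd, S.ho, S.ba, S.ca, S.da,
      S.cb, S.db, S.dc, S.oa, S.ob, S.oc, S.od, h0, h1, h2, h3, h4, t1, t2, t3, t4, t5, t6, t7, t8,
      t9, t10, if_true, if_false, Bool.not_true, Bool.not_false, Bool.xor_true, Bool.xor_false,
      Bool.true_xor, Bool.false_xor, reduceCtorEq]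

theorem mf_b (e0 e1 e2 e3 e4 : Bool) :
    mf a b c d o e0 e1 e2 e3 e4 * b = mf a b c d o e0 (!e1) e2 e3 (xor e4 e2) := by
  have h0 := S.tail S.ha
  have h1 := S.tail S.hb
  have h2 := S.tail S.hc
  have h3 := S.tail S.hd
  have h4 := S.tail S.ho
  have t1 := S.tail S.ba
  have t2 := S.tail S.ca
  have t3 := S.tail S.da
  have t4 := S.tail S.cb
  have t5 := S.tail S.db
  have t6 := S.tail S.dc
  have t7 := S.tail S.oa
  have t8 := S.tail S.ob
  have t9 := S.tail S.oc
  have t10 := S.tail S.od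
  simp only [mul_assoc] at h0 h1 h2 h3 h4 t1 t2 t3 t4 t5 t6 t7 t8 t9 t10
  cases e0 <;> cases e1 <;> cases e2 <;> cases e3 <;> cases e4 <;>
    simp only [mf, pw, mul_assoc, one_mul, mul_one, S.ha, S.hb, S.hc, S.hd, S.ho, S.ba, S.ca, S.da,
      S.cb, S.db, S.dc, S.oa, S.ob, S.oc, S.od, h0, h1, h2, h3, h4, t1, t2, t3, t4, t5, t6, t7, t8,
      t9, t10, if_true, if_false, Bool.not_true, Bool.not_false, Bool.xor_true, Bool.xor_false,
      Bool.true_xor, Bool.false_xor, reduceCtorEq]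

theorem mf_c (e0 e1 e2 e3 e4 : Bool) :
    mf a b c d o e0 e1 e2 e3 e4 * c = mf a b c d o e0 e1 (!e2) e3 e4 := by
  have h0 := S.tail S.ha
  have h1 := S.tail S.hb
  have h2 := S.tail S.hc
  have h3 := S.tail S.hd
  have h4 := S.tail S.ho
  have t1 := S.tail S.ba
  have t2 := S.tail S.ca
  have t3 := S.tail S.da
  have t4 := S.tail S.cb
  have t5 := S.tail S.db
  have t6 := S.tail S.dc
  have t7 := S.tail S.oa
  have t8 := S.tail S.ob
  have t9 := S.tail S.oc
  have t10 := S.tail S.od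
  simp only [mul_assoc] at h0 h1 h2 h3 h4 t1 t2 t3 t4 t5 t6 t7 t8 t9 t10
  cases e0 <;> cases e1 <;> cases e2 <;> cases e3 <;> cases e4 <;>
    simp only [mf, pw, mul_assoc, one_mul, mul_one, S.ha, S.hb, S.hc, S.hd, S.ho, S.ba, S.ca, S.da,
      S.cb, S.db, S.dc, S.oa, S.ob, S.oc, S.od, h0, h1, h2, h3, h4, t1, t2, t3, t4, t5, t6, t7, t8,
      t9, t10, if_true, if_false, Bool.not_true, Bool.not_false, Bool.xor_true, Bool.xor_false,
      Bool.true_xor, Bool.false_xor, reduceCtorEq]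

theorem mf_d (e0 e1 e2 e3 e4 : Bool) :
    mf a b c d o e0 e1 e2 e3 e4 * d = mf a b c d o e0 e1 e2 (!e3) e4 := by
  have h0 := S.tail S.ha
  have h1 := S.tail S.hb
  have h2 := S.tail S.hc
  have h3 := S.tail S.hd
  have h4 := S.tail S.ho
  have t1 := S.tail S.ba
  have t2 := S.tail S.ca
  have t3 := S.tail S.da
  have t4 := S.tail S.cb
  have t5 := S.tail S.db
  have t6 := S.tail S.dc
  have t7 := S.tail S.oa
  have t8 := S.tail S.ob
  have t9 := S.tail S.oc
  have t10 := S.tail S.od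
  simp only [mul_assoc] at h0 h1 h2 h3 h4 t1 t2 t3 t4 t5 t6 t7 t8 t9 t10
  cases e0 <;> cases e1 <;> cases e2 <;> cases e3 <;> cases e4 <;>
    simp only [mf, pw, mul_assoc, one_mul, mul_one, S.ha, S.hb, S.hc, S.hd, S.ho, S.ba, S.ca, S.da,
      S.cb, S.db, S.dc, S.oa, S.ob, S.oc, S.od, h0, h1, h2, h3, h4, t1, t2, t3, t4, t5, t6, t7, t8,
      t9, t10, if_true, if_false, Bool.not_true, Bool.not_false, Bool.xor_true, Bool.xor_false,
      Bool.true_xor, Bool.false_xor, reduceCtorEq]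

/-- `a m = m a o^(e3)` and similarly for `b, c, d` -/
theorem a_mf (e0 e1 e2 e3 e4 : Bool) :
    a * mf a b c d o e0 e1 e2 e3 e4 = mf a b c d o e0 e1 e2 e3 e4 * (a * pw o e3) := by
  have hx : mf a b c d o e0 e1 e2 e3 e4 = mf a b c d o e0 e1 e2 e3 e4 := rfl
  have h0 := S.tail S.ha
  have h1 := S.tail S.hb
  have h2 := S.tail S.hc
  have h3 := S.tail S.hd
  have h4 := S.tail S.ho
  have t1 := S.tail S.ba
  have t2 := S.tail S.ca
  have t3 := S.tail S.da
  have t4 := S.tail S.cb
  have t5 := S.tail S.db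
  have t6 := S.tail S.dc
  have t7 := S.tail S.oa
  have t8 := S.tail S.ob
  have t9 := S.tail S.oc
  have t10 := S.tail S.od
  simp only [mul_assoc] at h0 h1 h2 h3 h4 t1 t2 t3 t4 t5 t6 t7 t8 t9 t10
  cases e0 <;> cases e1 <;> cases e2 <;> cases e3 <;> cases e4 <;>
    simp only [mf, pw, mul_assoc, one_mul, mul_one, S.ha, S.hb, S.hc, S.hd, S.ho, S.ba, S.ca, S.da,
      S.cb, S.db, S.dc, S.oa, S.ob, S.oc, S.od, h0, h1, h2, h3, h4, t1, t2, t3, t4, t5, t6, t7, t8,
      t9, t10, if_true, if_false, Bool.not_true, Bool.not_false, Bool.xor_true, Bool.xor_false,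
      Bool.true_xor, Bool.false_xor, reduceCtorEq]

theorem b_mf (e0 e1 e2 e3 e4 : Bool) :
    b * mf a b c d o e0 e1 e2 e3 e4 = mf a b c d o e0 e1 e2 e3 e4 * (b * pw o e2) := by
  have h0 := S.tail S.ha
  have h1 := S.tail S.hb
  have h2 := S.tail S.hc
  have h3 := S.tail S.hd
  have h4 := S.tail S.ho
  have t1 := S.tail S.ba
  have t2 := S.tail S.ca
  have t3 := S.tail S.da
  have t4 := S.tail S.cb
  have t5 := S.tail S.db
  have t6 := S.tail S.dc
  have t7 := S.tail S.oa
  have t8 := S.tail S.ob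
  have t9 := S.tail S.oc
  have t10 := S.tail S.od
  simp only [mul_assoc] at h0 h1 h2 h3 h4 t1 t2 t3 t4 t5 t6 t7 t8 t9 t10
  cases e0 <;> cases e1 <;> cases e2 <;> cases e3 <;> cases e4 <;>
    simp only [mf, pw, mul_assoc, one_mul, mul_one, S.ha, S.hb, S.hc, S.hd, S.ho, S.ba, S.ca, S.da,
      S.cb, S.db, S.dc, S.oa, S.ob, S.oc, S.od, h0, h1, h2, h3, h4, t1, t2, t3, t4, t5, t6, t7, t8,
      t9, t10, if_true, if_false, Bool.not_true, Bool.not_false, Bool.xor_true, Bool.xor_false,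
      Bool.true_xor, Bool.false_xor, reduceCtorEq]

theorem c_mf (e0 e1 e2 e3 e4 : Bool) :
    c * mf a b c d o e0 e1 e2 e3 e4 = mf a b c d o e0 e1 e2 e3 e4 * (c * pw o e1) := by
  have h0 := S.tail S.ha
  have h1 := S.tail S.hb
  have h2 := S.tail S.hc
  have h3 := S.tail S.hd
  have h4 := S.tail S.ho
  have t1 := S.tail S.ba
  have t2 := S.tail S.ca
  have t3 := S.tail S.da
  have t4 := S.tail S.cb
  have t5 := S.tail S.db
  have t6 := S.tail S.dc
  have t7 := S.tail S.oa
  have t8 := S.tail S.ob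
  have t9 := S.tail S.oc
  have t10 := S.tail S.od
  simp only [mul_assoc] at h0 h1 h2 h3 h4 t1 t2 t3 t4 t5 t6 t7 t8 t9 t10
  cases e0 <;> cases e1 <;> cases e2 <;> cases e3 <;> cases e4 <;>
    simp only [mf, pw, mul_assoc, one_mul, mul_one, S.ha, S.hb, S.hc, S.hd, S.ho, S.ba, S.ca, S.da,
      S.cb, S.db, S.dc, S.oa, S.ob, S.oc, S.od, h0, h1, h2, h3, h4, t1, t2, t3, t4, t5, t6, t7, t8,
      t9, t10, if_true, if_false, Bool.not_true, Bool.not_false, Bool.xor_true, Bool.xor_false,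
      Bool.true_xor, Bool.false_xor, reduceCtorEq]

theorem d_mf (e0 e1 e2 e3 e4 : Bool) :
    d * mf a b c d o e0 e1 e2 e3 e4 = mf a b c d o e0 e1 e2 e3 e4 * (d * pw o e0) := by
  have h0 := S.tail S.ha
  have h1 := S.tail S.hb
  have h2 := S.tail S.hc
  have h3 := S.tail S.hd
  have h4 := S.tail S.ho
  have t1 := S.tail S.ba
  have t2 := S.tail S.ca
  have t3 := S.tail S.da
  have t4 := S.tail S.cb
  have t5 := S.tail S.db
  have t6 := S.tail S.dc
  have t7 := S.tail S.oa
  have t8 := S.tail S.ob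
  have t9 := S.tail S.oc
  have t10 := S.tail S.od
  simp only [mul_assoc] at h0 h1 h2 h3 h4 t1 t2 t3 t4 t5 t6 t7 t8 t9 t10
  cases e0 <;> cases e1 <;> cases e2 <;> cases e3 <;> cases e4 <;>
    simp only [mf, pw, mul_assoc, one_mul, mul_one, S.ha, S.hb, S.hc, S.hd, S.ho, S.ba, S.ca, S.da,
      S.cb, S.db, S.dc, S.oa, S.ob, S.oc, S.od, h0, h1, h2, h3, h4, t1, t2, t3, t4, t5, t6, t7, t8,
      t9, t10, if_true, if_false, Bool.not_true, Bool.not_false, Bool.xor_true, Bool.xor_false,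
      Bool.true_xor, Bool.false_xor, reduceCtorEq]

theorem xb : x * b = a * x := by
  have h1 : b = x * a * x := by rw [S.xa, mul_assoc, S.hx, mul_one]
  rw [h1]
  simp only [mul_assoc, canc S.hx]

theorem xd : x * d = c * x := by
  have h1 : d = x * c * x := by rw [S.xc, mul_assoc, S.hx, mul_one]
  rw [h1]
  simp only [mul_assoc, canc S.hx]

end Sys

/-- normal form -/
def nf {T : Type u} [Group T] (a b c d o x y : T) (e0 e1 e2 e3 e4 e5 e6 : Bool) : T :=
  mf a b c d o e0 e1 e2 e3 e4 * (pw x e5 * pw y e6)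

namespace Sys

variable {T : Type u} [Group T] {a b c d o x y : T} (S : Sys a b c d o x y)
include S

theorem nf_x (e0 e1 e2 e3 e4 e5 e6 : Bool) :
    nf a b c d o x y e0 e1 e2 e3 e4 e5 e6 * x = nf a b c d o x y e0 e1 e2 e3 e4 (!e5) e6 := by
  have h := S.yx
  have hx := S.hx
  have h2 := canc S.hx
  cases e5 <;> cases e6 <;> simp [nf, pw, mul_assoc, h, hx, h2]

theorem nf_y (e0 e1 e2 e3 e4 e5 e6 : Bool) :
    nf a b c d o x y e0 e1 e2 e3 e4 e5 e6 * y = nf a b c d o x y e0 e1 e2 e3 e4 e5 (!e6) := by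
  have hy := S.hy
  cases e5 <;> cases e6 <;> simp [nf, pw, mul_assoc, hy]

theorem nf_a (e0 e1 e2 e3 e4 e5 e6 : Bool) : ∃ f0 f1 f2 f3 f4 : Bool,
    nf a b c d o x y e0 e1 e2 e3 e4 e5 e6 * a = nf a b c d o x y f0 f1 f2 f3 f4 e5 e6 := by
  cases e5 <;> cases e6
  · refine ⟨!e0, e1, e2, e3, xor e4 e3, ?_⟩
    rw [nf, nf, ← S.mf_a]
    simp [pw]
  · refine ⟨e0, e1, !e2, e3, e4, ?_⟩
    rw [nf, nf, ← S.mf_c]
    simp [pw, mul_assoc, S.ya]
  · refine ⟨e0, !e1, e2, e3, xor e4 e2, ?_⟩
    rw [nf, nf, ← S.mf_b]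
    simp [pw, mul_assoc, S.xa]
  · refine ⟨e0, e1, e2, !e3, e4, ?_⟩
    rw [nf, nf, ← S.mf_d]
    have h := S.tail S.xc
    simp [pw, mul_assoc, S.ya, h]

/-- every element is a normal form -/
theorem exists_nf (g : T) (hg : g ∈ closure ({x, y, a} : Set T)) : ∃ e0 e1 e2 e3 e4 e5 e6 : Bool,
    g = nf a b c d o x y e0 e1 e2 e3 e4 e5 e6 := by
  have hstep : ∀ s ∈ ({x, y, a} : Set T), ∀ e0 e1 e2 e3 e4 e5 e6 : Bool,
      ∃ f0 f1 f2 f3 f4 f5 f6 : Bool,
      nf a b c d o x y e0 e1 e2 e3 e4 e5 e6 * s = nf a b c d o x y f0 f1 f2 f3 f4 f5 f6 := by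
    rintro s (rfl | rfl | rfl) e0 e1 e2 e3 e4 e5 e6
    · exact ⟨_, _, _, _, _, _, _, S.nf_x e0 e1 e2 e3 e4 e5 e6⟩
    · exact ⟨_, _, _, _, _, _, _, S.nf_y e0 e1 e2 e3 e4 e5 e6⟩
    · obtain ⟨f0, f1, f2, f3, f4, h⟩ := S.nf_a e0 e1 e2 e3 e4 e5 e6
      exact ⟨_, _, _, _, _, _, _, h⟩
  have hinv : ∀ s ∈ ({x, y, a} : Set T), s⁻¹ = s := by
    rintro s (rfl | rfl | rfl)
    · exact inv_eq S.hx
    · exact inv_eq S.hy
    · exact inv_eq S.ha
  induction hg using Subgroup.closure_induction_right with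
  | one => exact ⟨false, false, false, false, false, false, false, by simp [nf, mf, pw]⟩
  | mul_right g hg s hs ih =>
    obtain ⟨e0, e1, e2, e3, e4, e5, e6, rfl⟩ := ih
    exact hstep s hs e0 e1 e2 e3 e4 e5 e6
  | mul_inv_cancel g hg s hs ih =>
    obtain ⟨e0, e1, e2, e3, e4, e5, e6, rfl⟩ := ih
    rw [hinv s hs]
    exact hstep s hs e0 e1 e2 e3 e4 e5 e6

theorem pw_o_a (e : Bool) : pw o e * a = a * pw o e := by
  cases e <;> simp [pw, S.oa]

theorem pw_sq (e : Bool) : pw o e * pw o e = 1 := by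
  cases e <;> simp [pw, S.ho]

theorem pw_c (e : Bool) : pw o e * c = c * pw o e := by
  cases e <;> simp [pw, S.oc]

theorem pw_b (e : Bool) : pw o e * b = b * pw o e := by
  cases e <;> simp [pw, S.ob]

/-- the key: `a` is not `a' o^e` -/
theorem kill_b (e : Bool) (h : b = a * pw o e) : o = 1 := by
  have h1 : c * b = b * c := by
    rw [h, ← mul_assoc, S.ca, mul_assoc, ← S.pw_c, ← mul_assoc]
  have h2 := S.cb
  rw [h1] at h2
  have h3 := mul_left_cancel h2
  exact (mul_eq_left.mp h3.symm)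

theorem kill_c (e : Bool) (h : c = a * pw o e) : o = 1 := by
  have h1 : c * b = b * c := by
    rw [h, mul_assoc, S.pw_b, ← mul_assoc, ← S.ba, mul_assoc]
  have h2 := S.cb
  rw [h1] at h2
  have h3 := mul_left_cancel h2
  exact (mul_eq_left.mp h3.symm)

theorem kill_d (e : Bool) (h : d = a * pw o e) : o = 1 := by
  have h1 : d * a = a * d := by
    rw [h, mul_assoc, S.pw_o_a]
  have h2 := S.da
  rw [h1] at h2
  have h3 := mul_left_cancel h2
  exact (mul_eq_left.mp h3.symm)

theorem kill_o (ho1 : o ≠ 1) {p : T} (e : Bool) (h : p = p * pw o e) : e = false := by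
  cases e
  · rfl
  · exact absurd (mul_eq_left.mp h.symm) ho1

theorem mf_one (ho1 : o ≠ 1) (e0 e1 e2 e3 e4 : Bool) (h : mf a b c d o e0 e1 e2 e3 e4 = 1) :
    e0 = false ∧ e1 = false ∧ e2 = false ∧ e3 = false ∧ e4 = false := by
  have h3 := S.a_mf e0 e1 e2 e3 e4
  have h2 := S.b_mf e0 e1 e2 e3 e4
  have h1 := S.c_mf e0 e1 e2 e3 e4
  have h0 := S.d_mf e0 e1 e2 e3 e4
  rw [h, mul_one, one_mul] at h0 h1 h2 h3
  have g0 := S.kill_o ho1 e0 h0
  have g1 := S.kill_o ho1 e1 h1
  have g2 := S.kill_o ho1 e2 h2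
  have g3 := S.kill_o ho1 e3 h3
  refine ⟨g0, g1, g2, g3, ?_⟩
  subst g0 g1 g2 g3
  have h4 : pw o e4 = 1 := by simpa [mf, pw] using h
  exact S.kill_o ho1 e4 (p := 1) (by rw [h4, mul_one])

/-- normal forms are unique -/
theorem nf_one (ho1 : o ≠ 1) (e0 e1 e2 e3 e4 e5 e6 : Bool)
    (h : nf a b c d o x y e0 e1 e2 e3 e4 e5 e6 = 1) :
    e0 = false ∧ e1 = false ∧ e2 = false ∧ e3 = false ∧ e4 = false ∧ e5 = false ∧ e6 = false := by
  have key : ∀ g a' : T, mf a b c d o e0 e1 e2 e3 e4 * g = 1 → g * a = a' * g →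
      a' = a * pw o e3 := by
    intro g a' h1 h2
    have h3 : g * mf a b c d o e0 e1 e2 e3 e4 = 1 := mul_eq_one_comm.mp h1
    have h4 : mf a b c d o e0 e1 e2 e3 e4 * a' = a * mf a b c d o e0 e1 e2 e3 e4 := by
      calc mf a b c d o e0 e1 e2 e3 e4 * a' =
          mf a b c d o e0 e1 e2 e3 e4 * (a' * g) * mf a b c d o e0 e1 e2 e3 e4 := by
            rw [mul_assoc, mul_assoc, h3, mul_one]
        _ = mf a b c d o e0 e1 e2 e3 e4 * g * a * mf a b c d o e0 e1 e2 e3 e4 := by
            rw [← h2]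
            simp only [mul_assoc]
        _ = a * mf a b c d o e0 e1 e2 e3 e4 := by rw [h1, one_mul]
    rw [S.a_mf] at h4
    exact mul_left_cancel h4
  cases e5 <;> cases e6
  · have h1 : mf a b c d o e0 e1 e2 e3 e4 = 1 := by simpa [nf, pw] using h
    obtain ⟨g0, g1, g2, g3, g4⟩ := S.mf_one ho1 e0 e1 e2 e3 e4 h1
    exact ⟨g0, g1, g2, g3, g4, rfl, rfl⟩
  · exact absurd (S.kill_c e3 (key y c (by simpa [nf, pw] using h) S.ya)) ho1
  · exact absurd (S.kill_b e3 (key x b (by simpa [nf, pw] using h) S.xa)) ho1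
  · refine absurd (S.kill_d e3 (key (x * y) d (by simpa [nf, pw] using h) ?_)) ho1
    rw [mul_assoc, S.ya, ← mul_assoc, S.xc, mul_assoc]

end Sys

theorem map_mf {T : Type u} [Group T] {K : Type v} [Group K] (f : T →* K) (a b c d o : T)
    (e0 e1 e2 e3 e4 : Bool) : f (mf a b c d o e0 e1 e2 e3 e4) =
      mf (f a) (f b) (f c) (f d) (f o) e0 e1 e2 e3 e4 := by
  simp only [mf, map_mul, map_pw]

theorem map_nf {T : Type u} [Group T] {K : Type v} [Group K] (f : T →* K) (a b c d o x y : T)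
    (e0 e1 e2 e3 e4 e5 e6 : Bool) : f (nf a b c d o x y e0 e1 e2 e3 e4 e5 e6) =
      nf (f a) (f b) (f c) (f d) (f o) (f x) (f y) e0 e1 e2 e3 e4 e5 e6 := by
  simp only [nf, map_mul, map_pw, map_mf]

theorem Laws.sys {T : Type u} [Group T] {x y z : T} (L : Laws x y z) :
    Sys z (x * z * x) (y * z * y) (x * (y * z * y) * x) (c2 z (x * (y * z * y) * x)) x y := by
  have hz := L.hz
  have hb := L.sq_b
  have hc := L.sq_c
  have hd := L.sq_d
  have he := L.omega_eq
  have ho := L.h3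
  have ho' : c2 (x * z * x) (y * z * y) * c2 (x * z * x) (y * z * y) = 1 := by rw [← he]; exact ho
  refine ⟨hz, hb, hc, hd, ho, L.hx, L.hy, L.h1.eq.symm, L.h2.eq.symm, ?_, ?_, L.comm_bd.eq.symm,
    L.comm_cd.eq.symm, ?_, ?_, ?_, ?_, ?_, ?_, ?_, L.yx⟩
  · -- `d z = z d ω`
    rw [c2_def]
    have h : ∀ d : T, d * d = 1 → c2 z d * c2 z d = 1 → d * z = z * (d * (z * d * (z * d))) := by
      intro d hd h
      have h1 : d * z = d * z * (c2 z d * c2 z d) := by rw [h, mul_one]
      rw [h1]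
      simp only [c2_def, mul_assoc, canc hd, canc hz]
    exact h _ hd ho
  · rw [he, c2_def]
    have h : ∀ b c : T, b * b = 1 → c * c = 1 → c2 b c * c2 b c = 1 →
        c * b = b * (c * (b * c * (b * c))) := by
      intro b c hb hc h
      have h1 : c * b = c * b * (c2 b c * c2 b c) := by rw [h, mul_one]
      rw [h1]
      simp only [c2_def, mul_assoc, canc hb, canc hc]
    exact h _ _ hb hc ho'
  · exact (c2_comm_left hz hd ho).eq
  · rw [he]
    exact (c2_comm_left hb hc ho').eq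
  · rw [he]
    exact (c2_comm_right hb hc ho').eq
  · exact (c2_comm_right hz hd ho).eq
  · simp only [mul_assoc, L.hx, mul_one]
  · simp only [mul_assoc, L.hx, mul_one]
  · simp only [mul_assoc, L.hy, mul_one]

/-- the generators of `P128` -/
def gx : P128 := PresentedGroup.of (0 : Fin 3)
def gy : P128 := PresentedGroup.of (1 : Fin 3)
def gz : P128 := PresentedGroup.of (2 : Fin 3)

theorem laws_of {T : Type u} [Group T] {x y z : T} (h1 : x * x = 1) (h2 : y * y = 1)
    (h3 : z * z = 1) (h4 : (x * y) ^ 2 = 1) (h5 : (x * z) ^ 4 = 1) (h6 : (y * z) ^ 4 = 1)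
    (h7 : (z * (x * y * z * y * x)) ^ 4 = 1) (h8 : (x * (z * y * z)) ^ 4 = 1) : Laws x y z := by
  have hc : ∀ p q : T, p * p = 1 → q * q = 1 → (p * q) ^ 4 = 1 → Commute q (p * q * p) := by
    intro p q hp hq h
    refine comm_of_four hq hp ?_
    have h0 := c2_symm_one hp (four_of_pow h)
    exact h0
  refine ⟨h1, h2, h3, ?_, hc x z h1 h3 h5, hc y z h2 h3 h6, ?_, four_of_pow h8⟩
  · show x * y = y * x
    have h : x * y * (x * y) = 1 := by rw [← pow_two]; exact h4
    rw [← inv_eq h, mul_inv_rev, inv_eq h1, inv_eq h2]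
  · have e : x * (y * z * y) * x = x * y * z * y * x := by simp only [mul_assoc]
    rw [e]
    exact four_of_pow h7

theorem Laws.rel {T : Type u} [Group T] {x y z : T} (L : Laws x y z) :
    ∀ r ∈ rels, FreeGroup.lift ![x, y, z] r = 1 := by
  have e : x * (y * z * y) * x = x * y * z * y * x := by simp only [mul_assoc]
  have h3 := L.h3
  rw [e] at h3
  have hc : ∀ p q : T, p * p = 1 → q * q = 1 → Commute q (p * q * p) → (p * q) ^ 4 = 1 := by
    intro p q hp hq h
    exact pow_of_four (c2_symm_one hq (four_of_comm hq hp h))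
  have e0 : FreeGroup.lift ![x, y, z] (FreeGroup.of (0 : Fin 3)) = x := by
    simp
  have e1 : FreeGroup.lift ![x, y, z] (FreeGroup.of (1 : Fin 3)) = y := by
    simp
  have e2 : FreeGroup.lift ![x, y, z] (FreeGroup.of (2 : Fin 3)) = z := by
    simp
  rintro r (rfl | rfl | rfl | rfl | rfl | rfl | rfl | rfl)
  · rw [map_mul, e0]
    exact L.hx
  · rw [map_mul, e1]
    exact L.hy
  · rw [map_mul, e2]
    exact L.hz
  · rw [map_pow, map_mul, e0, e1, pow_two]
    calc x * y * (x * y) = x * y * (y * x) := by rw [L.yx]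
      _ = 1 := by simp only [mul_assoc, canc L.hy, L.hx]
  · rw [map_pow, map_mul, e0, e2]
    exact hc x z L.hx L.hz L.h1
  · rw [map_pow, map_mul, e1, e2]
    exact hc y z L.hy L.hz L.h2
  · simp only [map_pow, map_mul, e0, e1, e2]
    exact pow_of_four h3
  · simp only [map_pow, map_mul, e0, e1, e2]
    exact pow_of_four L.h4

/-- the map from `P128` -/
def toT {T : Type u} [Group T] {x y z : T} (L : Laws x y z) : P128 →* T :=
  PresentedGroup.toGroup (f := ![x, y, z]) L.rel

theorem toT_x {T : Type u} [Group T] {x y z : T} (L : Laws x y z) : toT L gx = x := by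
  rw [toT, gx, PresentedGroup.toGroup.of]
  rfl

theorem toT_y {T : Type u} [Group T] {x y z : T} (L : Laws x y z) : toT L gy = y := by
  rw [toT, gy, PresentedGroup.toGroup.of]
  rfl

theorem toT_z {T : Type u} [Group T] {x y z : T} (L : Laws x y z) : toT L gz = z := by
  rw [toT, gz, PresentedGroup.toGroup.of]
  rfl

theorem mk_x : PresentedGroup.mk rels (FreeGroup.of (0 : Fin 3)) = gx := rfl
theorem mk_y : PresentedGroup.mk rels (FreeGroup.of (1 : Fin 3)) = gy := rfl
theorem mk_z : PresentedGroup.mk rels (FreeGroup.of (2 : Fin 3)) = gz := rfl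

theorem lawsP : Laws gx gy gz := by
  have h : ∀ r ∈ rels, PresentedGroup.mk rels r = 1 := fun r hr =>
    PresentedGroup.one_of_mem hr
  refine laws_of ?_ ?_ ?_ ?_ ?_ ?_ ?_ ?_
  · have := h _ (Or.inl rfl)
    simpa only [map_mul, mk_x] using this
  · have := h _ (Or.inr (Or.inl rfl))
    simpa only [map_mul, mk_y] using this
  · have := h _ (Or.inr (Or.inr (Or.inl rfl)))
    simpa only [map_mul, mk_z] using this
  · have := h _ (Or.inr (Or.inr (Or.inr (Or.inl rfl))))
    simpa only [map_mul, map_pow, mk_x, mk_y] using this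
  · have := h _ (Or.inr (Or.inr (Or.inr (Or.inr (Or.inl rfl)))))
    simpa only [map_mul, map_pow, mk_x, mk_z] using this
  · have := h _ (Or.inr (Or.inr (Or.inr (Or.inr (Or.inr (Or.inl rfl))))))
    simpa only [map_mul, map_pow, mk_y, mk_z] using this
  · have := h _ (Or.inr (Or.inr (Or.inr (Or.inr (Or.inr (Or.inr (Or.inl rfl)))))))
    simpa only [map_mul, map_pow, mk_x, mk_y, mk_z] using this
  · have := h _ (Or.inr (Or.inr (Or.inr (Or.inr (Or.inr (Or.inr (Or.inr rfl)))))))
    simpa only [map_mul, map_pow, mk_x, mk_y, mk_z] using this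

theorem closureP : closure ({gx, gy, gz} : Set P128) = ⊤ := by
  have h := PresentedGroup.closure_range_of rels
  rw [eq_top_iff, ← h, closure_le]
  rintro _ ⟨i, rfl⟩
  apply Subgroup.subset_closure
  fin_cases i
  · exact Or.inl rfl
  · exact Or.inr (Or.inl rfl)
  · exact Or.inr (Or.inr rfl)

/-- `(x y z)⁴ = [z, z^(xy)]` -/
theorem Laws.pow_eq {T : Type u} [Group T] {x y z : T} (L : Laws x y z) :
    (x * y * z) ^ 4 = c2 z (x * (y * z * y) * x) := by
  have hd := L.sq_d
  have e1 : x * y * z * (x * y * z) = x * (y * z * y) * x * z := by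
    calc x * y * z * (x * y * z) = x * y * z * (y * x) * z := by
          rw [← L.yx]
          simp only [mul_assoc]
      _ = x * (y * z * y) * x * z := by simp only [mul_assoc]
  have e2 : (x * y * z) ^ 4 = c2 (x * (y * z * y) * x) z := by
    calc (x * y * z) ^ 4 = x * y * z * (x * y * z) * (x * y * z * (x * y * z)) := by
          simp only [pow_succ, pow_zero, one_mul, mul_assoc]
      _ = c2 (x * (y * z * y) * x) z := by rw [e1, c2_def]
  rw [e2]
  have h := L.h3
  generalize x * (y * z * y) * x = d at *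
  have h1 : c2 z d * c2 d z = 1 := by
    simp only [c2_def, mul_assoc, canc hd, canc L.hz, L.hz]
  calc c2 d z = c2 z d * c2 z d * c2 d z := by rw [h, one_mul]
    _ = c2 z d * (c2 z d * c2 d z) := by rw [mul_assoc]
    _ = c2 z d := by rw [h1, mul_one]

/-- `T = ⟨x, y, z⟩` with these laws is `P128` or `(x y z)⁴ = 1` -/
theorem bijective_toT {T : Type u} [Group T] {x y z : T} (L : Laws x y z)
    (h4 : (x * y * z) ^ 4 ≠ 1) (hT : closure ({x, y, z} : Set T) = ⊤) :
    Function.Bijective (toT L) := by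
  constructor
  · rw [injective_iff_map_eq_one]
    intro g hg
    obtain ⟨e0, e1, e2, e3, e4, e5, e6, rfl⟩ := lawsP.sys.exists_nf g (by rw [closureP]; trivial)
    have hm : ∀ p q : P128, toT L (c2 p q) = c2 (toT L p) (toT L q) := by
      intro p q
      simp only [c2_def, map_mul]
    rw [map_nf, hm] at hg
    simp only [map_mul, toT_x, toT_y, toT_z] at hg
    obtain ⟨rfl, rfl, rfl, rfl, rfl, rfl, rfl⟩ := L.sys.nf_one (by rw [← L.pow_eq]; exact h4) _ _ _ _ _ _ _ hg
    simp [nf, mf, pw]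
  · rw [← MonoidHom.range_eq_top, eq_top_iff, ← hT, closure_le]
    rintro _ (rfl | rfl | rfl)
    · exact ⟨gx, toT_x L⟩
    · exact ⟨gy, toT_y L⟩
    · exact ⟨gz, toT_z L⟩

end Pool.Agent.Helper94.SV.K6
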