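import Pool.Agent.Helper94.SV.KSec

/-!
# Groups whose finite subgroups do not involve `P128`

`NoInv G`: no section `H / N` of `G` with `N` locally finite is isomorphic to `P128`. This is the case as soon
as no finite subgroup of `G` has a section isomorphic to `P128` (`NoInv.of_finite`), and it is inherited by
subgroups and by quotients by locally finite normal subgroups.
-/

set_option autoImplicit false

open Subgroup

namespace Pool.Agent.Helper94.SV.KI

open Pool.Agent.Helper94.SV.Frame
open Pool.Agent.Helper94.SV.K6 (P128 Laws toT bijective_toT Laws.sub laws_dlaw)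
open Pool.Agent.Helper89.SV (P3 Path)

universe u v w

/-- extensions of locally finite groups -/
theorem lf_comap_hom {A : Type u} [Group A] {B : Type v} [Group B] (f : A →* B) (hk : LF f.ker)
    (N : Subgroup B) (hN : LF N) : LF (N.comap f) := by
  intro S hS hSN
  have hfg : Group.FG (closure S) := (Group.fg_iff_subgroup_fg _).mpr ⟨hS.toFinset, by simp⟩
  set φ : closure S →* B := f.comp (closure S).subtype with hφ
  have hran : φ.range = closure (f '' S) := by
    rw [hφ, MonoidHom.range_comp, Subgroup.range_subtype, MonoidHom.map_closure]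
  have hfin : Finite φ.range := by
    rw [hran]
    refine hN _ (hS.image _) ?_
    rintro _ ⟨x, hx, rfl⟩
    exact hSN hx
  have hidx : φ.ker.index ≠ 0 := by
    rw [Subgroup.index_ker]
    exact Nat.card_pos.ne'
  have hfi : φ.ker.FiniteIndex := ⟨hidx⟩
  have hkfg : φ.ker.FG := (Group.fg_iff_subgroup_fg _).mp (Subgroup.fg_of_index_ne_zero φ.ker)
  obtain ⟨T, hT⟩ := hkfg
  have hTfin : Finite (closure ((closure S).subtype '' (T : Set (closure S)))) := by
    refine hk _ (T.finite_toSet.image _) ?_
    rintro _ ⟨x, hx, rfl⟩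
    have h1 : x ∈ φ.ker := hT ▸ subset_closure hx
    have h2 : φ x = 1 := h1
    exact h2
  have hkfin : Finite φ.ker := by
    have h1 : φ.ker.map (closure S).subtype = closure ((closure S).subtype '' (T : Set (closure S))) := by
      rw [← hT, MonoidHom.map_closure]
    have h2 : Finite (φ.ker.map (closure S).subtype) := by rw [h1]; exact hTfin
    exact Finite.of_equiv _ (φ.ker.equivMapOfInjective _ (closure S).subtype_injective).symm.toEquiv
  apply Nat.finite_of_card_ne_zero
  rw [← φ.ker.card_mul_index]
  exact mul_ne_zero Nat.card_pos.ne' hidx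

theorem lf_of_finite {A : Type u} [Group A] (N : Subgroup A) (h : Finite N) : LF N := by
  intro S _ hSN
  have h1 : closure S ≤ N := (closure_le N).mpr hSN
  exact Finite.of_injective _ (Subgroup.inclusion_injective h1)

theorem lf_bot {A : Type u} [Group A] : LF (⊥ : Subgroup A) := lf_of_finite _ inferInstance

theorem lf_ker_of_injective {A : Type u} [Group A] {B : Type v} [Group B] (f : A →* B)
    (hf : Function.Injective f) : LF f.ker := by
  rw [(MonoidHom.ker_eq_bot_iff f).mpr hf]
  exact lf_bot

/-- no section `H / N` with `N` locally finite is isomorphic to `P128` -/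
def NoInv (G : Type u) [Group G] : Prop :=
  ∀ (H : Subgroup G) (N : Subgroup H) [N.Normal], LF N → IsEmpty ((H ⧸ N) ≃* P128)

theorem NoInv.surj {G : Type u} [Group G] (hG : NoInv G) (H : Subgroup G) {K : Type v}
    [Group K] (f : H →* K) (hf : Function.Surjective f) (hk : LF f.ker) : IsEmpty (K ≃* P128) := by
  have e : H ⧸ f.ker ≃* K := QuotientGroup.quotientKerEquivOfSurjective f hf
  exact ⟨fun h => (hG H f.ker hk).false (e.trans h)⟩

theorem NoInv.quotient {G : Type u} [Group G] (hG : NoInv G) (R : Subgroup G) [R.Normal] (hR : LF R) :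
    NoInv (G ⧸ R) := by
  intro H N _ hN
  set f := QuotientGroup.mk' R with hfdef
  have hf : Function.Surjective f := QuotientGroup.mk'_surjective R
  let g : H.comap f →* H := (f.comp (H.comap f).subtype).codRestrict H (fun x => x.2)
  have hg : Function.Surjective g := by
    intro h
    obtain ⟨x, hx⟩ := hf h
    have hxH : x ∈ H.comap f := by
      rw [Subgroup.mem_comap, hx]
      exact h.2
    exact ⟨⟨x, hxH⟩, Subtype.ext hx⟩
  have hgk : LF g.ker := by
    have h1 : g.ker = R.comap (H.comap f).subtype := by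
      ext x
      rw [MonoidHom.mem_ker, Subgroup.mem_comap]
      constructor
      · intro h
        have h2 : f x = 1 := congrArg Subtype.val h
        exact (QuotientGroup.eq_one_iff _).mp h2
      · intro h
        apply Subtype.ext
        exact (QuotientGroup.eq_one_iff _).mpr h
    rw [h1]
    exact lf_comap_hom _ (lf_ker_of_injective _ (H.comap f).subtype_injective) R hR
  have hs : Function.Surjective ((QuotientGroup.mk' N).comp g) :=
    (QuotientGroup.mk'_surjective N).comp hg
  refine hG.surj (H.comap f) _ hs ?_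
  rw [← MonoidHom.comap_ker, QuotientGroup.ker_mk']
  exact lf_comap_hom g hgk N hN

theorem NoInv.subgroup {G : Type u} [Group G] (hG : NoInv G) (H : Subgroup G) : NoInv H := by
  intro K N _ hN
  have e : K ≃* K.map H.subtype := K.equivMapOfInjective H.subtype H.subtype_injective
  have hs : Function.Surjective ((QuotientGroup.mk' N).comp e.symm.toMonoidHom) :=
    (QuotientGroup.mk'_surjective N).comp e.symm.surjective
  refine hG.surj (K.map H.subtype) _ hs ?_
  rw [← MonoidHom.comap_ker, QuotientGroup.ker_mk']
  exact lf_comap_hom _ (lf_ker_of_injective _ e.symm.injective) N hN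

/-- it is enough to consider finite subgroups -/
theorem NoInv.of_finite {G : Type u} [Group G]
    (h : ∀ (H : Subgroup G) (N : Subgroup H) [N.Normal], Finite H → IsEmpty ((H ⧸ N) ≃* P128))
    (hfin : Finite P128) : NoInv G := by
  intro H N _ hN
  constructor
  intro e
  -- lifts of the elements of `P128`
  have hlift : ∀ p : P128, ∃ x : H, QuotientGroup.mk' N x = e.symm p := fun p =>
    QuotientGroup.mk'_surjective N _
  choose l hl using hlift
  have hTop : LF (⊤ : Subgroup (H ⧸ N)) := by
    have h1 : Finite (H ⧸ N) := Finite.of_equiv _ e.symm.toEquiv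
    exact lf_of_finite _ inferInstance
  have hTopH : LF (⊤ : Subgroup H) := by
    have h1 := lf_comap_hom (QuotientGroup.mk' N) (by rw [QuotientGroup.ker_mk']; exact hN) ⊤ hTop
    rwa [Subgroup.comap_top] at h1
  have hF : Finite (closure (Set.range l)) := hTopH _ (Set.finite_range l) (fun x _ => mem_top x)
  set F : Subgroup H := closure (Set.range l) with hFdef
  let F' : Subgroup G := F.map H.subtype
  have e' : F ≃* F' := F.equivMapOfInjective H.subtype H.subtype_injective
  have hF' : Finite F' := Finite.of_equiv _ e'.toEquiv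
  let f : F' →* P128 := e.toMonoidHom.comp ((QuotientGroup.mk' N).comp (F.subtype.comp e'.symm.toMonoidHom))
  have hf : Function.Surjective f := by
    intro p
    refine ⟨e' ⟨l p, subset_closure ⟨p, rfl⟩⟩, ?_⟩
    show e (QuotientGroup.mk' N (F.subtype (e'.symm (e' _)))) = p
    rw [MulEquiv.symm_apply_apply]
    show e (QuotientGroup.mk' N (l p)) = p
    rw [hl, MulEquiv.apply_symm_apply]
  exact (h F' f.ker hF').false (QuotientGroup.quotientKerEquivOfSurjective f hf)

theorem NoInv.pow_four {G : Type u} [Group G] (hG : NoInv G) {x y z : G} (L : Laws x y z) :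
    (x * y * z) ^ 4 = 1 := by
  by_contra h4
  let T := closure ({x, y, z} : Set G)
  have hx : x ∈ T := Subgroup.subset_closure (Or.inl rfl)
  have hy : y ∈ T := Subgroup.subset_closure (Or.inr (Or.inl rfl))
  have hz : z ∈ T := Subgroup.subset_closure (Or.inr (Or.inr rfl))
  have L' : Laws (⟨x, hx⟩ : T) ⟨y, hy⟩ ⟨z, hz⟩ := Laws.sub L
  have hT : closure ({⟨x, hx⟩, ⟨y, hy⟩, ⟨z, hz⟩} : Set T) = ⊤ := by
    have h := closure_closure_coe_preimage (k := ({x, y, z} : Set G))
    rw [eq_top_iff, ← h]
    apply Subgroup.closure_mono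
    rintro ⟨t, ht⟩ ht2
    rcases ht2 with h | h | h
    · exact Or.inl (Subtype.ext h)
    · exact Or.inr (Or.inl (Subtype.ext h))
    · exact Or.inr (Or.inr (Subtype.ext h))
  have hb := bijective_toT L' (fun h => h4 (congrArg Subtype.val h)) hT
  exact (hG.surj T (MonoidHom.id T) Function.surjective_id
    (lf_ker_of_injective _ Function.injective_id)).false (MulEquiv.ofBijective (toT L') hb).symm

/-- the path law -/
theorem NoInv.path {G : Type u} [Group G] (hG : NoInv G) {E : Set G} (hE : DLaw E) : Path E :=
  fun _ hx _ hy hxy _ hz => hG.pow_four (laws_dlaw hE hx hy hz hxy)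

/-- if `N` is finite, normalised by `x, y, z` and contains `[x, y]` then `(x y z)⁴ ∈ N` -/
theorem NoInv.mem {G : Type u} [Group G] (hG : NoInv G) {E : Set G} (hE : DLaw E) {x y z : G}
    (hx : x ∈ E) (hy : y ∈ E) (hz : z ∈ E) (N : Subgroup G) (hNf : Finite N) (hNx : ∀ n ∈ N, x * n * x ∈ N)
    (hNy : ∀ n ∈ N, y * n * y ∈ N) (hNz : ∀ n ∈ N, z * n * z ∈ N) (hxy : c2 x y ∈ N) :
    (x * y * z) ^ 4 ∈ N := by
  have hxx := hE.inv x hx
  have hyy := hE.inv y hy
  have hzz := hE.inv z hz
  have hnorm : ∀ t : G, t * t = 1 → (∀ n ∈ N, t * n * t ∈ N) → t ∈ normalizer (N : Set G) := by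
    intro t ht h
    rw [mem_normalizer_iff]
    intro n
    rw [inv_eq ht]
    constructor
    · exact h n
    · intro h1
      have h2 := h _ h1
      have e : t * (t * n * t) * t = n := by simp only [mul_assoc, canc ht, ht, mul_one]
      rwa [e] at h2
  let H := normalizer (N : Set G)
  have hxH : x ∈ H := hnorm x hxx hNx
  have hyH : y ∈ H := hnorm y hyy hNy
  have hzH : z ∈ H := hnorm z hzz hNz
  let N' : Subgroup H := N.subgroupOf H
  have hN' : N'.Normal := normal_in_normalizer
  have hN'f : LF N' := lf_comap_hom _ (lf_ker_of_injective _ H.subtype_injective) N (lf_of_finite N hNf)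
  let X : H := ⟨x, hxH⟩
  let Y : H := ⟨y, hyH⟩
  let Z : H := ⟨z, hzH⟩
  let q := QuotientGroup.mk' N'
  have hq : ∀ p : H, (p : G) = 1 → q p = 1 := by
    intro p hp
    have : p = 1 := Subtype.ext hp
    rw [this, map_one]
  have hqc : ∀ p r : H, (p : G) * r = r * p → Commute (q p) (q r) := by
    intro p r hpr
    have : p * r = r * p := Subtype.ext hpr
    show q p * q r = q r * q p
    rw [← map_mul, this, map_mul]
  have hc : Commute (q X) (q Y) := by
    have h1 : q (X * Y * (X * Y)) = 1 := by
      refine (QuotientGroup.eq_one_iff _).mpr ?_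
      exact hxy
    have h2 : (X * Y * (X * Y)) * (Y * X) = X * Y := by
      apply Subtype.ext
      show x * y * (x * y) * (y * x) = x * y
      simp only [mul_assoc, canc hyy, hxx, mul_one]
    show q X * q Y = q Y * q X
    rw [← map_mul, ← map_mul, ← h2, map_mul, h1, one_mul]
  have hL : Laws (q X) (q Y) (q Z) := by
    refine ⟨?_, ?_, ?_, hc, ?_, ?_, ?_, ?_⟩
    · rw [← map_mul]
      exact hq _ hxx
    · rw [← map_mul]
      exact hq _ hyy
    · rw [← map_mul]
      exact hq _ hzz
    · rw [← map_mul, ← map_mul]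
      exact hqc _ _ (comm_of_four hzz hxx (hE.four z hz x hx)).eq
    · rw [← map_mul, ← map_mul]
      exact hqc _ _ (comm_of_four hzz hyy (hE.four z hz y hy)).eq
    · have h1 : q (Z * (X * (Y * Z * Y) * X) * (Z * (X * (Y * Z * Y) * X)) *
          (Z * (X * (Y * Z * Y) * X) * (Z * (X * (Y * Z * Y) * X)))) = 1 :=
        hq _ (hE.four z hz _ (hE.conj' (hE.conj' hz hyy) hxx))
      simpa only [map_mul, c2_def] using h1
    · have h1 : q (X * (Z * Y * Z) * (X * (Z * Y * Z)) *
          (X * (Z * Y * Z) * (X * (Z * Y * Z)))) = 1 := hq _ (hE.four x hx _ (hE.conj' hy hzz))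
      simpa only [map_mul, c2_def] using h1
  have h4 := ((hG.subgroup H).quotient N' hN'f).pow_four hL
  have h5 : q ((X * Y * Z) ^ 4) = 1 := by
    rw [map_pow, map_mul, map_mul]
    exact h4
  have h6 : (X * Y * Z) ^ 4 ∈ N' := (QuotientGroup.eq_one_iff _).mp h5
  exact h6

/-- **Reduction** to quotients by locally finite normal subgroups -/
theorem lf_of_chain' (G : Type u) [Group G]
    (h : ∀ (N : Subgroup G) [N.Normal], LF N → NoLF (G ⧸ N) → ∀ E : Set (G ⧸ N), MaxLaw E →
      ∀ x ∈ E, x = 1)
    (D : Set G) (hD : DLaw D) : LF (closure D) := by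
  obtain ⟨R, hRn, hR, hRmax⟩ := exists_max_lf G
  have hQ : NoLF (G ⧸ R) := by
    intro N hN hN2
    have h1 : N.comap (QuotientGroup.mk' R) ≤ R := by
      refine hRmax _ inferInstance (lf_comap R hR N hN2) ?_
      intro x hx
      rw [Subgroup.mem_comap]
      have h2 : QuotientGroup.mk' R x = 1 := (QuotientGroup.eq_one_iff x).mpr hx
      rw [h2]
      exact one_mem _
    rw [Subgroup.eq_bot_iff_forall]
    intro z hz
    obtain ⟨x, rfl⟩ := QuotientGroup.mk'_surjective R z
    exact (QuotientGroup.eq_one_iff x).mpr (h1 hz)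
  obtain ⟨E, hDE, hE, hmax⟩ := exists_max (hD.image _ (QuotientGroup.mk'_surjective R))
  have h1 := h R hR hQ E ⟨hE, hmax⟩
  have h2 : closure D ≤ R := by
    rw [closure_le]
    intro x hx
    exact (QuotientGroup.eq_one_iff x).mp (h1 _ (hDE ⟨x, hx, rfl⟩))
  exact hR.mono h2

end Pool.Agent.Helper94.SV.KI
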