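import Pool.Agent.Helper94.SV.KFin
import Pool.Agent.Helper94.SV.TLF

/-!
# The frame for groups whose finite subgroups do not involve `P128`

Only sections with finite kernel are used: the three elements satisfy the relations of `P128`, or satisfy
them modulo four commuting involutions.  The exceptional triples are treated by `l1aP` (helper46) and `hth`
(helper89), the triples with `w_a = w_b = w_c` by `HKQ1` and `hth`.
-/

set_option autoImplicit false

open Subgroup

namespace Pool.Agent.Helper94.SV.KFF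

open Pool.Agent.Helper94.SV.Frame (c2 DLaw MaxLaw NoLF Thin LF thin_mem canc inv_eq
  thin_comm abelian_trivial pow_of_four four_of_pow comm_of_four c2_symm_one conj_sq mem_of_class)
open Pool.Agent.Helper94.SV.KI (NoInv lf_of_chain')
open Pool.Agent.Helper94.SV.TL (Closed TLaw QLaw MulClosed PLaw HKQ1 Exc law_of ww_shift comm_cj_of abc_one
  hkc hth)
open Pool.Agent.Helper94.SV.JPrime (dlaw_conjs locFin_of_lf_top)
open Pool.Agent.Helper46.SV (kk cj ww)
open Pool.Agent.Helper46.SV.TE (Law ej ww_comm_left ww_symm ek_comm)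
open Pool.Agent.Helper46.SV.RK (L1aP l1aP)
open Pool.Agent.Helper89.SV (P3 Path closed_of_path stage3)

universe u

section

variable {G : Type u} [Group G]

theorem tlaw (hG : NoInv G) {E : Set G} (hE : DLaw E) (hC : Closed E) : TLaw E :=
  fun _ hx _ hy _ hz => Pool.Agent.Helper94.SV.TLF.tl hG hE hC hx hy hz

/-- the section which kills `(a b c d)⁴`: `x = a^c`, `y = b^c`, `z = (c d)^a` satisfy the relations of
`P128` as soon as `(z z^(xy))⁴ = 1` -/
theorem sect (hG : NoInv G) {E : Set G} (hE : DLaw E) {a b c d : G} (ha : a ∈ E) (hb : b ∈ E)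
    (hc : c ∈ E) (hd : d ∈ E) (hab : Commute a b) (hcd : Commute c d)
    (h : (a * (c * d) * a * (c * (a * b) * c * (a * (c * d) * a) * (c * (a * b) * c))) ^ 4 = 1) :
    (c * (a * b) * c * (a * (c * d) * a)) ^ 4 = 1 := by
  have haa := hE.inv a ha
  have hbb := hE.inv b hb
  have hcc := hE.inv c hc
  have hdd := hE.inv d hd
  have hP := hG.path hE
  -- `z = (c d)^a` is an involution with `(z e)⁴ = 1` for `e` in `E`
  have hn : c * d * (c * d) = 1 := by
    have h1 : d * (c * d) = c := by rw [← mul_assoc, ← hcd.eq, mul_assoc, hdd, mul_one]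
    rw [mul_assoc, h1, hcc]
  have hz : a * (c * d) * a * (a * (c * d) * a) = 1 := by
    have e : a * (c * d) * a * (a * (c * d) * a) = a * (c * d * (a * a) * (c * d)) * a := by
      simp only [mul_assoc]
    rw [e, haa, mul_one, hn, mul_one, haa]
  have hS : ∀ e ∈ E, (e * (a * (c * d) * a)) ^ 4 = 1 := by
    intro e he
    have h1 := hP c hc d hd hcd (a * e * a) (hE.conj' he haa)
    have h2 : (e * (a * (c * d) * a)) ^ 4 = a * (a * e * a * (c * d * (a * e * a)) ^ 4 * (a * e * a)) * a := by
      have hea : a * e * a * (a * e * a) = 1 := conj_sq (hE.inv e he) haa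
      have e1 : a * e * a * (c * d * (a * e * a)) ^ 4 * (a * e * a) = (a * e * a * (c * d)) ^ 4 := by
        simp only [pow_succ, pow_zero, one_mul, mul_assoc, canc haa, hE.inv e he, mul_one, haa,
          canc (hE.inv e he)]
      rw [e1]
      simp only [pow_succ, pow_zero, one_mul, mul_assoc, canc haa, haa, mul_one]
    rw [h2, h1, mul_one]
    have hea : a * e * a * (a * e * a) = 1 := conj_sq (hE.inv e he) haa
    rw [hea, mul_one, haa]
  have hx : c * a * c ∈ E := hE.conj' ha hcc
  have hy : c * b * c ∈ E := hE.conj' hb hcc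
  have exy : c * a * c * (c * b * c) = c * (a * b) * c := by
    simp only [mul_assoc, canc hcc]
  have eyx : c * b * c * (c * a * c) = c * (a * b) * c := by
    have h1 : c * b * c * (c * a * c) = c * (b * a) * c := by simp only [mul_assoc, canc hcc]
    rw [h1, hab.eq]
  have hLaws : Pool.Agent.Helper94.SV.K6.Laws (c * a * c) (c * b * c) (a * (c * d) * a) := by
    refine ⟨hE.inv _ hx, hE.inv _ hy, hz, ?_, comm_cj_of (hE.inv _ hx) hz (hS _ hx),
      comm_cj_of (hE.inv _ hy) hz (hS _ hy), ?_, ?_⟩
    · show c * a * c * (c * b * c) = c * b * c * (c * a * c)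
      rw [exy, eyx]
    · apply four_of_pow
      have e : c * a * c * (c * b * c * (a * (c * d) * a) * (c * b * c)) * (c * a * c) =
          c * (a * b) * c * (a * (c * d) * a) * (c * (a * b) * c) := by
        rw [← exy]
        have e2 : c * a * c * (c * b * c) * (a * (c * d) * a) * (c * a * c * (c * b * c)) =
            c * a * c * (c * b * c) * (a * (c * d) * a) * (c * b * c * (c * a * c)) := by
          rw [exy, eyx]
        rw [e2]
        simp only [mul_assoc]
      rw [e]
      exact h
    · apply hE.four _ hx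
      have e : a * (c * d) * a * (c * b * c) * (a * (c * d) * a) =
          a * (c * (d * (a * (c * b * c) * a) * d) * c) * a := by
        have h1 : a * (c * d) * a * (c * b * c) * (a * (c * d) * a) =
            a * (c * d) * a * (c * b * c) * (a * (d * c) * a) := by rw [hcd.eq]
        rw [h1]
        simp only [mul_assoc]
      rw [e]
      exact hE.conj' (hE.conj' (hE.conj' (hE.conj' hy haa) hdd) hcc) haa
  have h4 := hG.pow_four hLaws
  rw [exy] at h4
  exact h4

/-- closure under products of commuting elements -/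
theorem mulClosed (hG : NoInv G) {E : Set G} (hE : MaxLaw E) (hP : PLaw E) : MulClosed E := by
  intro a ha b hb hab
  have hpath := hG.path hE.law
  have haa := hE.law.inv a ha
  have hbb := hE.law.inv b hb
  refine mem_of_class hE ?_ ?_ ?_
  · have h1 : b * (a * b) = a := by rw [← mul_assoc, ← hab.eq, mul_assoc, hbb, mul_one]
    rw [mul_assoc, h1, haa]
  · intro d hd
    exact four_of_pow (hpath a ha b hb hab d hd)
  · intro g
    apply four_of_pow
    have e : g * (a * b) * g⁻¹ = g * a * g⁻¹ * (g * b * g⁻¹) := by group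
    rw [e]
    refine hP a ha b hb _ (hE.law.conj g a ha) _ (hE.law.conj g b hb) hab ?_
    show g * a * g⁻¹ * (g * b * g⁻¹) = g * b * g⁻¹ * (g * a * g⁻¹)
    have h1 : g * a * g⁻¹ * (g * b * g⁻¹) = g * (a * b) * g⁻¹ := by group
    have h2 : g * b * g⁻¹ * (g * a * g⁻¹) = g * (b * a) * g⁻¹ := by group
    rw [h1, h2, hab.eq]

theorem plaw (hG : NoInv G) {E : Set G} (hE : DLaw E) (hC : Closed E) : PLaw E := by
  intro a ha b hb c hc d hd hab hcd
  obtain ⟨h1, h2⟩ := hkc G E hE hC (hG.path hE) a ha b hb c hc d hd hab hcd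
  exact h2 (sect hG hE ha hb hc hd hab hcd h1)

/-- the exceptional triples are trivial -/
theorem exc_trivial (hG : NoInv G) (hQ : NoLF G) {E : Set G} (hE : MaxLaw E)
    (hC : Closed E) {a b c : G} (ha : a ∈ E) (hb : b ∈ E) (hc : c ∈ E) (h : Exc a b c) :
    ww c a b = 1 := by
  have L := law_of hE.law hC
  have hP := hG.path hE.law
  have hL := l1aP hE.law hP hC (tlaw hG hE.law hC)
  -- the first type
  have key : ∀ b' ∈ E, ww a b' c = 1 → ww b' c a = 1 → ww c a b' = kk a b' → kk a b' = 1 := by
    intro b' hb' h1 h2 h3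
    refine thin_mem hQ hE.law (hC a ha b' hb') (hth G E hE.law hP hC a ha b' hb' ?_)
    intro e he h4
    rcases h4 with h4 | h4
    · exact (hL a ha b' hb' c hc e he h1 h2 h3 h4.symm).symm
    · have i1 : ww b' a c = 1 := by rw [ww_symm L ha hb' hc]; exact h2
      have i2 : ww a c b' = 1 := by rw [ww_symm L hc ha hb']; exact h1
      have i3 : ww c b' a = kk b' a := by rw [ww_symm L hb' hc ha, h3, ek_comm L.toDL ha hb']
      have k := hL b' hb' a ha c hc e he i1 i2 i3 h4.symm
      rw [ek_comm L.toDL hb' ha] at k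
      exact k.symm
  obtain ⟨h1, h2, h3 | h3⟩ := h
  · rw [h3]
    exact key b hb h1 h2 h3
  · have hbc := ej L.toDL hb hc
    obtain ⟨s1, s2, s3⟩ := ww_shift L ha hb hc
    rw [h3]
    refine key _ hbc ?_ ?_ ?_
    · rw [s1, h1]
    · rw [s2, h2]
    · rw [s3, h3]

theorem qlaw (hG : NoInv G) (hQ : NoLF G) {E : Set G} (hE : MaxLaw E) (hC : Closed E) : QLaw E := by
  have L := law_of hE.law hC
  intro x hx y hy z hz
  rcases tlaw hG hE.law hC x hx y hy z hz with h | h | h | h | h
  · exact Or.inl h
  · exact Or.inr h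
  · exact Or.inl (abc_one L hx hy hz h.1 h.2.1 (exc_trivial hG hQ hE hC hx hy hz h))
  · exact Or.inl (abc_one L hx hy hz (exc_trivial hG hQ hE hC hy hz hx h) h.1 h.2.1)
  · exact Or.inl (abc_one L hx hy hz h.2.1 (exc_trivial hG hQ hE hC hz hx hy h) h.1)

end

/-- `w_a = w_b = w_c` is thin -/
theorem thin_of_kq1 (h2 : HKQ1.{u}) {Q : Type u} [Group Q] {E : Set Q} (hD : DLaw E) (hP : Path E)
    (hC : Closed E) (hM : MulClosed E) (hQ : QLaw E) {a b c : Q} (ha : a ∈ E) (hb : b ∈ E) (hc : c ∈ E)
    (e1 : ww a b c = ww b c a) (e2 : ww b c a = ww c a b) : Thin E (ww a b c) := by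
  have L := law_of hD hC
  have hx := ej L.toDL hb ha
  have key : ∀ p q : Q, p ∈ E → q ∈ E → Commute (ww a p q) p → (∀ d ∈ E, Commute a d → Commute d (ww a p q)) →
      ∀ e ∈ E, Commute e (cj a p) → Commute e (ww a p q) := by
    intro p q hp _ hw hd e he hc
    have hpp := hD.inv p hp
    have h3 : Commute a (cj e p) := by
      show a * (p * e * p) = p * e * p * a
      have h4 : e * (p * a * p) = p * a * p * e := hc
      calc a * (p * e * p) = p * ((p * a * p) * e) * p := by
            simp only [mul_assoc, canc hpp]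
        _ = p * (e * (p * a * p)) * p := by rw [h4]
        _ = p * e * p * a := by simp only [mul_assoc, hpp, mul_one]
    have h5 := hd _ (ej L.toDL he hp) h3
    show e * ww a p q = ww a p q * e
    have h6 : p * e * p * ww a p q = ww a p q * (p * e * p) := h5
    have h7 : ww a p q * p = p * ww a p q := hw
    calc e * ww a p q = p * (p * e * p * (p * ww a p q)) := by
          simp only [mul_assoc, canc hpp]
      _ = p * (p * e * p * (ww a p q * p)) := by rw [h7]
      _ = p * (p * e * p * ww a p q) * p := by simp only [mul_assoc]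
      _ = p * (ww a p q * (p * e * p)) * p := by rw [h6]
      _ = (p * ww a p q) * p * e * (p * p) := by simp only [mul_assoc]
      _ = (ww a p q * p) * p * e * (p * p) := by rw [h7]
      _ = ww a p q * e := by rw [mul_assoc (ww a p q) p p, hpp, mul_one, mul_one]
  refine hth Q E hD hP hC (cj a b) (ej L.toDL ha hb) (cj a c) (ej L.toDL ha hc) ?_
  have hd1 : ∀ d ∈ E, Commute a d → Commute d (ww a b c) := fun d hd h =>
    h2 Q E hD hP hC hM hQ a ha b hb c hc d hd e1 e2 h
  have hsym : ww a b c = ww a c b := Pool.Agent.Helper46.SV.TE.ww_symm L hb ha hc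
  intro e he h
  rcases h with h | h
  · exact key b c hb hc (ww_comm_left L hb ha hc) hd1 e he h
  · have h8 := key c b hc hb (ww_comm_left L hc ha hb) (fun d hd h => by rw [← hsym]; exact hd1 d hd h) e he h
    rw [← hsym] at h8
    exact h8

section

variable {G : Type u} [Group G]

theorem p3 (h2 : HKQ1.{u}) (hG : NoInv G) (hQ : NoLF G) {E : Set G} (hE : MaxLaw E) (hC : Closed E) :
    P3 E := by
  have L := law_of hE.law hC
  have hP := hG.path hE.law
  have hQL := qlaw hG hQ hE hC
  have hM := mulClosed hG hE (plaw hG hE.law hC)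
  intro x hx y hy z hz
  rcases hQL x hx y hy z hz with h | ⟨h1, h3⟩
  · exact h
  · have h4 : ww x y z = 1 := thin_mem hQ hE.law (hC _ (ej L.toDL hx hy) _ (ej L.toDL hx hz))
      (thin_of_kq1 h2 hE.law hP hC hM hQL hx hy hz h1 h3)
    exact abc_one L hx hy hz h4 (h1.symm.trans h4) ((h1.trans h3).symm.trans h4)

/-- the maximal `DLaw` sets are trivial -/
theorem triv (h2 : HKQ1.{u}) (hG : NoInv G) (hQ : NoLF G) {E : Set G} (hE : MaxLaw E) : ∀ x ∈ E, x = 1 := by
  have hC : Closed E := closed_of_path hE (hG.path hE.law)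
  exact stage3 hQ hE (p3 h2 hG hQ hE hC)

end

/-- every `DLaw` set generates a locally finite subgroup -/
theorem lf_of_noInv (h2 : HKQ1.{u}) (G : Type u) [Group G] (hG : NoInv G) (D : Set G) (hD : DLaw D) :
    LF (closure D) :=
  lf_of_chain' G (fun N _ hN hNLF _ hE => triv h2 (hG.quotient N hN) hNLF hE) D hD

/-- **Theorem K**, finite subgroups -/
theorem partK (h2 : HKQ1.{u}) (G : Type u) [Group G] {x : G} (hx : x * x = 1)
    (hE : ∀ g : G, cm (cm (cm g x) x) x = 1) (hN : NoInv (normalClosure ({x} : Set G))) :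
    LocFin (normalClosure ({x} : Set G)) := by
  have h1 := lf_of_noInv h2 _ hN _ (dlaw_conjs hx hE)
  have h3 : closure (insert 1 (Pool.Agent.Helper94.SV.conjs x)) = ⊤ := by
    rw [eq_top_iff, ← Pool.Agent.Helper94.SV.closure_conjs x]
    exact Subgroup.closure_mono (Set.subset_insert _ _)
  rw [h3] at h1
  exact locFin_of_lf_top h1

/-- **Theorem K** with Sylow subgroups of `S_8` and finite subgroups -/
theorem partK' (h2 : HKQ1.{u}) (G : Type u) [Group G] {x : G} (hx : x * x = 1)
    (hE : ∀ g : G, cm (cm (cm g x) x) x = 1) (P : Sylow 2 (Equiv.Perm (Fin 8)))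
    (hP : ∀ (H : Subgroup (normalClosure ({x} : Set G))) (K : Subgroup H) [K.Normal], Finite H →
      IsEmpty ((H ⧸ K) ≃* P)) :
    LocFin (normalClosure ({x} : Set G)) := by
  have : Fact (Nat.Prime 2) := ⟨Nat.prime_two⟩
  obtain ⟨e⟩ := Pool.Agent.Helper94.SV.K6.equiv_sylow P
  refine partK h2 G hx hE (Pool.Agent.Helper94.SV.KI.NoInv.of_finite ?_ (Finite.of_equiv _ e.symm.toEquiv))
  intro H N _ hH
  exact ⟨fun f => (hP H N hH).false (f.trans e)⟩

end Pool.Agent.Helper94.SV.KFF
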