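import Pool.Agent.Helper94.SV.KFF
import Pool.Agent.Helper94.SV.Dih

/-!
# Groups whose finite subgroups have no dihedral section of order 16

`NoF G`: no section of a finite subgroup of `G` is dihedral of order 16.  A 2-group with this property is
locally finite.
-/

set_option autoImplicit false

open Subgroup

namespace Pool.Agent.Helper94.SV.KTwo

open Pool.Agent.Helper94.SV.Frame
open Pool.Agent.Helper94.SV.Sec
open Pool.Agent.Helper94.SV.K6 (P128 gx gy gz lawsP omega_ne card_P128)
open Pool.Agent.Helper94.SV.KI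
open Pool.Agent.Helper94.SV.TL (HKQ1)
open Pool.Agent.Helper94.SV.JPrime (locFin_of_lf_top)

universe u v

/-- a finite quotient by a locally finite normal subgroup is covered by a finite subgroup -/
theorem exists_lift {A : Type u} [Group A] {B : Type v} [Group B] (f : A →* B)
    (hf : Function.Surjective f) (hk : LF f.ker) (hB : Finite B) :
    ∃ F : Subgroup A, Finite F ∧ ∀ b : B, ∃ x ∈ F, f x = b := by
  choose l hl using hf
  have hTop : LF (⊤ : Subgroup A) := by
    have h1 := lf_comap_hom f hk ⊤ (lf_of_finite _ inferInstance)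
    rwa [Subgroup.comap_top] at h1
  exact ⟨closure (Set.range l), hTop _ (Set.finite_range l) (fun x _ => mem_top x), fun b =>
    ⟨l b, subset_closure ⟨b, rfl⟩, hl b⟩⟩

/-- no section of a finite subgroup is dihedral of order 16 -/
def NoF (G : Type u) [Group G] : Prop :=
  ∀ (H : Subgroup G) (N : Subgroup H) [N.Normal], Finite H → ¬ Is16 7 (H ⧸ N)

theorem NoF.surj {G : Type u} [Group G] (hG : NoF G) (H : Subgroup G) (hH : Finite H) {K : Type v}
    [Group K] (f : H →* K) (hf : Function.Surjective f) : ¬ Is16 7 K := by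
  have e : H ⧸ f.ker ≃* K := QuotientGroup.quotientKerEquivOfSurjective f hf
  exact fun h => hG H f.ker hH (h.of_equiv e.symm)

theorem NoF.finite {G : Type u} [Group G] (hG : NoF G) (H : Subgroup G) (hH : Finite H) : No16 7 H := by
  intro K N _
  have e : K ≃* K.map H.subtype := K.equivMapOfInjective H.subtype H.subtype_injective
  have hs : Function.Surjective ((QuotientGroup.mk' N).comp e.symm.toMonoidHom) :=
    (QuotientGroup.mk'_surjective N).comp e.symm.surjective
  exact hG.surj (K.map H.subtype) (Finite.of_equiv _ e.toEquiv) _ hs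

theorem NoF.quotient {G : Type u} [Group G] (hG : NoF G) (R : Subgroup G) [R.Normal] (hR : LF R) :
    NoF (G ⧸ R) := by
  intro H N _ hH
  set f := QuotientGroup.mk' R with hfdef
  have hf : Function.Surjective f := QuotientGroup.mk'_surjective R
  let g : H.comap f →* H := (f.comp (H.comap f).subtype).codRestrict H (fun x => x.2)
  have hg : Function.Surjective g := by
    intro h
    obtain ⟨x, hx⟩ := hf h
    have hxH : x ∈ H.comap f := by
      rw [Subgroup.mem_comap, hx]
      exact h.2
    exact ⟨⟨x, hxH⟩, Subtype.ext hx⟩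
  have hgk : LF g.ker := by
    have h1 : g.ker = R.comap (H.comap f).subtype := by
      ext x
      rw [MonoidHom.mem_ker, Subgroup.mem_comap]
      constructor
      · intro h
        have h2 : f x = 1 := congrArg Subtype.val h
        exact (QuotientGroup.eq_one_iff _).mp h2
      · intro h
        apply Subtype.ext
        exact (QuotientGroup.eq_one_iff _).mpr h
    rw [h1]
    exact lf_comap_hom _ (lf_ker_of_injective _ (H.comap f).subtype_injective) R hR
  obtain ⟨F, hF, hFs⟩ := exists_lift g hg hgk hH
  have e : F ≃* F.map (H.comap f).subtype := F.equivMapOfInjective _ (H.comap f).subtype_injective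
  have hs : Function.Surjective ((QuotientGroup.mk' N).comp (g.comp (F.subtype.comp e.symm.toMonoidHom))) := by
    intro y
    obtain ⟨h, rfl⟩ := QuotientGroup.mk'_surjective N y
    obtain ⟨x, hx, rfl⟩ := hFs h
    refine ⟨e ⟨x, hx⟩, ?_⟩
    show QuotientGroup.mk' N (g (F.subtype (e.symm (e _)))) = _
    rw [MulEquiv.symm_apply_apply]
    rfl
  exact hG.surj _ (Finite.of_equiv _ e.toEquiv) _ hs

section elements

variable {G : Type u} [Group G]

/-- no dihedral group of order 16 -/
theorem NoF.dih (hG : NoF G) {r s : G} (hs : s * s = 1) (h : s * r * s = r⁻¹) (h8 : r ^ 8 = 1) :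
    r ^ 4 = 1 := by
  by_contra h4
  have hr := orderOf_eight h8 h4
  have h7 : s * r * s = r ^ 7 := by
    rw [h]
    apply inv_eq_of_mul_eq_one_left
    rw [← pow_succ]
    exact h8
  have h16 : Is16 7 (grp hs h7 h8) := by
    refine is16_grp hs h7 h8 hr ?_
    intro hk
    have h6 : r ^ 6 = 1 := by
      have e : r ^ 7 = r ^ 6 * r := by rw [← pow_succ]
      rw [e] at hk
      exact mul_eq_right.mp hk
    have h7' := orderOf_dvd_of_pow_eq_one h6
    rw [hr] at h7'
    omega
  have hfin : Finite (grp hs h7 h8) := Nat.finite_of_card_ne_zero (by rw [h16.1]; norm_num)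
  exact hG.surj (grp hs h7 h8) hfin (MonoidHom.id _) Function.surjective_id h16

/-- two involutions whose product has 2-power order -/
theorem NoF.invol (hG : NoF G) {i j : G} (hi : i * i = 1) (hj : j * j = 1) (n : ℕ)
    (hn : (i * j) ^ (2 ^ n) = 1) : (i * j) ^ 4 = 1 := by
  induction n with
  | zero =>
    have h1 : i * j = 1 := by simpa using hn
    rw [h1, one_pow]
  | succ n ih =>
    rcases Nat.lt_or_ge n 2 with h2 | h2
    · interval_cases n
      · have h1 : (i * j) ^ 2 = 1 := by simpa using hn
        have e : (i * j) ^ 4 = ((i * j) ^ 2) ^ 2 := by rw [← pow_mul]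
        rw [e, h1, one_pow]
      · have e : (2 : ℕ) ^ (1 + 1) = 4 := by norm_num
        rw [e] at hn
        exact hn
    · apply ih
      obtain ⟨m, rfl⟩ : ∃ m, n = m + 2 := ⟨n - 2, by omega⟩
      have e1 : (2 : ℕ) ^ (m + 2 + 1) = 2 ^ m * 8 := by ring
      have e2 : (2 : ℕ) ^ (m + 2) = 2 ^ m * 4 := by ring
      rw [e1, pow_mul] at hn
      rw [e2, pow_mul]
      refine hG.dih (s := i) hi ?_ hn
      have hinv : i * (i * j) * i = (i * j)⁻¹ := by
        rw [mul_inv_rev, inv_eq_of_mul_eq_one_left hi, inv_eq_of_mul_eq_one_left hj, ← mul_assoc, hi,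
          one_mul]
      have h3 : ∀ k : ℕ, i * (i * j) ^ k * i = ((i * j) ^ k)⁻¹ := by
        intro k
        have e3 : i * (i * j) ^ k * i = (i * (i * j) * i) ^ k := by
          induction k with
          | zero => simp [hi]
          | succ k ihk =>
            rw [pow_succ (i * (i * j) * i), ← ihk, pow_succ]
            have e4 : i * (i * j) ^ k * i * (i * (i * j) * i) =
                i * (i * j) ^ k * (i * i) * (i * j) * i := by simp only [mul_assoc]
            rw [e4, hi, mul_one]
            simp only [mul_assoc]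
        rw [e3, hinv, inv_pow]
      exact h3 _

end elements

/-- `P128` contains a dihedral group of order 16 -/
theorem not_no16_P128 : ¬ No16 7 P128 := by
  intro h
  have L := lawsP
  have h4 : (gx * gy * gz) ^ 4 ≠ 1 := by
    rw [L.pow_eq]
    exact omega_ne
  apply h4
  refine h.dih (s := gz) L.hz ?_ ?_
  · have e : gz * (gx * gy * gz) * gz = gz * (gx * gy) := by
      simp only [mul_assoc, L.hz, mul_one]
    rw [e, mul_inv_rev, mul_inv_rev, inv_eq L.hx, inv_eq L.hy, inv_eq L.hz, L.yx]
  · have e : (gx * gy * gz) ^ 8 = (gx * gy * gz) ^ 4 * (gx * gy * gz) ^ 4 := by rw [← pow_add]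
    rw [e, L.pow_eq]
    exact L.h3

theorem NoF.noInv {G : Type u} [Group G] (hG : NoF G) : NoInv G := by
  refine NoInv.of_finite ?_ (Nat.finite_of_card_ne_zero (by rw [card_P128]; norm_num))
  intro H N _ hH
  exact ⟨fun e => not_no16_P128 (((hG.finite H hH).quotient N).image e.toMonoidHom e.surjective)⟩

/-- a 2-group whose finite subgroups have no dihedral section of order 16 is locally finite -/
theorem partB (h2 : HKQ1.{u}) (G : Type u) [Group G] (hp : ∀ g : G, ∃ n : ℕ, g ^ (2 ^ n) = 1)
    (hG : NoF G) : LocFin G := by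
  obtain ⟨R, hRn, hR, hQ⟩ := Pool.Agent.Helper94.SV.JPrime.exists_radical G
  have hNF : NoF (G ⧸ R) := hG.quotient R hR
  have h2Q : ∀ q : G ⧸ R, ∃ n : ℕ, q ^ (2 ^ n) = 1 := by
    intro q
    obtain ⟨g, rfl⟩ := QuotientGroup.mk'_surjective R q
    obtain ⟨n, hn⟩ := hp g
    exact ⟨n, by rw [← map_pow, hn, map_one]⟩
  have hD : MaxLaw {z : G ⧸ R | z * z = 1} := by
    refine ⟨⟨mul_one 1, fun x hx => hx, ?_, ?_⟩, ?_⟩
    · intro g x hx
      show g * x * g⁻¹ * (g * x * g⁻¹) = 1
      have e : g * x * g⁻¹ * (g * x * g⁻¹) = g * (x * x) * g⁻¹ := by group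
      have hx' : x * x = 1 := hx
      rw [e, hx']
      group
    · intro x hx y hy
      obtain ⟨n, hn⟩ := h2Q (x * y)
      exact four_of_pow (hNF.invol hx hy n hn)
    · intro E hE _ x hx
      exact hE.inv x hx
  have htriv := Pool.Agent.Helper94.SV.KFF.triv h2 hNF.noInv hQ hD
  have hone : ∀ (n : ℕ) (q : G ⧸ R), q ^ (2 ^ n) = 1 → q = 1 := by
    intro n
    induction n with
    | zero =>
      intro q hq
      simpa using hq
    | succ n ih =>
      intro q hq
      apply ih
      apply htriv
      show q ^ 2 ^ n * q ^ 2 ^ n = 1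
      rw [← pow_add, ← two_mul, ← pow_succ']
      exact hq
  apply locFin_of_lf_top
  refine hR.mono ?_
  intro g _
  obtain ⟨n, hn⟩ := h2Q (QuotientGroup.mk' R g)
  exact (QuotientGroup.eq_one_iff g).mp (hone n _ hn)

/-- the same with the dihedral group of Mathlib -/
theorem partB' (h2 : HKQ1.{u}) (G : Type u) [Group G] (hp : ∀ g : G, ∃ n : ℕ, g ^ (2 ^ n) = 1)
    (hG : ∀ (H : Subgroup G) (K : Subgroup H) [K.Normal], Finite H → IsEmpty ((H ⧸ K) ≃* DihedralGroup 8)) :
    LocFin G :=
  partB h2 G hp fun H K _ hH hK => (hG H K hH).false (IsD16.nonempty_equiv hK).some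

end Pool.Agent.Helper94.SV.KTwo
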