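import Pool.Agent.Helper94.SV.Sanov

/-!
# Relative reduction

`D` a normal set of involutions with `(a b) ^ 4 = 1`, `F` a normal subgroup with `N / F` a locally
finite 2-group.  If `⟨K, b⟩` is finite for every finite `K ≤ F` and `b ∈ D` then all finitely
generated subgroups are finite.
-/

set_option autoImplicit false

open Subgroup

namespace Pool.Agent.Helper94.SV

universe u v

variable {G : Type u} [Group G]

/-! ### Adjoining an involution which normalises a subgroup -/

/-- `L ∪ L t` for an involution `t` normalising `L`. -/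
def adj (L : Subgroup G) (t : G) (ht : t * t = 1) (hL : ∀ l ∈ L, t * l * t ∈ L) : Subgroup G where
  carrier := {g | g ∈ L ∨ g * t ∈ L}
  one_mem' := Or.inl L.one_mem
  mul_mem' := by
    rintro a b (ha | ha) (hb | hb)
    · exact Or.inl (L.mul_mem ha hb)
    · exact Or.inr (by rw [mul_assoc]; exact L.mul_mem ha hb)
    · right
      have h1 : a * b * t = a * t * (t * b * t) := by
        calc a * b * t = a * (t * t) * b * t := by rw [ht]; group
          _ = _ := by group
      rw [h1]
      exact L.mul_mem ha (hL b hb)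
    · left
      have h1 : a * b = a * t * (t * (b * t) * t) := by
        calc a * b = a * (t * t) * b * (t * t) := by rw [ht]; group
          _ = _ := by group
      rw [h1]
      exact L.mul_mem ha (hL _ hb)
  inv_mem' := by
    rintro a (ha | ha)
    · exact Or.inl (L.inv_mem ha)
    · right
      have hti : t⁻¹ = t := inv_eq_of_mul_eq_one_right ht
      have h1 : a⁻¹ * t = t * (a * t)⁻¹ * t := by
        rw [mul_inv_rev, hti, ← mul_assoc, ht, one_mul]
      rw [h1]
      exact hL _ (L.inv_mem ha)

theorem mem_adj {L : Subgroup G} {t : G} {ht : t * t = 1} {hL : ∀ l ∈ L, t * l * t ∈ L} {g : G} :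
    g ∈ adj L t ht hL ↔ g ∈ L ∨ g * t ∈ L := Iff.rfl

theorem le_adj {L : Subgroup G} {t : G} {ht : t * t = 1} {hL : ∀ l ∈ L, t * l * t ∈ L} :
    L ≤ adj L t ht hL := fun _ hl => Or.inl hl

theorem self_mem_adj {L : Subgroup G} {t : G} {ht : t * t = 1} {hL : ∀ l ∈ L, t * l * t ∈ L} :
    t ∈ adj L t ht hL := Or.inr (by rw [ht]; exact L.one_mem)

theorem adj_finite {L : Subgroup G} {t : G} {ht : t * t = 1} {hL : ∀ l ∈ L, t * l * t ∈ L}
    (hf : (L : Set G).Finite) : (adj L t ht hL : Set G).Finite := by
  refine (hf.union (hf.image (fun l => l * t))).subset ?_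
  rintro g (hg | hg)
  · exact Or.inl hg
  · right
    exact ⟨g * t, hg, by
      change g * t * t = g
      rw [mul_assoc, ht, mul_one]⟩

/-- Invariance of `K ⊔ ⟨c⟩` under an involution. -/
theorem inv_sup {K : Subgroup G} {c t : G} (ht : t * t = 1)
    (hK : ∀ k ∈ K, t * k * t ∈ K ⊔ closure {c}) (hc : t * c * t ∈ K ⊔ closure {c}) :
    ∀ l ∈ K ⊔ closure {c}, t * l * t ∈ K ⊔ closure {c} := by
  have hti : t⁻¹ = t := inv_eq_of_mul_eq_one_right ht
  have h1 : K ⊔ closure {c} ≤ (K ⊔ closure {c}).comap (MulAut.conj t).toMonoidHom := by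
    refine sup_le (fun k hk => ?_) ?_
    · change t * k * t⁻¹ ∈ K ⊔ closure {c}
      rw [hti]; exact hK k hk
    · rw [closure_le]
      intro d hd
      rw [Set.mem_singleton_iff.mp hd]
      change t * c * t⁻¹ ∈ K ⊔ closure {c}
      rw [hti]; exact hc
  intro l hl
  have h2 : t * l * t⁻¹ ∈ K ⊔ closure {c} := h1 hl
  rwa [hti] at h2

/-! ### Finite 2-groups -/

/-- A proper subgroup of a finite 2-group is contained in a proper normal subgroup. -/
theorem exists_normal_lt {P : Type v} [Group P] {S A : Subgroup P} (hS : (S : Set P).Finite)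
    (h2 : IsPGroup 2 S) (hA : A < S) :
    ∃ M : Subgroup P, A ≤ M ∧ M < S ∧ ∀ s ∈ S, ∀ m ∈ M, s * m * s⁻¹ ∈ M := by
  have : Finite S := hS
  have : Fact (Nat.Prime 2) := ⟨Nat.prime_two⟩
  have hnil : Group.IsNilpotent S := h2.isNilpotent
  have hne : A.subgroupOf S ≠ ⊤ := by
    intro h
    rw [subgroupOf_eq_top] at h
    exact absurd hA (not_lt_of_ge h)
  obtain ⟨M, hM, hAM⟩ := (eq_top_or_exists_le_coatom (A.subgroupOf S)).resolve_left hne
  have hMn : M.Normal := NormalizerCondition.normal_of_coatom M
    Group.normalizerCondition_of_isNilpotent hM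
  refine ⟨M.map S.subtype, ?_, ?_, ?_⟩
  · intro a ha
    exact ⟨⟨a, hA.le ha⟩, hAM (by simpa [mem_subgroupOf] using ha), rfl⟩
  · refine lt_of_le_of_ne ?_ ?_
    · rintro _ ⟨m, _, rfl⟩
      exact m.2
    · intro h
      apply hM.1
      rw [eq_top_iff]
      intro s _
      have hs : (s : P) ∈ M.map S.subtype := by rw [h]; exact s.2
      obtain ⟨m, hm, hms⟩ := hs
      have : m = s := Subtype.ext hms
      exact this ▸ hm
  · rintro s hs _ ⟨m, hm, rfl⟩
    exact ⟨⟨s, hs⟩ * m * ⟨s, hs⟩⁻¹, hMn.conj_mem m hm _, rfl⟩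

/-- In a finite 2-group `S` generated by a normal set `E` of involutions there are a subgroup `Q`
generated by elements of `E`, normal in `S`, and `t ∈ E` with `S = Q ∪ Q t`, `t ∉ Q`. -/
theorem exists_step {P : Type v} [Group P] {S : Subgroup P} (hS : (S : Set P).Finite)
    (h2 : IsPGroup 2 S) {E : Set P} (hES : E ⊆ S) (hE : S ≤ closure E)
    (hEc : ∀ s ∈ S, ∀ e ∈ E, s * e * s⁻¹ ∈ E) (hE2 : ∀ e ∈ E, e * e = 1) (hne : S ≠ ⊥) :
    ∃ (Q : Subgroup P) (t : P), t ∈ E ∧ t ∉ Q ∧ Q ≤ closure (E ∩ Q) ∧ Q < S ∧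
      (∀ s ∈ S, ∀ q ∈ Q, s * q * s⁻¹ ∈ Q) ∧ ∀ s ∈ S, s ∈ Q ∨ s * t ∈ Q := by
  have hfinS : Finite S := hS
  let C : Set (Subgroup P) := {Q | Q < S ∧ Q ≤ closure (E ∩ Q)}
  have hC : (⊥ : Subgroup P) ∈ C := ⟨bot_lt_iff_ne_bot.2 hne, bot_le⟩
  have hcard : ∀ Q ∈ C, Nat.card Q ≤ Nat.card S := fun Q hQ =>
    Nat.card_mono hS hQ.1.le
  have hbdd : BddAbove ((fun Q : Subgroup P => Nat.card Q) '' C) := by
    refine ⟨Nat.card S, ?_⟩
    rintro _ ⟨Q, hQ, rfl⟩
    exact hcard Q hQ
  have hmem := Nat.sSup_mem (⟨_, ⊥, hC, rfl⟩ : ((fun Q : Subgroup P => Nat.card Q) '' C).Nonempty)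
    hbdd
  obtain ⟨Q, hQC, hQcard⟩ := hmem
  have hmax : ∀ Q' ∈ C, Q ≤ Q' → Q = Q' := by
    intro Q' hQ' hle
    have hfin : Finite Q' := hS.subset hQ'.1.le
    refine Subgroup.eq_of_le_of_card_ge hle ?_
    have : Nat.card Q' ≤ Nat.card Q := by
      have := le_csSup hbdd ⟨Q', hQ', rfl⟩
      rw [← hQcard] at this
      exact this
    exact this
  obtain ⟨hQS, hQE⟩ := hQC
  obtain ⟨M, hQM, hMS, hMn⟩ := exists_normal_lt hS h2 hQS
  have hQ' : Q = closure (E ∩ M) := by
    refine hmax _ ⟨?_, ?_⟩ ?_
    · refine lt_of_le_of_lt ?_ hMS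
      rw [closure_le]
      exact fun e he => he.2
    · exact closure_mono (fun e he => ⟨he.1, subset_closure he⟩)
    · exact hQE.trans (closure_mono (fun e he => ⟨he.1, hQM he.2⟩))
  have hQn : ∀ s ∈ S, ∀ q ∈ Q, s * q * s⁻¹ ∈ Q := by
    intro s hs q hq
    have h1 : Q ≤ Q.comap (MulAut.conj s).toMonoidHom := by
      conv_lhs => rw [hQ']
      rw [closure_le]
      rintro e ⟨he, heM⟩
      change s * e * s⁻¹ ∈ Q
      rw [hQ']
      exact subset_closure ⟨hEc s hs e he, hMn s hs e heM⟩
    exact h1 hq
  obtain ⟨t, htE, htQ⟩ : ∃ t ∈ E, t ∉ Q := by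
    by_contra hcon
    push Not at hcon
    have : closure E ≤ Q := by
      rw [closure_le]
      exact hcon
    exact absurd hQS (not_lt_of_ge (hE.trans this))
  have htS : t ∈ S := hES htE
  have ht2 := hE2 t htE
  have hti : t⁻¹ = t := inv_eq_of_mul_eq_one_right ht2
  have htn : ∀ q ∈ Q, t * q * t ∈ Q := by
    intro q hq
    have := hQn t htS q hq
    rwa [hti] at this
  refine ⟨Q, t, htE, htQ, hQE, hQS, hQn, ?_⟩
  set A := adj Q t ht2 htn with hA
  have hAS : A ≤ S := by
    rintro a (ha | ha)
    · exact hQS.le ha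
    · have h1 : a = a * t * t := by rw [mul_assoc, ht2, mul_one]
      rw [h1]
      exact S.mul_mem (hQS.le ha) htS
  have hAE : A ≤ closure (E ∩ A) := by
    have hQA : Q ≤ closure (E ∩ A) :=
      hQE.trans (closure_mono (fun e he => ⟨he.1, le_adj he.2⟩))
    have htA : t ∈ closure (E ∩ A) := subset_closure ⟨htE, self_mem_adj⟩
    rintro a (ha | ha)
    · exact hQA ha
    · have h1 : a = a * t * t := by rw [mul_assoc, ht2, mul_one]
      rw [h1]
      exact mul_mem (hQA ha) htA
  rcases hAS.lt_or_eq with h | h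
  · exact absurd ((hmax A ⟨h, hAE⟩ le_adj) ▸ (self_mem_adj : t ∈ A)) htQ
  · intro s hs
    rw [← h] at hs
    exact hs

/-! ### The reduction -/

section main

variable {P : Type v} [Group P] {π : G →* P} {D : Set G}

/-- `K` is generated by elements of the kernel and elements of `D`. -/
def Good (π : G →* P) (D : Set G) (K : Subgroup G) : Prop :=
  K ≤ closure (((K : Set G) ∩ π.ker) ∪ ((K : Set G) ∩ D))

theorem Good.of_lift {K₀ K : Subgroup G} (h0 : K₀ ≤ K)
    (h : ∀ k ∈ K, ∃ k' ∈ closure ((K₀ : Set G) ∩ D), π k' = π k) : Good π D K := by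
  intro k hk
  obtain ⟨k', hk', hπ⟩ := h k hk
  have h1 : closure ((K₀ : Set G) ∩ D) ≤ closure (((K : Set G) ∩ π.ker) ∪ ((K : Set G) ∩ D)) :=
    closure_mono (fun d hd => Or.inr ⟨h0 hd.1, hd.2⟩)
  have h2 : closure ((K₀ : Set G) ∩ D) ≤ K := by
    rw [closure_le]
    exact fun d hd => h0 hd.1
  have h3 : k * k'⁻¹ ∈ closure (((K : Set G) ∩ π.ker) ∪ ((K : Set G) ∩ D)) := by
    refine subset_closure (Or.inl ⟨K.mul_mem hk (K.inv_mem (h2 hk')), ?_⟩)
    change k * k'⁻¹ ∈ π.ker
    rw [MonoidHom.mem_ker, map_mul, map_inv, hπ, mul_inv_cancel]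
  have h4 : k = k * k'⁻¹ * k' := by group
  rw [h4]
  exact mul_mem h3 (h1 hk')

theorem Good.mono_closure {K L : Subgroup G} (hK : Good π D K) (h : K ≤ L) :
    K ≤ closure (((L : Set G) ∩ π.ker) ∪ ((L : Set G) ∩ D)) := by
  refine le_trans hK (closure_mono ?_)
  rintro d (hd | hd)
  · exact Or.inl ⟨h hd.1, hd.2⟩
  · exact Or.inr ⟨h hd.1, hd.2⟩

theorem Good.sup {K : Subgroup G} (hK : Good π D K) {d : G} (hd : d ∈ D) :
    Good π D (K ⊔ closure {d}) := by
  refine sup_le (hK.mono_closure le_sup_left) ?_
  rw [closure_le]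
  intro e he
  rw [Set.mem_singleton_iff.mp he]
  exact subset_closure (Or.inr ⟨mem_sup_right (subset_closure rfl), hd⟩)

/-- The main induction. -/
theorem claim (hDc : ∀ g : G, ∀ d ∈ D, g * d * g⁻¹ ∈ D) (hD2 : ∀ d ∈ D, d * d = 1)
    (hD4 : ∀ a ∈ D, ∀ b ∈ D, (a * b) ^ 4 = 1)
    (hP : ∀ S : Subgroup P, S.FG → (S : Set P).Finite ∧ IsPGroup 2 S)
    (hbase : ∀ K : Subgroup G, (K : Set G).Finite → K ≤ π.ker → ∀ b ∈ D,
      ((K ⊔ closure {b} : Subgroup G) : Set G).Finite) :
    ∀ (n m : ℕ) (K : Subgroup G), (K : Set G).Finite → Good π D K → ∀ b ∈ D,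
      Nat.card (K.map π ⊔ closure {π b} : Subgroup P) ≤ n → Nat.card (K.map π) ≤ m →
      ((K ⊔ closure {b} : Subgroup G) : Set G).Finite := by
  intro n
  induction n with
  | zero =>
    intro m K hK _ b _ hn _
    exfalso
    have hfg : (K.map π ⊔ closure {π b} : Subgroup P).FG := by
      rw [Subgroup.fg_iff]
      refine ⟨(K.map π : Set P) ∪ {π b}, ?_, (hK.image π).union (Set.finite_singleton _)⟩
      rw [Subgroup.closure_union, Subgroup.closure_eq]
    have hfin : Finite (K.map π ⊔ closure {π b} : Subgroup P) := (hP _ hfg).1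
    have := Nat.card_pos (α := (K.map π ⊔ closure {π b} : Subgroup P))
    omega
  | succ n ihn =>
    intro m
    induction m with
    | zero =>
      intro K hK _ b _ _ hm
      exfalso
      have hfin : Finite (K.map π) := hK.image π
      have := Nat.card_pos (α := K.map π)
      omega
    | succ m ihm =>
      intro K hK hg b hbD hn hm
      have hfg : (K.map π ⊔ closure {π b} : Subgroup P).FG := by
        rw [Subgroup.fg_iff]
        refine ⟨(K.map π : Set P) ∪ {π b}, ?_, (hK.image π).union (Set.finite_singleton _)⟩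
        rw [Subgroup.closure_union, Subgroup.closure_eq]
      obtain ⟨hSfin, hS2⟩ := hP _ hfg
      set S : Subgroup P := K.map π ⊔ closure {π b} with hSdef
      have hK'fin : (K.map π : Set P).Finite := hK.image π
      have hK'S : K.map π ≤ S := le_sup_left
      have hbS : π b ∈ S := mem_sup_right (subset_closure rfl)
      have hSfin' : Finite S := hSfin
      have hK'fin' : Finite (K.map π) := hK'fin
      by_cases hbot : K.map π = ⊥
      · exact hbase K hK ((map_eq_bot_iff K).1 hbot) b hbD
      -- the step in the image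
      have hb2 := hD2 b hbD
      have hbi : b⁻¹ = b := inv_eq_of_mul_eq_one_right hb2
      obtain ⟨Q, t', htE, htQ, hQE, hQK, hQn, hcov⟩ := exists_step (E := π '' ((K : Set G) ∩ D))
        hK'fin (hS2.to_le hK'S) (by
          rintro _ ⟨d, hd, rfl⟩
          exact ⟨d, hd.1, rfl⟩) (by
          have h1 : closure (((K : Set G) ∩ π.ker) ∪ ((K : Set G) ∩ D)) ≤
              (closure (π '' ((K : Set G) ∩ D))).comap π := by
            rw [closure_le]
            rintro u (hu | hu)
            · change π u ∈ closure (π '' ((K : Set G) ∩ D))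
              rw [(MonoidHom.mem_ker).1 hu.2]
              exact one_mem _
            · exact subset_closure ⟨u, hu, rfl⟩
          rintro _ ⟨k, hk, rfl⟩
          exact h1 (hg hk)) (by
          rintro _ ⟨k, hk, rfl⟩ _ ⟨d, hd, rfl⟩
          refine ⟨k * d * k⁻¹, ⟨K.mul_mem (K.mul_mem hk hd.1) (K.inv_mem hk), hDc k d hd.2⟩, ?_⟩
          rw [map_mul, map_mul, map_inv]) (by
          rintro _ ⟨d, hd, rfl⟩
          rw [← map_mul, hD2 d hd.2, map_one]) hbot
      obtain ⟨t, ⟨htK, htD⟩, rfl⟩ := htE
      have ht2 := hD2 t htD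
      have hti : t⁻¹ = t := inv_eq_of_mul_eq_one_right ht2
      have htK' : π t ∈ K.map π := ⟨t, htK, rfl⟩
      have hπt : ∀ k : G, π (t * k * t) = π t * π k * (π t)⁻¹ := by
        intro k
        rw [← map_inv, hti, map_mul, map_mul]
      have hπb : ∀ k : G, π (b * k * b) = π b * π k * (π b)⁻¹ := by
        intro k
        rw [← map_inv, hbi, map_mul, map_mul]
      set K₀ : Subgroup G := K ⊓ Q.comap π with hK₀
      have hK₀K : K₀ ≤ K := inf_le_left
      have hK₀fin : (K₀ : Set G).Finite := hK.subset hK₀K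
      have hK₀Q : ∀ k ∈ K₀, π k ∈ Q := fun k hk => hk.2
      have ht₀ : ∀ k ∈ K₀, t * k * t ∈ K₀ := by
        rintro k ⟨hkK, hkQ⟩
        refine ⟨K.mul_mem (K.mul_mem htK hkK) htK, ?_⟩
        change π (t * k * t) ∈ Q
        rw [hπt]
        exact hQn _ htK' _ hkQ
      have hcov₀ : ∀ k ∈ K, k ∈ K₀ ∨ k * t ∈ K₀ := by
        intro k hk
        rcases hcov (π k) ⟨k, hk, rfl⟩ with h | h
        · exact Or.inl ⟨hk, h⟩
        · refine Or.inr ⟨K.mul_mem hk htK, ?_⟩
          change π (k * t) ∈ Q
          rw [map_mul]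
          exact h
      have hlift : ∀ q ∈ Q, ∃ k' ∈ closure ((K₀ : Set G) ∩ D), π k' = q := by
        intro q hq
        have h1 : closure (π '' ((K : Set G) ∩ D) ∩ Q) ≤ (closure ((K₀ : Set G) ∩ D)).map π := by
          rw [closure_le]
          rintro _ ⟨⟨d, hd, rfl⟩, hdQ⟩
          exact ⟨d, subset_closure ⟨⟨hd.1, hdQ⟩, hd.2⟩, rfl⟩
        exact h1 (hQE hq)
      have hgood : ∀ L : Subgroup G, K₀ ≤ L → (∀ k ∈ L, π k ∈ Q) → Good π D L :=
        fun L h0 hL => Good.of_lift h0 (fun k hk => hlift _ (hL k hk))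
      have hQfin : (Q : Set P).Finite := hK'fin.subset hQK.le
      have hQfin' : Finite Q := hQfin
      have hcardQ : Nat.card Q ≤ m := by
        by_contra hcon
        have h1 : Nat.card (K.map π) ≤ Nat.card Q := by omega
        exact hQK.ne (Subgroup.eq_of_le_of_card_ge hQK.le h1)
      have hcard : ∀ L : Subgroup G, (∀ k ∈ L, π k ∈ Q) → Nat.card (L.map π) ≤ m := by
        intro L hL
        refine le_trans (Nat.card_mono hQfin ?_) hcardQ
        rintro _ ⟨k, hk, rfl⟩
        exact hL k hk
      have hcardS : ∀ A : Subgroup P, A ≤ S → Nat.card A ≤ n + 1 := fun A hA =>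
        (Nat.card_mono hSfin hA).trans hn
      have hcardS' : ∀ (L : Subgroup G) (d : G), (∀ k ∈ L, π k ∈ S) → π d ∈ S →
          Nat.card (L.map π ⊔ closure {π d} : Subgroup P) ≤ n + 1 := by
        intro L d hL hd
        refine hcardS _ (sup_le ?_ ?_)
        · rintro _ ⟨k, hk, rfl⟩
          exact hL k hk
        · rw [closure_le]
          intro e he
          rw [Set.mem_singleton_iff.mp he]
          exact hd
      have hQS : ∀ q ∈ Q, q ∈ S := fun q hq => hK'S (hQK.le hq)
      have hg₀ : Good π D K₀ := hgood K₀ le_rfl hK₀Q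
      -- the conjugate of `t` by `b`
      set c : G := b * t * b with hc
      have hcD : c ∈ D := by
        have := hDc b t htD
        rwa [hbi] at this
      have hbcb : b * c * b = t := by
        calc b * c * b = (b * b) * t * (b * b) := by rw [hc]; group
          _ = t := by rw [hb2]; group
      have htct : t * c * t = c := by
        have h4 := hD4 t htD b hbD
        have h1 : t * b * t * b * t * b * t * b = 1 := by
          rw [← h4]; simp only [pow_succ, pow_zero, one_mul, mul_assoc]
        have h2 : t * c * t = (b * t * b)⁻¹ := by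
          rw [eq_inv_iff_mul_eq_one, ← h1, hc]; simp only [mul_assoc]
        rw [h2, mul_inv_rev, mul_inv_rev, hbi, hti, hc, mul_assoc]
      by_cases hb : π b ∈ K.map π
      · -- case B
        have hcK' : π c ∈ K.map π := by
          rw [hc, map_mul, map_mul]
          exact mul_mem (mul_mem hb htK') hb
        have hLc := ihm K₀ hK₀fin hg₀ c hcD
          (hcardS' K₀ c (fun k hk => hQS _ (hK₀Q k hk)) (hK'S hcK')) (hcard K₀ hK₀Q)
        have hinv := inv_sup (K := K₀) (c := c) ht2 (fun k hk => mem_sup_left (ht₀ k hk))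
          (by rw [htct]; exact mem_sup_right (subset_closure rfl))
        set K₁ : Subgroup G := adj (K₀ ⊔ closure {c}) t ht2 hinv with hK₁
        have hK₁fin : (K₁ : Set G).Finite := adj_finite hLc
        have hK₀K₁ : K₀ ≤ K₁ := le_sup_left.trans le_adj
        have hcK₁ : c ∈ K₁ := le_adj (mem_sup_right (subset_closure rfl))
        have htK₁ : t ∈ K₁ := self_mem_adj
        set K₁₀ : Subgroup G := K₁ ⊓ Q.comap π with hK₁₀
        have hK₁₀fin : (K₁₀ : Set G).Finite := hK₁fin.subset (inf_le_left : K₁₀ ≤ K₁)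
        have hK₀K₁₀ : K₀ ≤ K₁₀ := le_inf hK₀K₁ inf_le_right
        have hK₁₀Q : ∀ k ∈ K₁₀, π k ∈ Q := fun k hk => hk.2
        have hctQ : π (c * t) ∈ Q := by
          rcases hcov (π c) hcK' with h | h
          · exfalso
            apply htQ
            have h1 := hQn _ hb _ h
            rw [← hπb, hbcb] at h1
            exact h1
          · rw [map_mul]; exact h
        have hct : c * t ∈ K₁₀ := ⟨K₁.mul_mem hcK₁ htK₁, hctQ⟩
        have ht₁₀ : ∀ k ∈ K₁₀, t * k * t ∈ K₁₀ := by
          rintro k ⟨hkK, hkQ⟩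
          refine ⟨K₁.mul_mem (K₁.mul_mem htK₁ hkK) htK₁, ?_⟩
          change π (t * k * t) ∈ Q
          rw [hπt]
          exact hQn _ htK' _ hkQ
        have hL := ihm K₁₀ hK₁₀fin (hgood K₁₀ hK₀K₁₀ hK₁₀Q) b hbD
          (hcardS' K₁₀ b (fun k hk => hQS _ (hK₁₀Q k hk)) hbS) (hcard K₁₀ hK₁₀Q)
        have hinv2 := inv_sup (K := K₁₀) (c := b) ht2 (fun k hk => mem_sup_left (ht₁₀ k hk)) (by
          have h1 : t * b * t = b * (c * t) := by
            calc t * b * t = (b * b) * (t * b * t) := by rw [hb2, one_mul]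
              _ = b * (c * t) := by rw [hc]; group
          rw [h1]
          exact mul_mem (mem_sup_right (subset_closure rfl)) (mem_sup_left hct))
        refine (adj_finite (t := t) (ht := ht2) (hL := hinv2) hL).subset ?_
        have hle : K ⊔ closure {b} ≤ adj (K₁₀ ⊔ closure {b}) t ht2 hinv2 := by
          refine sup_le (fun k hk => ?_) ?_
          · rcases hcov₀ k hk with h | h
            · exact le_adj (mem_sup_left (hK₀K₁₀ h))
            · exact Or.inr (mem_sup_left (hK₀K₁₀ h))
          · exact le_sup_right.trans le_adj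
        exact hle
      · -- case C
        have hlt : K.map π < S := by
          refine lt_of_le_of_ne hK'S (fun h => hb ?_)
          rw [h]; exact hbS
        obtain ⟨M, hKM, hMS, hMn⟩ := exists_normal_lt hSfin hS2 hlt
        have hL₀ := ihm K₀ hK₀fin hg₀ b hbD
          (hcardS' K₀ b (fun k hk => hQS _ (hK₀Q k hk)) hbS) (hcard K₀ hK₀Q)
        have hconj : ∀ k : G, (MulAut.conj b).toMonoidHom k = b * k * b := by
          intro k
          change b * k * b⁻¹ = _
          rw [hbi]
        set M₀ : Subgroup G := K₀ ⊔ K₀.map (MulAut.conj b).toMonoidHom with hM₀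
        have hM₀L : M₀ ≤ K₀ ⊔ closure {b} := by
          refine sup_le le_sup_left ?_
          rintro _ ⟨k, hk, rfl⟩
          rw [hconj]
          have hbm : b ∈ K₀ ⊔ closure {b} := mem_sup_right (subset_closure rfl)
          exact mul_mem (mul_mem hbm (mem_sup_left hk)) hbm
        have hM₀fin : (M₀ : Set G).Finite := hL₀.subset hM₀L
        have hM₀M : ∀ k ∈ M₀, π k ∈ M := by
          have h1 : M₀ ≤ M.comap π := by
            refine sup_le (fun k hk => hKM (hQK.le (hK₀Q k hk))) ?_
            rintro _ ⟨k, hk, rfl⟩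
            change π _ ∈ M
            rw [hconj, hπb]
            exact hMn _ hbS _ (hKM (hQK.le (hK₀Q k hk)))
          exact fun k hk => h1 hk
        have hM₀g : Good π D M₀ := by
          refine sup_le (hg₀.mono_closure le_sup_left) ?_
          have h1 : K₀ ≤ (closure (((M₀ : Set G) ∩ π.ker) ∪ ((M₀ : Set G) ∩ D))).comap
              (MulAut.conj b).toMonoidHom := by
            refine le_trans hg₀ ?_
            rw [closure_le]
            rintro u (hu | hu)
            · refine subset_closure (Or.inl ⟨mem_sup_right ⟨u, hu.1, rfl⟩, ?_⟩)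
              change (MulAut.conj b).toMonoidHom u ∈ π.ker
              rw [hconj, MonoidHom.mem_ker, hπb, (MonoidHom.mem_ker).1 hu.2, mul_one,
                mul_inv_cancel]
            · refine subset_closure (Or.inr ⟨mem_sup_right ⟨u, hu.1, rfl⟩, ?_⟩)
              rw [MulEquiv.toMonoidHom_eq_coe, MonoidHom.coe_coe, MulAut.conj_apply]
              exact hDc b u hu.2
          rintro _ ⟨k, hk, rfl⟩
          exact h1 hk
        have hM₀b : ∀ k ∈ M₀, b * k * b ∈ M₀ := by
          have h1 : M₀ ≤ M₀.comap (MulAut.conj b).toMonoidHom := by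
            refine sup_le (fun k hk => mem_sup_right ⟨k, hk, rfl⟩) ?_
            rintro _ ⟨k, hk, rfl⟩
            change (MulAut.conj b).toMonoidHom ((MulAut.conj b).toMonoidHom k) ∈ M₀
            rw [hconj, hconj]
            have h2 : b * (b * k * b) * b = k := by
              calc b * (b * k * b) * b = (b * b) * k * (b * b) := by group
                _ = k := by rw [hb2]; group
            rw [h2]
            exact mem_sup_left hk
          intro k hk
          have h2 := h1 hk
          rw [mem_comap, hconj] at h2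
          exact h2
        have hMfin : (M : Set P).Finite := hSfin.subset hMS.le
        have hMfin' : Finite M := hMfin
        have hcardM : Nat.card M ≤ n := by
          by_contra hcon
          have h1 : Nat.card S ≤ Nat.card M := by omega
          exact hMS.ne (Subgroup.eq_of_le_of_card_ge hMS.le h1)
        have hcardM' : ∀ (L : Subgroup G) (d : G), (∀ k ∈ L, π k ∈ M) → π d ∈ M →
            Nat.card (L.map π ⊔ closure {π d} : Subgroup P) ≤ n := by
          intro L d hL hd
          refine le_trans (Nat.card_mono hMfin ?_) hcardM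
          have h1 : L.map π ⊔ closure {π d} ≤ M := by
            refine sup_le ?_ ?_
            · rintro _ ⟨k, hk, rfl⟩
              exact hL k hk
            · rw [closure_le]
              intro e he
              rw [Set.mem_singleton_iff.mp he]
              exact hd
          exact h1
        have htM : π t ∈ M := hKM htK'
        have hM₁fin := ihn _ M₀ hM₀fin hM₀g t htD (hcardM' M₀ t hM₀M htM) le_rfl
        have hM₁g : Good π D (M₀ ⊔ closure {t}) := hM₀g.sup htD
        have hM₁M : ∀ k ∈ M₀ ⊔ closure {t}, π k ∈ M := by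
          have h1 : M₀ ⊔ closure {t} ≤ M.comap π := by
            refine sup_le (fun k hk => hM₀M k hk) ?_
            rw [closure_le]
            intro e he
            rw [Set.mem_singleton_iff.mp he]
            exact htM
          exact fun k hk => h1 hk
        have hcM : π c ∈ M := by
          rw [hc, hπb]
          exact hMn _ hbS _ htM
        have hM₂fin := ihn _ (M₀ ⊔ closure {t}) hM₁fin hM₁g c hcD
          (hcardM' _ c hM₁M hcM) le_rfl
        have hinv := inv_sup (K := M₀ ⊔ closure {t}) (c := c) hb2 (by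
          have h1 : M₀ ⊔ closure {t} ≤ (M₀ ⊔ closure {t} ⊔ closure {c}).comap
              (MulAut.conj b).toMonoidHom := by
            refine sup_le (fun k hk => ?_) ?_
            · rw [mem_comap, hconj]
              exact mem_sup_left (mem_sup_left (hM₀b k hk))
            · rw [closure_le]
              intro e he
              rw [Set.mem_singleton_iff.mp he]
              change (MulAut.conj b).toMonoidHom t ∈ M₀ ⊔ closure {t} ⊔ closure {c}
              rw [hconj]
              exact mem_sup_right (subset_closure rfl)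
          intro k hk
          have h2 := h1 hk
          rw [mem_comap, hconj] at h2
          exact h2) (by
          rw [hbcb]
          exact mem_sup_left (mem_sup_right (subset_closure rfl)))
        refine (adj_finite (t := b) (ht := hb2) (hL := hinv) hM₂fin).subset ?_
        have hle : K ⊔ closure {b} ≤ adj (M₀ ⊔ closure {t} ⊔ closure {c}) b hb2 hinv := by
          refine sup_le (fun k hk => ?_) ?_
          · refine le_adj (mem_sup_left ?_)
            have htm : t ∈ M₀ ⊔ closure {t} := mem_sup_right (subset_closure rfl)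
            rcases hcov₀ k hk with h | h
            · exact mem_sup_left (mem_sup_left h)
            · have h1 : k = k * t * t := by rw [mul_assoc, ht2, mul_one]
              rw [h1]
              exact mul_mem (mem_sup_left (mem_sup_left h)) htm
          · rw [closure_le]
            intro e he
            rw [Set.mem_singleton_iff.mp he]
            exact self_mem_adj
        exact hle

end main

end Pool.Agent.Helper94.SV
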